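import Pool.Agent.TKE.Sev

/-!
Every minimal counterexample has a base.
-/

open Finset

namespace Pool.Agent.TwoDens.TK

open Pool.Agent.TwoDens Pool.Agent.TwoDens.RK Pool.Agent.TwoDens.DD

variable {V : Type*} [DecidableEq V] {G : SimpleGraph V} [DecidableRel G.Adj]

/-- a set with missing pairs has a missing pair -/
theorem exists_miss {S : Finset V} (h : 0 < e2 Gᶜ S) : ∃ p ∈ S, ∃ q ∈ S, p ≠ q ∧ ¬ G.Adj p q := by
  rw [e2_eq] at h
  obtain ⟨p, hp, hp'⟩ := Finset.exists_ne_zero_of_sum_ne_zero (by omega : ∑ v ∈ S,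
    (nb Gᶜ S v).card ≠ 0)
  obtain ⟨q, hq⟩ := Finset.card_pos.1 (Nat.pos_of_ne_zero hp')
  have h1 := mem_nb.1 hq
  have h2 := (SimpleGraph.compl_adj _ _ _).1 h1.2
  exact ⟨p, hp, q, h1.1, h2.1, h2.2⟩

section nbh
variable {k : ℕ} {X : Finset V} (H : MC G k X) {v : V} (hv : v ∈ X)
  (hd : (nb G X v).card = k)
include H hv hd

theorem MC.clout {u : V} (hu : u ∈ cl G X v) :
    (nb G X u \ cl G X v).card = ((nb G X u).card - k) + (nb Gᶜ (cl G X v) u).card := by
  have h1 := deg_split (G := G) (cl_sub (G := G) hv) hu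
  have h2 := card_cl (G := G) (X := X) (v := v)
  have h3 := H.deg_ge u (cl_sub (G := G) hv hu)
  omega

theorem MC.clbud : 2 * exs G k X (cl G X v) + e2 Gᶜ (cl G X v) + 6 ≤ 4 * k := by
  have hk := H.hk
  have h1 := H.exbd (S := cl G X v) (j := 1) (cl_sub hv) ⟨v, mem_insert_self _ _⟩ (by
    have h := al_closed (G := G) (Y := X) (S := cl G X v) (J := {v})
      (Finset.singleton_subset_iff.2 hv) (Finset.singleton_subset_iff.2 (mem_insert_self _ _))
      (by simp) (by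
        intro z hz w hw hzw
        rw [mem_singleton] at hz
        rw [hz] at hzw
        exact mem_insert_of_mem (mem_nb.2 ⟨hw, hzw⟩))
    rw [Finset.card_singleton] at h
    exact h)
  have h2 : bd G X (cl G X v) = exs G k X (cl G X v) + e2 Gᶜ (cl G X v) := by
    unfold bd exs
    rw [e2_eq, ← Finset.sum_add_distrib]
    exact Finset.sum_congr rfl fun u hu => H.clout hv hd hu
  have h3 := card_cl (G := G) (X := X) (v := v)
  rw [h2, h3, hd] at h1
  push_cast at h1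
  have h4 : 2 * (exs G k X (cl G X v) : ℤ) + e2 Gᶜ (cl G X v) + 6 ≤ 4 * k := by nlinarith
  exact_mod_cast h4

theorem MC.clsum {S : Finset V} (hS : S ⊆ cl G X v) :
    2 * ∑ u ∈ S, (nb G X u \ cl G X v).card + S.card + 6 ≤ 4 * k + S.card * S.card := by
  have h1 : ∑ u ∈ S, (nb G X u \ cl G X v).card =
      exs G k X S + ∑ u ∈ S, (nb Gᶜ (cl G X v) u).card := by
    unfold exs
    rw [← Finset.sum_add_distrib]
    exact Finset.sum_congr rfl fun u hu => H.clout hv hd (hS hu)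
  have h2 := e2_sdiff (G := Gᶜ) hS
  have h3 := e2_le (G := Gᶜ) S
  have h4 := exs_mono (G := G) (k := k) (X := X) hS
  have h5 := H.clbud hv hd
  omega

theorem MC.clJ {J : Finset V} (hJ : J ⊆ cl G X v) (hi : G.IsIndepSet (J : Set V)) :
    ∃ S ⊆ X, S.card ≤ k + 1 + ∑ u ∈ J, (nb G X u \ cl G X v).card ∧
      al G (X \ S) + J.card ≤ al G X := by
  refine ⟨cl G X v ∪ J.biUnion (fun u => nb G X u \ cl G X v), ?_, ?_, ?_⟩
  · refine Finset.union_subset (cl_sub hv) ?_
    intro w hw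
    obtain ⟨u, _, hu⟩ := mem_biUnion.1 hw
    exact (mem_nb.1 (mem_sdiff.1 hu).1).1
  · have h1 := Finset.card_union_le (cl G X v) (J.biUnion (fun u => nb G X u \ cl G X v))
    have h2 := Finset.card_biUnion_le (s := J) (t := fun u => nb G X u \ cl G X v)
    have h3 := card_cl (G := G) (X := X) (v := v)
    omega
  · refine al_closed (hJ.trans (cl_sub hv)) (hJ.trans Finset.subset_union_left) hi ?_
    intro z hz w hw hzw
    rw [mem_union]
    by_cases h : w ∈ cl G X v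
    · exact Or.inl h
    · exact Or.inr (mem_biUnion.2 ⟨z, hz, mem_sdiff.2 ⟨mem_nb.2 ⟨hw, hzw⟩, h⟩⟩)

theorem MC.clpair {y z : V} (hy : y ∈ cl G X v) (hz : z ∈ cl G X v) (hyz : y ≠ z)
    (hn : ¬ G.Adj y z) :
    k ≤ (nb G X y \ cl G X v).card + (nb G X z \ cl G X v).card + 1 := by
  obtain ⟨S, hS, hc, hal⟩ := H.clJ hv hd (J := {y, z}) (by
    intro w hw
    rw [mem_insert, mem_singleton] at hw
    rcases hw with rfl | rfl
    · exact hy
    · exact hz) (indep_insert (by simp) (by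
      intro w hw
      rw [mem_singleton] at hw
      rw [hw]
      exact hn))
  rw [Finset.card_pair hyz] at hal
  rw [Finset.sum_pair hyz] at hc
  have := H.closed2 hS hal
  omega

theorem MC.cltri {y z w : V} (hy : y ∈ cl G X v) (hz : z ∈ cl G X v) (hw : w ∈ cl G X v)
    (hyz : y ≠ z) (hyw : y ≠ w) (hzw : z ≠ w)
    (h1 : ¬ G.Adj y z) (h2 : ¬ G.Adj y w) (h3 : ¬ G.Adj z w) :
    2 * k ≤ (nb G X y \ cl G X v).card + (nb G X z \ cl G X v).card +
      (nb G X w \ cl G X v).card + 1 := by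
  have hyn : y ∉ ({z, w} : Finset V) := by
    rw [mem_insert, mem_singleton, not_or]
    exact ⟨hyz, hyw⟩
  obtain ⟨S, hS, hc, hal⟩ := H.clJ hv hd (J := {y, z, w}) (by
    intro u hu
    rw [mem_insert, mem_insert, mem_singleton] at hu
    rcases hu with rfl | rfl | rfl
    · exact hy
    · exact hz
    · exact hw) (indep_insert (indep_insert (by simp) (by
      intro u hu
      rw [mem_singleton] at hu
      rw [hu]
      exact h3)) (by
      intro u hu
      rw [mem_insert, mem_singleton] at hu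
      rcases hu with rfl | rfl
      · exact h1
      · exact h2))
  rw [Finset.card_insert_of_notMem hyn, Finset.card_pair hzw] at hal
  rw [Finset.sum_insert hyn, Finset.sum_pair hzw] at hc
  have := H.closed3 hS hal
  omega

/-- no three disjoint missing pairs -/
theorem MC.no3 {a b p q r s : V} (ha : a ∈ cl G X v) (hb : b ∈ cl G X v) (hp : p ∈ cl G X v)
    (hq : q ∈ cl G X v) (hr : r ∈ cl G X v) (hs : s ∈ cl G X v)
    (hab : a ≠ b) (hap : a ≠ p) (haq : a ≠ q) (har : a ≠ r) (has : a ≠ s) (hbp : b ≠ p)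
    (hbq : b ≠ q) (hbr : b ≠ r) (hbs : b ≠ s) (hpq : p ≠ q) (hpr : p ≠ r) (hps : p ≠ s)
    (hqr : q ≠ r) (hqs : q ≠ s) (hrs : r ≠ s) (n1 : ¬ G.Adj a b) (n2 : ¬ G.Adj p q)
    (n3 : ¬ G.Adj r s) : False := by
  have hk := H.hk
  have e1 := H.clpair hv hd ha hb hab n1
  have e2' := H.clpair hv hd hp hq hpq n2
  have e3 := H.clpair hv hd hr hs hrs n3
  have m1 : r ∉ ({s} : Finset V) := by simp [hrs]
  have m2 : q ∉ ({r, s} : Finset V) := by simp [hqr, hqs]
  have m3 : p ∉ ({q, r, s} : Finset V) := by simp [hpq, hpr, hps]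
  have m4 : b ∉ ({p, q, r, s} : Finset V) := by simp [hbp, hbq, hbr, hbs]
  have m5 : a ∉ ({b, p, q, r, s} : Finset V) := by simp [hab, hap, haq, har, has]
  have h := H.clsum hv hd (S := {a, b, p, q, r, s}) (by
    intro u hu
    simp only [mem_insert, mem_singleton] at hu
    rcases hu with rfl | rfl | rfl | rfl | rfl | rfl <;> assumption)
  rw [Finset.sum_insert m5, Finset.sum_insert m4, Finset.sum_insert m3, Finset.sum_insert m2,
    Finset.sum_insert m1, Finset.sum_singleton, Finset.card_insert_of_notMem m5,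
    Finset.card_insert_of_notMem m4, Finset.card_insert_of_notMem m3,
    Finset.card_insert_of_notMem m2, Finset.card_insert_of_notMem m1,
    Finset.card_singleton] at h
  omega

/-- no missing triangle with a disjoint missing pair -/
theorem MC.no32 {a b p q r : V} (ha : a ∈ cl G X v) (hb : b ∈ cl G X v) (hp : p ∈ cl G X v)
    (hq : q ∈ cl G X v) (hr : r ∈ cl G X v)
    (hab : a ≠ b) (hap : a ≠ p) (haq : a ≠ q) (har : a ≠ r) (hbp : b ≠ p)
    (hbq : b ≠ q) (hbr : b ≠ r) (hpq : p ≠ q) (hpr : p ≠ r)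
    (hqr : q ≠ r) (n1 : ¬ G.Adj a b) (n2 : ¬ G.Adj p q)
    (n3 : ¬ G.Adj p r) (n4 : ¬ G.Adj q r) : False := by
  have hk := H.hk
  have e1 := H.clpair hv hd ha hb hab n1
  have e2' := H.cltri hv hd hp hq hr hpq hpr hqr n2 n3 n4
  have m2 : q ∉ ({r} : Finset V) := by simp [hqr]
  have m3 : p ∉ ({q, r} : Finset V) := by simp [hpq, hpr]
  have m4 : b ∉ ({p, q, r} : Finset V) := by simp [hbp, hbq, hbr]
  have m5 : a ∉ ({b, p, q, r} : Finset V) := by simp [hab, hap, haq, har]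
  have h := H.clsum hv hd (S := {a, b, p, q, r}) (by
    intro u hu
    simp only [mem_insert, mem_singleton] at hu
    rcases hu with rfl | rfl | rfl | rfl | rfl <;> assumption)
  rw [Finset.sum_insert m5, Finset.sum_insert m4, Finset.sum_insert m3, Finset.sum_insert m2,
    Finset.sum_singleton, Finset.card_insert_of_notMem m5,
    Finset.card_insert_of_notMem m4, Finset.card_insert_of_notMem m3,
    Finset.card_insert_of_notMem m2,
    Finset.card_singleton] at h
  omega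

/-- no missing cycle of length five -/
theorem MC.no5 {a b p q r : V} (ha : a ∈ cl G X v) (hb : b ∈ cl G X v) (hp : p ∈ cl G X v)
    (hq : q ∈ cl G X v) (hr : r ∈ cl G X v)
    (hab : a ≠ b) (hap : a ≠ p) (haq : a ≠ q) (har : a ≠ r) (hbp : b ≠ p)
    (hbq : b ≠ q) (hbr : b ≠ r) (hpq : p ≠ q) (hpr : p ≠ r)
    (hqr : q ≠ r) (n1 : ¬ G.Adj a b) (n2 : ¬ G.Adj b p)
    (n3 : ¬ G.Adj p q) (n4 : ¬ G.Adj q r) (n5 : ¬ G.Adj r a) : False := by
  have hk := H.hk
  have e1 := H.clpair hv hd ha hb hab n1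
  have e2' := H.clpair hv hd hb hp hbp n2
  have e3 := H.clpair hv hd hp hq hpq n3
  have e4 := H.clpair hv hd hq hr hqr n4
  have e5 := H.clpair hv hd hr ha (Ne.symm har) n5
  have m2 : q ∉ ({r} : Finset V) := by simp [hqr]
  have m3 : p ∉ ({q, r} : Finset V) := by simp [hpq, hpr]
  have m4 : b ∉ ({p, q, r} : Finset V) := by simp [hbp, hbq, hbr]
  have m5 : a ∉ ({b, p, q, r} : Finset V) := by simp [hab, hap, haq, har]
  have h := H.clsum hv hd (S := {a, b, p, q, r}) (by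
    intro u hu
    simp only [mem_insert, mem_singleton] at hu
    rcases hu with rfl | rfl | rfl | rfl | rfl <;> assumption)
  rw [Finset.sum_insert m5, Finset.sum_insert m4, Finset.sum_insert m3, Finset.sum_insert m2,
    Finset.sum_singleton, Finset.card_insert_of_notMem m5,
    Finset.card_insert_of_notMem m4, Finset.card_insert_of_notMem m3,
    Finset.card_insert_of_notMem m2,
    Finset.card_singleton] at h
  omega

/-- a missing pair that leaves a set of at most four vertices -/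
theorem MC.leave {C : Finset V} (hC : C ⊆ cl G X v) (hCc : C.card ≤ 4)
    (h0 : ∀ x ∈ cl G X v, ∀ y ∈ cl G X v, x ∉ C → y ∉ C → x ≠ y → G.Adj x y) :
    ∃ x ∈ C, ∃ z ∈ cl G X v, z ∉ C ∧ ¬ G.Adj x z := by
  have hk := H.hk
  by_contra hcon
  push Not at hcon
  have hF : cl G X v ⊆ X := cl_sub hv
  have hFc : (cl G X v).card = k + 1 := by rw [card_cl, hd]
  have hsl := H.sl1 hF hFc
  have h1 : ∀ u ∈ cl G X v, (nb Gᶜ (cl G X v) u).card ≤ if u ∈ C then 3 else 0 := by
    intro u hu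
    split_ifs with hu'
    · have h2 : nb Gᶜ (cl G X v) u ⊆ C.erase u := by
        intro w hw
        have hw1 := mem_nb.1 hw
        have hw2 := (SimpleGraph.compl_adj _ _ _).1 hw1.2
        refine mem_erase.2 ⟨Ne.symm hw2.1, ?_⟩
        by_contra hwC
        exact hw2.2 (hcon u hu' w hw1.1 hwC)
      have h3 := Finset.card_le_card h2
      have h4 := Finset.card_erase_add_one hu'
      omega
    · have h2 : nb Gᶜ (cl G X v) u = ∅ := by
        rw [Finset.eq_empty_iff_forall_notMem]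
        intro w hw
        have hw1 := mem_nb.1 hw
        have hw2 := (SimpleGraph.compl_adj _ _ _).1 hw1.2
        by_cases hwC : w ∈ C
        · exact hw2.2 (hcon w hwC u hu hu').symm
        · exact hw2.2 (h0 u hu w hw1.1 hu' hwC hw2.1)
      rw [h2]
      simp
  have h2 : e2 Gᶜ (cl G X v) ≤ ∑ u ∈ cl G X v, if u ∈ C then 3 else 0 := by
    rw [e2_eq]
    exact Finset.sum_le_sum h1
  rw [Finset.sum_ite_mem, Finset.inter_eq_right.2 hC, Finset.sum_const, smul_eq_mul] at h2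
  omega

/-- four vertices of two disjoint missing pairs and a fifth vertex -/
theorem MC.cl4 {p q r s z : V} (hp : p ∈ cl G X v) (hq : q ∈ cl G X v) (hr : r ∈ cl G X v)
    (hs : s ∈ cl G X v) (hz : z ∈ cl G X v) (hpq : p ≠ q) (hpr : p ≠ r) (hps : p ≠ s)
    (hqr : q ≠ r) (hqs : q ≠ s) (hrs : r ≠ s) (hzp : z ≠ p) (hzq : z ≠ q) (hzr : z ≠ r)
    (hzs : z ≠ s) (n1 : ¬ G.Adj p q) (n2 : ¬ G.Adj r s) (n3 : ¬ G.Adj p z) :
    ∃ b ∈ (cl G X v).erase p, Clq G (((cl G X v).erase p).erase b) := by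
  have hFX : cl G X v ⊆ X := cl_sub hv
  have hFc : (cl G X v).card = k + 1 := by rw [card_cl, hd]
  have hno3 := fun {a b p q r s : V} => H.no3 hv hd (a := a) (b := b) (p := p) (q := q)
    (r := r) (s := s)
  have hno32 := fun {a b p q r : V} => H.no32 hv hd (a := a) (b := b) (p := p) (q := q)
    (r := r)
  have hno5 := fun {a b p q r : V} => H.no5 hv hd (a := a) (b := b) (p := p) (q := q)
    (r := r)
  obtain ⟨F, hF⟩ : ∃ F, F = cl G X v := ⟨_, rfl⟩
  rw [← hF] at hp hq hr hs hz hFX hFc ⊢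
  simp only [← hF] at hno3 hno32 hno5
  refine exists_center (G := G) ?_ ?_ ?_
  · intro h
    have h1 := H.clq_lt ((Finset.erase_subset p F).trans hFX) h
    have h2 := Finset.card_erase_add_one hp
    omega
  · -- two disjoint missing pairs
    have key : ∀ {x1 y1 x2 y2 : V}, x1 ∈ F → y1 ∈ F → x2 ∈ F → y2 ∈ F → x1 ≠ p → y1 ≠ p →
        x2 ≠ p → y2 ≠ p → x1 ≠ y1 → x1 ≠ x2 → x1 ≠ y2 → y1 ≠ x2 → y1 ≠ y2 → x2 ≠ y2 →
        ¬ G.Adj x1 y1 → ¬ G.Adj x2 y2 → (x1 = q ∨ y1 = q) → False := by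
      have key2 : ∀ {y1 x2 y2 : V}, y1 ∈ F → x2 ∈ F → y2 ∈ F → y1 ≠ p →
          x2 ≠ p → y2 ≠ p → q ≠ y1 → q ≠ x2 → q ≠ y2 → y1 ≠ x2 → y1 ≠ y2 → x2 ≠ y2 →
          ¬ G.Adj q y1 → ¬ G.Adj x2 y2 → False := by
        intro y1 x2 y2 hy1 hx2 hy2 a1 a2 a3 a4 a5 a6 a7 a8 a9 b1 b2
        by_cases c1 : y1 = z
        · subst c1
          exact hno32 hx2 hy2 hp hq hy1 a9 a2 (Ne.symm a5) (Ne.symm a7) a3 (Ne.symm a6)
            (Ne.symm a8) hpq (Ne.symm a1) a4 b2 n1 n3 b1
        -- `z` belongs to the second pair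
        have key3 : ∀ {w : V}, w ∈ F → w ≠ p → q ≠ w → y1 ≠ w → z ≠ w →
            ¬ G.Adj z w → False := by
          intro w hw d1 d2 d3 d4 d5
          by_cases e1 : y1 = r
          · subst e1
            by_cases e2' : w = s
            · subst e2'
              exact hno5 hp hq hy1 hs hz hpq (Ne.symm a1) (Ne.symm d1) (Ne.symm hzp) a4 d2
                (Ne.symm hzq) d3 (Ne.symm hzr) (Ne.symm d4) n1 b1 n2
                (fun h => d5 h.symm) (fun h => n3 h.symm)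
            · exact hno3 hp hq hz hw hy1 hs hpq (Ne.symm hzp) (Ne.symm d1) (Ne.symm a1) hps
                (Ne.symm hzq) d2 a4 hqs d4 hzr hzs (Ne.symm d3) e2' hrs n1 d5 n2
          by_cases e2' : y1 = s
          · subst e2'
            by_cases e3 : w = r
            · subst e3
              exact hno5 hp hq hy1 hr hz hpq (Ne.symm a1) (Ne.symm d1) (Ne.symm hzp) a4 d2
                (Ne.symm hzq) d3 (Ne.symm hzs) (Ne.symm d4) n1 b1 (fun h => n2 h.symm)
                (fun h => d5 h.symm) (fun h => n3 h.symm)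
            · exact hno3 hp hq hz hw hr hy1 hpq (Ne.symm hzp) (Ne.symm d1) hpr (Ne.symm a1)
                (Ne.symm hzq) d2 hqr a4 d4 hzr hzs e3 (Ne.symm d3) hrs n1 d5 n2
          · exact hno3 hp hz hq hy1 hr hs (Ne.symm hzp) hpq (Ne.symm a1) hpr hps hzq
              (Ne.symm c1) hzr hzs a4 hqr hqs e1 e2' hrs n3 b1 n2
        by_cases c2 : x2 = z
        · subst c2
          exact key3 hy2 a3 a6 a8 a9 b2
        by_cases c3 : y2 = z
        · subst c3
          exact key3 hx2 a2 a5 a7 (Ne.symm a9) (fun h => b2 h.symm)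
        exact hno3 hp hz hq hy1 hx2 hy2 (Ne.symm hzp) hpq (Ne.symm a1) (Ne.symm a2)
          (Ne.symm a3) hzq (Ne.symm c1) (Ne.symm c2) (Ne.symm c3) a4 a5 a6 a7 a8 a9 n3 b1 b2
      intro x1 y1 x2 y2 hx1 hy1 hx2 hy2 a1 a2 a3 a4 a5 a6 a7 a8 a9 a10 b1 b2 h
      rcases h with h | h
      · subst h
        exact key2 hy1 hx2 hy2 a2 a3 a4 a5 a6 a7 a8 a9 a10 b1 b2
      · subst h
        exact key2 hx1 hx2 hy2 a1 a3 a4 (Ne.symm a5) a8 a9 a6 a7 a10 (fun h => b1 h.symm) b2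
    intro x1 hx1 y1 hy1 x2 hx2 y2 hy2 a5 a6 a7 a8 a9 a10 b1 b2
    obtain ⟨hx1', hx1⟩ := mem_erase.1 hx1
    obtain ⟨hy1', hy1⟩ := mem_erase.1 hy1
    obtain ⟨hx2', hx2⟩ := mem_erase.1 hx2
    obtain ⟨hy2', hy2⟩ := mem_erase.1 hy2
    by_cases c1 : x1 = q ∨ y1 = q
    · exact key hx1 hy1 hx2 hy2 hx1' hy1' hx2' hy2' a5 a6 a7 a8 a9 a10 b1 b2 c1
    by_cases c2 : x2 = q ∨ y2 = q
    · exact key hx2 hy2 hx1 hy1 hx2' hy2' hx1' hy1' a10 (Ne.symm a6) (Ne.symm a8)
        (Ne.symm a7) (Ne.symm a9) a5 b2 b1 c2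
    push Not at c1 c2
    exact hno3 hp hq hx1 hy1 hx2 hy2 hpq (Ne.symm hx1') (Ne.symm hy1') (Ne.symm hx2')
      (Ne.symm hy2') (Ne.symm c1.1) (Ne.symm c1.2) (Ne.symm c2.1) (Ne.symm c2.2) a5 a6 a7 a8
      a9 a10 n1 b1 b2
  · -- a missing triangle
    have key : ∀ {t : V}, t ∈ F → t ≠ p → q ≠ t → z ≠ t → ¬ G.Adj q z → False := by
      intro t ht d1 d2 d3 d4
      exact hno32 hr hs hp hq hz hrs (Ne.symm hpr) (Ne.symm hqr) (Ne.symm hzr) (Ne.symm hps)
        (Ne.symm hqs) (Ne.symm hzs) hpq (Ne.symm hzp) (Ne.symm hzq) n2 n1 n3 d4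
    intro x hx y hy w hw a1 a2 a3 b1 b2 b3
    obtain ⟨hx', hx⟩ := mem_erase.1 hx
    obtain ⟨hy', hy⟩ := mem_erase.1 hy
    obtain ⟨hw', hw⟩ := mem_erase.1 hw
    by_cases c1 : x = q
    · subst c1
      by_cases c2 : y = z
      · subst c2
        exact key hw hw' a2 a3 b1
      by_cases c3 : w = z
      · subst c3
        exact key hy hy' a1 (Ne.symm a3) b2
      exact hno32 hp hz hx hy hw (Ne.symm hzp) (Ne.symm hx') (Ne.symm hy') (Ne.symm hw') hzq
        (Ne.symm c2) (Ne.symm c3) a1 a2 a3 n3 b1 b2 b3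
    by_cases c1' : y = q
    · subst c1'
      by_cases c2 : x = z
      · subst c2
        exact key hw hw' a3 a2 (fun h => b1 h.symm)
      by_cases c3 : w = z
      · subst c3
        exact key hx hx' (Ne.symm a1) (Ne.symm a2) b3
      exact hno32 hp hz hx hy hw (Ne.symm hzp) (Ne.symm hx') (Ne.symm hy') (Ne.symm hw')
        (Ne.symm c2) hzq (Ne.symm c3) a1 a2 a3 n3 b1 b2 b3
    by_cases c1'' : w = q
    · subst c1''
      by_cases c2 : x = z
      · subst c2
        exact key hy hy' (Ne.symm a3) a1 (fun h => b2 h.symm)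
      by_cases c3 : y = z
      · subst c3
        exact key hx hx' (Ne.symm a2) (Ne.symm a1) (fun h => b3 h.symm)
      exact hno32 hp hz hx hy hw (Ne.symm hzp) (Ne.symm hx') (Ne.symm hy') (Ne.symm hw')
        (Ne.symm c2) (Ne.symm c3) hzq a1 a2 a3 n3 b1 b2 b3
    exact hno32 hp hq hx hy hw hpq (Ne.symm hx') (Ne.symm hy') (Ne.symm hw')
      (Ne.symm c1) (Ne.symm c1') (Ne.symm c1'') a1 a2 a3 n1 b1 b2 b3

/-- two vertices cover all missing pairs -/
theorem MC.cover2 : ∃ a ∈ cl G X v, ∃ b ∈ (cl G X v).erase a,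
    Clq G (((cl G X v).erase a).erase b) := by
  have hk := H.hk
  have hFX : cl G X v ⊆ X := cl_sub hv
  have hFc : (cl G X v).card = k + 1 := by rw [card_cl, hd]
  have hsl := H.sl1 hFX hFc
  obtain ⟨p, hp, q, hq, hpq, n1⟩ := exists_miss (G := G) (S := cl G X v) (by omega)
  by_cases hex : ∃ r ∈ cl G X v, ∃ s ∈ cl G X v, r ≠ p ∧ r ≠ q ∧ s ≠ p ∧ s ≠ q ∧ r ≠ s ∧
      ¬ G.Adj r s
  · obtain ⟨r, hr, s, hs, hrp, hrq, hsp, hsq, hrs, n2⟩ := hex
    have hno3 := fun {a b : V} => H.no3 hv hd (a := a) (b := b) (p := p) (q := q)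
      (r := r) (s := s)
    obtain ⟨x, hx, z, hz, hzC, n3⟩ := H.leave hv hd (C := {p, q, r, s}) (by
      intro u hu
      simp only [mem_insert, mem_singleton] at hu
      rcases hu with rfl | rfl | rfl | rfl <;> assumption) Finset.card_le_four (by
      intro x hx y hy hxC hyC hxy
      simp only [mem_insert, mem_singleton, not_or] at hxC hyC
      by_contra hn
      exact hno3 hx hy hp hq hr hs hxy hxC.1 hxC.2.1 hxC.2.2.1 hxC.2.2.2 hyC.1 hyC.2.1
        hyC.2.2.1 hyC.2.2.2 hpq (Ne.symm hrp) (Ne.symm hsp) (Ne.symm hrq) (Ne.symm hsq) hrs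
        hn n1 n2)
    simp only [mem_insert, mem_singleton, not_or] at hx hzC
    obtain ⟨z1, z2, z3, z4⟩ := hzC
    rcases hx with hx | hx | hx | hx
    · rw [hx] at n3
      exact ⟨p, hp, H.cl4 hv hd hp hq hr hs hz hpq (Ne.symm hrp) (Ne.symm hsp) (Ne.symm hrq)
        (Ne.symm hsq) hrs z1 z2 z3 z4 n1 n2 n3⟩
    · rw [hx] at n3
      exact ⟨q, hq, H.cl4 hv hd hq hp hr hs hz (Ne.symm hpq) (Ne.symm hrq) (Ne.symm hsq)
        (Ne.symm hrp) (Ne.symm hsp) hrs z2 z1 z3 z4 (fun h => n1 h.symm) n2 n3⟩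
    · rw [hx] at n3
      exact ⟨r, hr, H.cl4 hv hd hr hs hp hq hz hrs hrp hrq hsp hsq hpq z3 z4 z1 z2 n2 n1 n3⟩
    · rw [hx] at n3
      exact ⟨s, hs, H.cl4 hv hd hs hr hp hq hz (Ne.symm hrs) hsp hsq hrp hrq hpq z4 z3 z1 z2
        (fun h => n2 h.symm) n1 n3⟩
  · push Not at hex
    refine ⟨p, hp, exists_center (G := G) ?_ ?_ ?_⟩
    · intro h
      have h1 := H.clq_lt ((Finset.erase_subset p _).trans hFX) h
      have h2 := Finset.card_erase_add_one hp
      omega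
    · intro x1 hx1 y1 hy1 x2 hx2 y2 hy2 a5 a6 a7 a8 a9 a10 b1 b2
      obtain ⟨hx1', hx1⟩ := mem_erase.1 hx1
      obtain ⟨hy1', hy1⟩ := mem_erase.1 hy1
      obtain ⟨hx2', hx2⟩ := mem_erase.1 hx2
      obtain ⟨hy2', hy2⟩ := mem_erase.1 hy2
      by_cases c1 : x1 = q
      · exact b2 (hex x2 hx2 y2 hy2 hx2' (c1 ▸ Ne.symm a6) hy2' (c1 ▸ Ne.symm a7) a10)
      by_cases c2 : y1 = q
      · exact b2 (hex x2 hx2 y2 hy2 hx2' (c2 ▸ Ne.symm a8) hy2' (c2 ▸ Ne.symm a9) a10)
      exact b1 (hex x1 hx1 y1 hy1 hx1' c1 hy1' c2 a5)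
    · intro x hx y hy w hw a1 a2 a3 b1 b2 b3
      obtain ⟨hx', hx⟩ := mem_erase.1 hx
      obtain ⟨hy', hy⟩ := mem_erase.1 hy
      obtain ⟨hw', hw⟩ := mem_erase.1 hw
      by_cases c1 : x = q
      · exact b3 (hex y hy w hw hy' (c1 ▸ Ne.symm a1) hw' (c1 ▸ Ne.symm a2) a3)
      by_cases c2 : y = q
      · exact b2 (hex x hx w hw hx' c1 hw' (c2 ▸ Ne.symm a3) a2)
      exact b1 (hex x hx y hy hx' c1 hy' c2 a1)

theorem MC.base_at : ∃ P x x', Base G k X P v x x' := by
  have hk := H.hk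
  obtain ⟨a, ha, r, hr, hcl⟩ := H.cover2 hv hd
  obtain ⟨F, hF⟩ : ∃ F, F = cl G X v := ⟨_, rfl⟩
  have hFX : F ⊆ X := by rw [hF]; exact cl_sub hv
  have hFc : F.card = k + 1 := by rw [hF, card_cl, hd]
  have hmF : ∀ {w : V}, w ∈ F ↔ w = v ∨ (w ∈ X ∧ G.Adj v w) := by
    intro w
    rw [hF]
    unfold cl
    rw [mem_insert, mem_nb]
  rw [← hF] at ha hr hcl
  have hvF : v ∈ F := hmF.2 (Or.inl rfl)
  obtain ⟨hra, hrF⟩ := mem_erase.1 hr
  -- no vertex of the cover is `v`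
  have key : ∀ {a r : V}, a ∈ F → r ∈ F → r ≠ a → Clq G ((F.erase a).erase r) → v ≠ a := by
    intro a r ha hrF hra hcl e
    have hq : Clq G (F.erase r) := by
      intro p hp q hq hpq
      have hp' := mem_erase.1 hp
      have hq' := mem_erase.1 hq
      by_cases h1 : p = v
      · rcases hmF.1 hq'.2 with h | h
        · exact absurd (h1.trans h.symm) hpq
        · exact h1 ▸ h.2
      by_cases h2 : q = v
      · rcases hmF.1 hp'.2 with h | h
        · exact absurd h h1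
        · exact (h2 ▸ h.2).symm
      exact hcl p (mem_erase.2 ⟨hp'.1, mem_erase.2 ⟨fun e' => h1 (e'.trans e.symm), hp'.2⟩⟩) q
        (mem_erase.2 ⟨hq'.1, mem_erase.2 ⟨fun e' => h2 (e'.trans e.symm), hq'.2⟩⟩) hpq
    have h3 := H.clq_lt ((Finset.erase_subset r F).trans hFX) hq
    have h4 := Finset.card_erase_add_one hrF
    omega
  have hva : v ≠ a := key ha hrF hra hcl
  have hvr : v ≠ r := key hrF ha (Ne.symm hra) (by
    rw [Finset.erase_right_comm]
    exact hcl)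
  have h5 := Finset.card_erase_add_one hr
  have h6 := Finset.card_erase_add_one ha
  refine ⟨(F.erase a).erase r, a, r, ?_⟩
  refine ⟨(Finset.erase_subset _ _).trans ((Finset.erase_subset _ _).trans hFX), by omega,
    hcl, ?_, Ne.symm hra, ?_⟩
  · exact mem_erase.2 ⟨hvr, mem_erase.2 ⟨hva, hvF⟩⟩
  · ext w
    rw [mem_nb, mem_sdiff, mem_erase, mem_erase, mem_insert, mem_singleton]
    constructor
    · rintro ⟨⟨h1, h2⟩, h3⟩
      have h4 : w ∈ F := hmF.2 (Or.inr ⟨h1, h3⟩)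
      by_cases e1 : w = a
      · exact Or.inl e1
      · by_cases e2' : w = r
        · exact Or.inr e2'
        · exact absurd ⟨e2', e1, h4⟩ h2
    · rintro (h | h)
      · rw [h]
        refine ⟨⟨hFX ha, fun h => h.2.1 rfl⟩, ?_⟩
        rcases hmF.1 ha with h' | h'
        · exact absurd h'.symm hva
        · exact h'.2
      · rw [h]
        refine ⟨⟨hFX hrF, fun h => h.1 rfl⟩, ?_⟩
        rcases hmF.1 hrF with h' | h'
        · exact absurd h'.symm hvr
        · exact h'.2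

end nbh

theorem MC.exists_base {k : ℕ} {X : Finset V} (H : MC G k X) :
    ∃ P c x x', Base G k X P c x x' := by
  obtain ⟨v, hv, hd⟩ := H.exists_deg
  obtain ⟨P, x, x', B⟩ := H.base_at hv hd
  exact ⟨P, v, x, x', B⟩

end Pool.Agent.TwoDens.TK
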