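import Pool.Agent.TKE.Deg

/-!
First consequences of the minimality: sizes of closed sets, missing pairs, partitions,
transversals of proper subsets.
-/

open Finset

namespace Pool.Agent.TwoDens.TK

open Pool.Agent.TwoDens Pool.Agent.TwoDens.RK Pool.Agent.TwoDens.DD

variable {V : Type*} [DecidableEq V] {G : SimpleGraph V} [DecidableRel G.Adj]

theorem e2_le (S : Finset V) : e2 G S + S.card ≤ S.card * S.card := by
  have := e2_add_compl (G := G) S
  omega

theorem e2_union_ge {A B : Finset V} (hd : Disjoint A B) : e2 G A + e2 G B ≤ e2 G (A ∪ B) := by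
  rw [e2_eq, e2_eq, e2_eq, Finset.sum_union hd]
  refine add_le_add ?_ ?_
  · exact Finset.sum_le_sum fun v _ => Finset.card_le_card
      (Finset.filter_subset_filter _ Finset.subset_union_left)
  · exact Finset.sum_le_sum fun v _ => Finset.card_le_card
      (Finset.filter_subset_filter _ Finset.subset_union_right)

omit [DecidableEq V] in
theorem kappa_nonneg {k : ℕ} (hk : 20 ≤ k) : (0 : ℤ) ≤ 3 * (k : ℤ) ^ 2 - 3 * k + 2 := by
  have : (20 : ℤ) ≤ k := by exact_mod_cast hk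
  nlinarith

omit [DecidableEq V] in
theorem nb_mono {X Y : Finset V} (h : X ⊆ Y) (v : V) : nb G X v ⊆ nb G Y v :=
  Finset.filter_subset_filter _ h

omit [DecidableEq V] in
theorem nb_sub (X : Finset V) (v : V) : nb G X v ⊆ X := Finset.filter_subset _ _

section
variable {k : ℕ} {X : Finset V} (H : MC G k X)
include H

/-- (1.1) -/
theorem MC.exbd {S : Finset V} (hS : S ⊆ X) (hn : S.Nonempty) {j : ℕ}
    (hj : al G (X \ S) + j ≤ al G X) :
    (exs G k X S : ℤ) + bd G X S + (3 * (k : ℤ) ^ 2 - 3 * k + 2) * j + 2 ≤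
      (3 * (k : ℤ) - 2) * S.card := by
  have h1 := H.gen (Finset.Subset.refl X) hS (Or.inr hn) hj
  have h2 := sum_deg' (G := G) hS
  have h3 := sum_ge (G := G) (Y := X) (S := S) k (fun v hv => H.deg_ge v (hS hv))
  have h8 : ((∑ v ∈ S, (nb G X v).card : ℕ) : ℤ) = e2 G S + bd G X S := by exact_mod_cast h2
  have h9 : ((∑ v ∈ S, (nb G X v).card : ℕ) : ℤ) = k * S.card + exs G k X S := by
    exact_mod_cast h3
  have h10 := H.ps_le
  linarith

theorem MC.sparse_bd {S : Finset V} (hS : S ⊆ X) (h3 : 3 ≤ S.card) :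
    exs G k X S + 2 * k + 1 ≤ bd G X S + S.card := by
  have h1 := H.hS S hS h3
  have h2 := sum_deg' (G := G) hS
  have h4 := sum_ge (G := G) (Y := X) (S := S) k (fun v hv => H.deg_ge v (hS hv))
  have h5 : (k + 1) * S.card = k * S.card + S.card := by ring
  omega

theorem MC.closed1 {S : Finset V} (hS : S ⊆ X) (hj : al G (X \ S) + 1 ≤ al G X) :
    k + 1 ≤ S.card := by
  have hk := H.hk
  have hn : S.Nonempty := by
    rw [Finset.nonempty_iff_ne_empty]
    rintro rfl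
    rw [Finset.sdiff_empty] at hj
    omega
  have h1 := H.exbd hS hn (j := 1) hj
  have hk' : (20 : ℤ) ≤ k := by exact_mod_cast hk
  by_contra hcon
  push Not at hcon
  have h2 : (S.card : ℤ) ≤ k := by exact_mod_cast (by omega : S.card ≤ k)
  have h5 : (0 : ℤ) ≤ exs G k X S := Int.natCast_nonneg _
  have h6 : (0 : ℤ) ≤ bd G X S := Int.natCast_nonneg _
  push_cast at h1
  rcases Nat.lt_or_ge S.card 3 with h3 | h3
  · have h4 : (S.card : ℤ) ≤ 2 := by exact_mod_cast (by omega : S.card ≤ 2)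
    nlinarith
  · have h4 := H.sparse_bd hS h3
    have h7 : (exs G k X S : ℤ) + 2 * k + 1 ≤ bd G X S + S.card := by exact_mod_cast h4
    nlinarith

theorem MC.closed2 {S : Finset V} (hS : S ⊆ X) (hj : al G (X \ S) + 2 ≤ al G X) :
    2 * k ≤ S.card := by
  have hk := H.hk
  have hn : S.Nonempty := by
    rw [Finset.nonempty_iff_ne_empty]
    rintro rfl
    rw [Finset.sdiff_empty] at hj
    omega
  have h1 := H.exbd hS hn (j := 2) hj
  have hk' : (20 : ℤ) ≤ k := by exact_mod_cast hk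
  by_contra hcon
  push Not at hcon
  have h2 : (S.card : ℤ) ≤ 2 * k - 1 := by
    have : (S.card : ℤ) + 1 ≤ 2 * k := by exact_mod_cast hcon
    linarith
  have h5 : (0 : ℤ) ≤ exs G k X S := Int.natCast_nonneg _
  have h6 : (0 : ℤ) ≤ bd G X S := Int.natCast_nonneg _
  push_cast at h1
  nlinarith

theorem MC.closed3 {S : Finset V} (hS : S ⊆ X) (hj : al G (X \ S) + 3 ≤ al G X) :
    3 * k ≤ S.card := by
  have hk := H.hk
  have hn : S.Nonempty := by
    rw [Finset.nonempty_iff_ne_empty]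
    rintro rfl
    rw [Finset.sdiff_empty] at hj
    omega
  have h1 := H.exbd hS hn (j := 3) hj
  have hk' : (20 : ℤ) ≤ k := by exact_mod_cast hk
  by_contra hcon
  push Not at hcon
  have h2 : (S.card : ℤ) ≤ 3 * k - 1 := by
    have : (S.card : ℤ) + 1 ≤ 3 * k := by exact_mod_cast hcon
    linarith
  have h5 : (0 : ℤ) ≤ exs G k X S := Int.natCast_nonneg _
  have h6 : (0 : ℤ) ≤ bd G X S := Int.natCast_nonneg _
  push_cast at h1
  nlinarith

/-- a set of `k + 1` vertices has at least `k / 2` missing pairs -/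
theorem MC.sl1 {F : Finset V} (hF : F ⊆ X) (hc : F.card = k + 1) : k ≤ e2 Gᶜ F := by
  have hk := H.hk
  have h1 := H.hS F hF (by omega)
  have h2 := e2_add_compl (G := G) F
  rw [hc] at h1 h2
  have h3 : (k + 1) * (k + 1) = k * k + 2 * k + 1 := by ring
  omega

theorem MC.clq_lt {S : Finset V} (hS : S ⊆ X) (hq : Clq G S) : S.card + 1 ≤ k := by
  have hk := H.hk
  have h1 : m2 G S = 0 := by
    rw [← e2_compl]
    have h2 := clq_e2 (G := G) hq
    have h3 := e2_add_compl (G := G) S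
    omega
  have := H.hS.clique_lt G (by omega) hS h1
  omega

/-- partitions -/
theorem MC.p1 {A B : Finset V} (hAB : A ∪ B = X) (hd : Disjoint A B) (hA : A.Nonempty)
    (hB : B.Nonempty) : al G X + 1 ≤ al G A + al G B := by
  by_contra hcon
  push Not at hcon
  have h1 : al G A + al G B ≤ al G X := by omega
  have hAX : A ⊆ X := hAB ▸ Finset.subset_union_left
  have hBX : B ⊆ X := hAB ▸ Finset.subset_union_right
  have hA' : A ≠ X := by
    intro h
    obtain ⟨b, hb⟩ := hB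
    exact (Finset.disjoint_left.1 hd) (h ▸ hBX hb) hb
  have hB' : B ≠ X := by
    intro h
    obtain ⟨b, hb⟩ := hA
    exact (Finset.disjoint_left.1 hd) hb (h ▸ hAX hb)
  have h2 := H.hmin A hAX hA'
  have h3 := H.hmin B hBX hB'
  have h4 := H.hneg
  have h5 : (X.card : ℤ) = A.card + B.card := by
    rw [← hAB]
    exact_mod_cast Finset.card_union_of_disjoint hd
  have h6 : (e2 G A : ℤ) + e2 G B ≤ e2 G X := by
    rw [← hAB]
    exact_mod_cast e2_union_ge hd
  have h7 : (al G A : ℤ) + al G B ≤ al G X := by exact_mod_cast h1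
  have h8 := mul_le_mul_of_nonneg_left h7 (kappa_nonneg H.hk)
  unfold ps at h2 h3 h4
  rw [h5] at h4
  linarith

/-- two cliques of size `k - 1` -/
theorem MC.clq_inter {A B : Finset V} (hA : A ⊆ X) (hB : B ⊆ X) (hAc : A.card + 1 = k)
    (hBc : B.card + 1 = k) (hAq : Clq G A) (hBq : Clq G B) :
    (A ∩ B).card ≤ 4 ∨ k ≤ (A ∩ B).card + 2 := by
  by_contra hcon
  push Not at hcon
  have hk := H.hk
  obtain ⟨h1, h2⟩ := hcon
  have h3 := Finset.card_union_add_card_inter A B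
  have h4 := H.hS (A ∪ B) (Finset.union_subset hA hB) (by omega)
  have h5 : e2 G A + e2 G B ≤ e2 G (A ∪ B) + e2 G (A ∩ B) := by
    have h6 : ∑ v ∈ A, (nb G A v).card + ∑ v ∈ B, (nb G B v).card ≤
        ∑ v ∈ A ∪ B, (nb G (A ∪ B) v).card + ∑ v ∈ A ∩ B, (nb G (A ∩ B) v).card := by
      have h7 : ∀ f : V → ℕ, ∑ v ∈ A ∪ B, f v = ∑ v ∈ A \ B, f v + ∑ v ∈ B \ A, f v +
          ∑ v ∈ A ∩ B, f v := by
        intro f
        have h8 : ∑ v ∈ A ∪ B, f v + ∑ v ∈ A ∩ B, f v = ∑ v ∈ A, f v + ∑ v ∈ B, f v :=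
          Finset.sum_union_inter
        have h9 : ∑ v ∈ A, f v = ∑ v ∈ A \ B, f v + ∑ v ∈ A ∩ B, f v := by
          rw [← Finset.sum_union]
          · rw [Finset.sdiff_union_inter]
          · exact Finset.disjoint_sdiff_inter A B
        have h10 : ∑ v ∈ B, f v = ∑ v ∈ B \ A, f v + ∑ v ∈ A ∩ B, f v := by
          rw [Finset.inter_comm A B, ← Finset.sum_union]
          · rw [Finset.sdiff_union_inter]
          · exact Finset.disjoint_sdiff_inter B A
        omega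
      have h11 : ∀ f : V → ℕ, ∑ v ∈ A, f v = ∑ v ∈ A \ B, f v + ∑ v ∈ A ∩ B, f v := by
        intro f
        rw [← Finset.sum_union]
        · rw [Finset.sdiff_union_inter]
        · exact Finset.disjoint_sdiff_inter A B
      have h12 : ∀ f : V → ℕ, ∑ v ∈ B, f v = ∑ v ∈ B \ A, f v + ∑ v ∈ A ∩ B, f v := by
        intro f
        rw [Finset.inter_comm A B, ← Finset.sum_union]
        · rw [Finset.sdiff_union_inter]
        · exact Finset.disjoint_sdiff_inter B A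
      rw [h7, h11, h12]
      have h13 : ∑ v ∈ A \ B, (nb G A v).card ≤ ∑ v ∈ A \ B, (nb G (A ∪ B) v).card :=
        Finset.sum_le_sum fun v _ => Finset.card_le_card (nb_mono Finset.subset_union_left v)
      have h14 : ∑ v ∈ B \ A, (nb G B v).card ≤ ∑ v ∈ B \ A, (nb G (A ∪ B) v).card :=
        Finset.sum_le_sum fun v _ => Finset.card_le_card (nb_mono Finset.subset_union_right v)
      have h15 : ∑ v ∈ A ∩ B, (nb G A v).card + ∑ v ∈ A ∩ B, (nb G B v).card =
          ∑ v ∈ A ∩ B, (nb G (A ∪ B) v).card + ∑ v ∈ A ∩ B, (nb G (A ∩ B) v).card := by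
        rw [← Finset.sum_add_distrib, ← Finset.sum_add_distrib]
        refine Finset.sum_congr rfl fun v _ => ?_
        have h16 : nb G (A ∪ B) v = nb G A v ∪ nb G B v := Finset.filter_union _ _ _
        have h17 : nb G (A ∩ B) v = nb G A v ∩ nb G B v := Finset.filter_inter_distrib _ _ _
        rw [h16, h17, Finset.card_union_add_card_inter]
      omega
    exact h6
  have h6 := clq_e2 (G := G) hAq
  have h7 := clq_e2 (G := G) hBq
  have h8 := e2_le (G := G) (A ∩ B)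
  obtain ⟨j, hj⟩ : ∃ j, (A ∩ B).card = j := ⟨_, rfl⟩
  obtain ⟨n, hn⟩ : ∃ n, (A ∪ B).card = n := ⟨_, rfl⟩
  obtain ⟨m, rfl⟩ : ∃ m, k = m + 1 := ⟨k - 1, by omega⟩
  have hA1 : A.card = m := by omega
  have hB1 : B.card = m := by omega
  rw [hj] at h1 h2 h3 h8
  rw [hn] at h3 h4
  rw [hA1] at h3 h6
  rw [hB1] at h3 h7
  have g1 : (n : ℤ) = 2 * m - j := by
    have : (n : ℤ) + j = m + m := by exact_mod_cast h3
    linarith
  have g4 : (e2 G (A ∪ B) : ℤ) + 2 * (m + 1) + 1 ≤ (m + 1 + 1) * n := by exact_mod_cast h4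
  have g5 : (e2 G A : ℤ) + e2 G B ≤ e2 G (A ∪ B) + e2 G (A ∩ B) := by exact_mod_cast h5
  have g6 : (e2 G A : ℤ) + m = m * m := by exact_mod_cast h6
  have g7 : (e2 G B : ℤ) + m = m * m := by exact_mod_cast h7
  have g8 : (e2 G (A ∩ B) : ℤ) + j ≤ j * j := by exact_mod_cast h8
  have g9 : (5 : ℤ) ≤ j := by exact_mod_cast h1
  have g10 : (j : ℤ) + 2 ≤ m := by
    have : j + 2 ≤ m := by omega
    exact_mod_cast this
  have g11 : (19 : ℤ) ≤ m := by exact_mod_cast (by omega : 19 ≤ m)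
  rw [g1] at g4
  have g12 : (0 : ℤ) ≤ ((j : ℤ) - 5) * (m - 2 - j) := mul_nonneg (by linarith) (by linarith)
  nlinarith

end

section
variable {k : ℕ} {X : Finset V} (H : MC G k X) {Y : Finset V} (hY : Y ⊆ X) (hne : Y ≠ X)
include H hY hne

/-- (3.1) -/
theorem MC.tr31 {S : Finset V} (hS : S ⊆ Y) (ht : Tr G Y S) :
    2 * ((∑ v ∈ S, (nb G Y v).card : ℕ) : ℤ) + (3 * (k : ℤ) ^ 2 - 3 * k + 2) ≤
      ps G k Y + (4 * (k : ℤ) - 2) * S.card + e2 G S := by
  have h1 := H.gen hY hS (Or.inl hne) (j := 1) ht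
  rw [Nat.cast_one, mul_one] at h1
  linarith

/-- a drop of the independence number needs many vertices -/
theorem MC.drop {S : Finset V} (hS : S ⊆ Y) {j : ℕ} (hj : al G (Y \ S) + j ≤ al G Y) :
    (3 * (k : ℤ) ^ 2 - 3 * k + 2) * j ≤ ps G k Y + (4 * (k : ℤ) - 2) * S.card := by
  have h1 := H.gen hY hS (Or.inl hne) hj
  have h2 := sum_deg' (G := G) hS
  have h3 : ((∑ v ∈ S, (nb G Y v).card : ℕ) : ℤ) = e2 G S + bd G Y S := by exact_mod_cast h2
  have h5 : (0 : ℤ) ≤ e2 G S := Int.natCast_nonneg _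
  have h6 : (0 : ℤ) ≤ bd G Y S := Int.natCast_nonneg _
  linarith

/-- a lower bound for the size of a set with closed neighbourhoods in `Y` -/
theorem MC.bigY {δ : ℕ} (hδ : ∀ v ∈ Y, δ ≤ (nb G Y v).card) (hδk : δ ≤ k) {B J : Finset V}
    (hB : B ⊆ Y) (hJ : J ⊆ B) (hi : G.IsIndepSet (J : Set V)) :
    (3 * (k : ℤ) ^ 2 - 3 * k + 2) * J.card ≤
      ps G k Y + (4 * (k : ℤ) - 2 - δ) * (B.card + ((∑ z ∈ J, (nb G Y z \ B).card : ℕ) : ℤ)) := by
  set W := B ∪ J.biUnion (fun z => nb G Y z \ B) with hW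
  have hWY : W ⊆ Y := by
    refine Finset.union_subset hB ?_
    intro w hw
    rw [Finset.mem_biUnion] at hw
    obtain ⟨z, _, h⟩ := hw
    exact (mem_nb.1 (mem_sdiff.1 h).1).1
  have h0 := al_closed (G := G) (Y := Y) (S := W) (J := J) (hJ.trans hB)
    (hJ.trans Finset.subset_union_left) hi (by
    intro z hz w hwY hzw
    by_cases h : w ∈ B
    · exact mem_union_left _ h
    · exact mem_union_right _ (Finset.mem_biUnion.2 ⟨z, hz, mem_sdiff.2 ⟨mem_nb.2 ⟨hwY, hzw⟩, h⟩⟩))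
  have h1 := H.gen hY hWY (Or.inl hne) h0
  have h2 := sum_deg' (G := G) hWY
  have h3 := sum_ge (G := G) (Y := Y) (S := W) δ (fun v hv => hδ v (hWY hv))
  have h4 : W.card ≤ B.card + ∑ z ∈ J, (nb G Y z \ B).card :=
    (Finset.card_union_le _ _).trans (Nat.add_le_add_left Finset.card_biUnion_le _)
  have h5 : (W.card : ℤ) ≤ B.card + ((∑ z ∈ J, (nb G Y z \ B).card : ℕ) : ℤ) := by
    exact_mod_cast h4
  have h6 : (0 : ℤ) ≤ 4 * (k : ℤ) - 2 - δ := by
    have : (20 : ℤ) ≤ k := by exact_mod_cast H.hk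
    have : (δ : ℤ) ≤ k := by exact_mod_cast hδk
    linarith
  have h7 := mul_le_mul_of_nonneg_left h5 h6
  have h8 : ((∑ v ∈ W, (nb G Y v).card : ℕ) : ℤ) = e2 G W + bd G Y W := by exact_mod_cast h2
  have h9 : ((∑ v ∈ W, (nb G Y v).card : ℕ) : ℤ) = δ * W.card + exs G δ Y W := by
    exact_mod_cast h3
  have h10 : (0 : ℤ) ≤ bd G Y W := Int.natCast_nonneg _
  have h11 : (0 : ℤ) ≤ exs G δ Y W := Int.natCast_nonneg _
  nlinarith

omit H hY hne in
theorem tr_cl {v : V} (hv : v ∈ Y) : Tr G Y (cl G Y v) := by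
  have h1 := al_closed (G := G) (Y := Y) (S := cl G Y v) (J := {v}) (by simpa using hv)
    (by simp [cl]) (indep_singleton v) (by
      intro z hz w hw h
      rw [mem_singleton] at hz
      rw [hz] at h
      exact mem_insert_of_mem (mem_nb.2 ⟨hw, h⟩))
  rw [Finset.card_singleton] at h1
  exact h1

omit H hY hne in
theorem TauGe.deg {t : ℕ} (h : TauGe G Y t) {v : V} (hv : v ∈ Y) : t ≤ (nb G Y v).card + 1 := by
  rw [← card_cl (G := G) (X := Y) (v := v)]
  exact h _ (cl_sub hv) (tr_cl hv)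

omit H hY hne [DecidableRel G.Adj] in
theorem TauGe.mono {t t' : ℕ} (h : TauGe G Y t) (ht : t' ≤ t) : TauGe G Y t' :=
  fun S hS hT => ht.trans (h S hS hT)

/-- (3.2) -/
theorem MC.dY {δ : ℕ} (hp : ps G k Y ≤ 2 * k + 3 ∧ δ + 2 = k ∨ ps G k Y ≤ 4 * k - 4 ∧ δ + 3 = k) :
    ∀ v ∈ Y, δ ≤ (nb G Y v).card := by
  intro v0 hv0
  obtain ⟨v, hv, hm⟩ := Finset.exists_min_image Y (fun v => (nb G Y v).card) ⟨v0, hv0⟩
  refine le_trans ?_ (hm v0 hv0)
  by_contra hcon
  push Not at hcon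
  have h1 := H.tr31 hY hne (cl_sub hv) (tr_cl (G := G) hv)
  rw [card_cl] at h1
  obtain ⟨d, hd⟩ : ∃ d, (nb G Y v).card = d := ⟨_, rfl⟩
  have hk' : (20 : ℤ) ≤ k := by exact_mod_cast H.hk
  have h2 := sum_deg' (G := G) (cl_sub (G := G) hv)
  have h3 : ((∑ v ∈ cl G Y v, (nb G Y v).card : ℕ) : ℤ) = e2 G (cl G Y v) + bd G Y (cl G Y v) := by
    exact_mod_cast h2
  have h4 : d * (d + 1) ≤ ∑ u ∈ cl G Y v, (nb G Y u).card := by
    rw [mul_comm, ← hd, ← card_cl, ← smul_eq_mul, ← Finset.sum_const]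
    exact Finset.sum_le_sum fun u hu => hm u (cl_sub hv hu)
  have h5 : (d : ℤ) * (d + 1) ≤ ((∑ v ∈ cl G Y v, (nb G Y v).card : ℕ) : ℤ) := by exact_mod_cast h4
  have h6 : (0 : ℤ) ≤ bd G Y (cl G Y v) := Int.natCast_nonneg _
  obtain ⟨D, hD⟩ : ∃ D : ℕ, ∑ v ∈ cl G Y v, (nb G Y v).card = D := ⟨_, rfl⟩
  rw [hD] at h1 h3 h5
  rw [hd] at h1 hcon
  have h7 : (d : ℤ) + 1 ≤ δ := by exact_mod_cast hcon
  have h8 : (0 : ℤ) ≤ d := Int.natCast_nonneg _
  push_cast at h1
  rcases hp with ⟨hp, hδ⟩ | ⟨hp, hδ⟩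
  · have h9 : (δ : ℤ) + 2 = k := by exact_mod_cast hδ
    obtain ⟨t, ht⟩ : ∃ t : ℤ, (d : ℤ) = k - 3 - t := ⟨k - 3 - d, by ring⟩
    have ht0 : 0 ≤ t := by linarith
    rw [ht] at h1 h5
    nlinarith
  · have h9 : (δ : ℤ) + 3 = k := by exact_mod_cast hδ
    obtain ⟨t, ht⟩ : ∃ t : ℤ, (d : ℤ) = k - 4 - t := ⟨k - 4 - d, by ring⟩
    have ht0 : 0 ≤ t := by linarith
    rw [ht] at h1 h5
    nlinarith

theorem MC.tau1 (hp : ps G k Y ≤ 2 * k) : TauGe G Y (k - 1) := by
  intro S hS hT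
  by_contra hcon
  push Not at hcon
  have hk := H.hk
  have h1 := H.tr31 hY hne hS hT
  have h2 := H.dY hY hne (δ := k - 2) (Or.inl ⟨by linarith, by omega⟩)
  have h3 := sum_ge (G := G) (Y := Y) (S := S) (k - 2) (fun v hv => h2 v (hS hv))
  have h4 := e2_le (G := G) S
  obtain ⟨m, rfl⟩ : ∃ m, k = m + 2 := ⟨k - 2, by omega⟩
  obtain ⟨s, hs⟩ : ∃ s, S.card = s := ⟨_, rfl⟩
  rw [hs] at h1 h3 h4 hcon
  have h5 : ((∑ v ∈ S, (nb G Y v).card : ℕ) : ℤ) = m * s + exs G m Y S := by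
    exact_mod_cast h3
  have h6 : (e2 G S : ℤ) + s ≤ s * s := by exact_mod_cast h4
  have h7 : (0 : ℤ) ≤ exs G m Y S := Int.natCast_nonneg _
  have h8 : (s : ℤ) ≤ m := by exact_mod_cast (by omega : s ≤ m)
  have h9 : (0 : ℤ) ≤ s := Int.natCast_nonneg _
  obtain ⟨D, hD⟩ : ∃ D : ℕ, ∑ v ∈ S, (nb G Y v).card = D := ⟨_, rfl⟩
  rw [hD] at h1 h5
  push_cast at h1 hp
  nlinarith [mul_nonneg h9 (sub_nonneg.2 h8), mul_nonneg (sub_nonneg.2 h8) (Int.natCast_nonneg m)]

theorem MC.tau2 (hp : ps G k Y ≤ 4 * k - 4) : TauGe G Y (k - 2) := by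
  intro S hS hT
  by_contra hcon
  push Not at hcon
  have hk := H.hk
  have h1 := H.tr31 hY hne hS hT
  have h2 := H.dY hY hne (δ := k - 3) (Or.inr ⟨by linarith, by omega⟩)
  have h3 := sum_ge (G := G) (Y := Y) (S := S) (k - 3) (fun v hv => h2 v (hS hv))
  have h4 := e2_le (G := G) S
  obtain ⟨m, rfl⟩ : ∃ m, k = m + 3 := ⟨k - 3, by omega⟩
  obtain ⟨s, hs⟩ : ∃ s, S.card = s := ⟨_, rfl⟩
  rw [hs] at h1 h3 h4 hcon
  have h5 : ((∑ v ∈ S, (nb G Y v).card : ℕ) : ℤ) = m * s + exs G m Y S := by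
    exact_mod_cast h3
  have h6 : (e2 G S : ℤ) + s ≤ s * s := by exact_mod_cast h4
  have h7 : (0 : ℤ) ≤ exs G m Y S := Int.natCast_nonneg _
  have h8 : (s : ℤ) ≤ m := by exact_mod_cast (by omega : s ≤ m)
  have h9 : (0 : ℤ) ≤ s := Int.natCast_nonneg _
  obtain ⟨D, hD⟩ : ∃ D : ℕ, ∑ v ∈ S, (nb G Y v).card = D := ⟨_, rfl⟩
  rw [hD] at h1 h5
  push_cast at h1 hp
  nlinarith [mul_nonneg h9 (sub_nonneg.2 h8), mul_nonneg (sub_nonneg.2 h8) (Int.natCast_nonneg m)]

/-- (3.4) -/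
theorem MC.tr34 (hp : ps G k Y ≤ k) {S : Finset V} (hS : S ⊆ Y) (hc : S.card + 1 = k)
    (ht : Tr G Y S) : Clq G S ∧ 2 * (bd G Y S : ℤ) + 2 ≤ ps G k Y := by
  have hk := H.hk
  have h1 := H.tr31 hY hne hS ht
  have h2 := H.dY hY hne (δ := k - 2) (Or.inl ⟨by linarith, by omega⟩)
  have h3 := sum_ge (G := G) (Y := Y) (S := S) (k - 2) (fun v hv => h2 v (hS hv))
  have h4 := e2_add_compl (G := G) S
  have h5 := sum_deg' (G := G) hS
  obtain ⟨q, hq⟩ := e2_even (G := Gᶜ) S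
  rw [hq] at h4
  obtain ⟨m, rfl⟩ : ∃ m, k = m + 2 := ⟨k - 2, by omega⟩
  have hs : S.card = m + 1 := by omega
  rw [hs] at h1 h3 h4
  have g3 : ((∑ v ∈ S, (nb G Y v).card : ℕ) : ℤ) = m * (m + 1) + exs G m Y S := by
    exact_mod_cast h3
  have g4 : (e2 G S : ℤ) + 2 * q + (m + 1) = (m + 1) * (m + 1) := by exact_mod_cast h4
  have g5 : ((∑ v ∈ S, (nb G Y v).card : ℕ) : ℤ) = e2 G S + bd G Y S := by exact_mod_cast h5
  have g6 : (0 : ℤ) ≤ exs G m Y S := Int.natCast_nonneg _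
  obtain ⟨D, hD⟩ : ∃ D : ℕ, ∑ v ∈ S, (nb G Y v).card = D := ⟨_, rfl⟩
  rw [hD] at h1 g3 g5
  push_cast at h1 hp
  have b1 : 2 * (bd G Y S : ℤ) + 2 ≤ ps G (m + 2) Y + 2 * q := by nlinarith
  have b2 : (2 * (q : ℤ)) ≤ bd G Y S := by nlinarith
  by_cases hq0 : q = 0
  · subst hq0
    refine ⟨clq_of_e2 (by omega), by simpa using b1⟩
  · exfalso
    have hne0 : ∃ x ∈ S, ∃ y ∈ S, x ≠ y ∧ ¬ G.Adj x y := by
      by_contra hcon
      push Not at hcon
      have h6 : Clq G S := fun a ha b hb hab => hcon a ha b hb hab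
      have h7 := clq_e2 (G := G) h6
      have h8 := e2_add_compl (G := G) S
      omega
    obtain ⟨x, hx, y, hy, hxy, hn⟩ := hne0
    have h6 := H.bigY hY hne (δ := m) (fun v hv => h2 v hv) (by omega) (B := S) (J := {x, y}) hS
      (by
        intro z hz
        rw [mem_insert, mem_singleton] at hz
        rcases hz with rfl | rfl
        · exact hx
        · exact hy) (indep_pair hn)
    rw [Finset.card_pair hxy, sum_pair' hxy, hs] at h6
    have h7 : (nb G Y x \ S).card + (nb G Y y \ S).card ≤ bd G Y S := by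
      unfold bd
      rw [← sum_pair' hxy (fun v => (nb G Y v \ S).card)]
      refine Finset.sum_le_sum_of_subset ?_
      intro z hz
      rw [mem_insert, mem_singleton] at hz
      rcases hz with rfl | rfl
      · exact hx
      · exact hy
    have h8 : ((nb G Y x \ S).card : ℤ) + (nb G Y y \ S).card ≤ bd G Y S := by exact_mod_cast h7
    push_cast at h6
    have h9 : (bd G Y S : ℤ) ≤ m := by linarith
    have h10 : ((nb G Y x \ S).card : ℤ) + (nb G Y y \ S).card ≤ m := by linarith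
    nlinarith [Int.natCast_nonneg m, mul_le_mul_of_nonneg_left h10 (Int.natCast_nonneg m)]

theorem MC.tau0 (hp : ps G k Y ≤ 1) : TauGe G Y k := by
  intro S hS hT
  by_contra hcon
  push Not at hcon
  have hk := H.hk
  have hk' : (20 : ℤ) ≤ k := by exact_mod_cast hk
  have h1 := H.tau1 hY hne (by linarith) S hS hT
  have h2 := H.tr34 hY hne (by linarith) hS (by omega) hT
  have h3 : (0 : ℤ) ≤ bd G Y S := Int.natCast_nonneg _
  linarith [h2.2]

end

end Pool.Agent.TwoDens.TK
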