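import Pool.Agent.TKE.TB

/-!
The case without low vertices.
-/

open Finset

namespace Pool.Agent.TwoDens.TK

open Pool.Agent.TwoDens Pool.Agent.TwoDens.RK Pool.Agent.TwoDens.DD

variable {V : Type*} [DecidableEq V] {G : SimpleGraph V} [DecidableRel G.Adj]

namespace Fr
variable {k : ℕ} {X P : Finset V} (F : Fr G k X P)
include F

/-- values for a base without low vertices -/
theorem highval {c x x' : V} (B : Base G k X P c x x')
    (h1 : k ≤ (nb G (hb X P x x') x).card + 1) (h2 : k ≤ (nb G (hb X P x x') x').card + 1) :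
    (nb G (hb X P x x') x).card + 1 = k ∧ (nb G (hb X P x x') x').card + 1 = k ∧
    ¬ G.Adj x x' ∧ ps G k (hb X P x x') = 0 ∧ exs G k X P = 0 := by
  have h3 := (F.bp _ _ _ B).bstar
  have h4 := (F.bp _ _ _ B).ps0
  have h5 := F.mc.ps_le
  have h1' : (k : ℤ) ≤ (nb G (hb X P x x') x).card + 1 := by exact_mod_cast h1
  have h2' : (k : ℤ) ≤ (nb G (hb X P x x') x').card + 1 := by exact_mod_cast h2
  have h6 := Int.natCast_nonneg (exs G k X P)
  by_cases hxx : G.Adj x x'
  · rw [if_pos hxx] at h3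
    linarith
  · rw [if_neg hxx] at h3
    have r1 : ((nb G (hb X P x x') x).card : ℤ) + 1 = k := by linarith
    have r2 : ((nb G (hb X P x x') x').card : ℤ) + 1 = k := by linarith
    have r3 : (exs G k X P : ℤ) = 0 := by linarith
    exact ⟨by exact_mod_cast r1, by exact_mod_cast r2, hxx, by linarith, by exact_mod_cast r3⟩

/-- the structure around a vertex `x` seen from another base -/
theorem rx {c u x x' y y' : V} (B : Base G k X P c x x') (Bu : Base G k X P u y y')
    (hps : ps G k (hb X P y y') = 0) (hex : exs G k X P = 0)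
    (hf : (nb G (hb X P x x') x).card + 1 = k) (hxx : ¬ G.Adj x x')
    (n1 : ¬ G.Adj x y) (n2 : ¬ G.Adj x y') (n3 : ¬ G.Adj x' y) (n4 : ¬ G.Adj x' y')
    (d1 : x ≠ y) (d2 : x ≠ y') :
    ∃ r R, r ∉ R ∧ nb G (X \ P) x = insert r R ∧ R.card + 2 = k ∧ Clq G (insert x R) ∧
      k ≤ (nb G R y).card + (nb G R y').card + 4 := by
  have hk := F.mc.hk
  have hxX := mem_sdiff.1 B.hx
  have hxX' := mem_sdiff.1 B.hx'
  have hbp := F.bp _ _ _ Bu
  have hN1 : nb G (X \ P) x = nb G (hb X P x x') x := by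
    ext v
    rw [mem_nb, mem_nb, mem_hb, mem_sdiff]
    constructor
    · rintro ⟨⟨h1, h2⟩, h3⟩
      exact ⟨⟨h1, h2, fun e => G.loopless.irrefl x (e ▸ h3), fun e => hxx (e ▸ h3)⟩, h3⟩
    · rintro ⟨⟨h1, h2, _, _⟩, h3⟩
      exact ⟨⟨h1, h2⟩, h3⟩
  have hN2 : nb G (X \ P) x = nb G (hb X P y y') x := by
    ext v
    rw [mem_nb, mem_nb, mem_hb, mem_sdiff]
    constructor
    · rintro ⟨⟨h1, h2⟩, h3⟩
      exact ⟨⟨h1, h2, fun e => n1 (e ▸ h3), fun e => n2 (e ▸ h3)⟩, h3⟩
    · rintro ⟨⟨h1, h2, _, _⟩, h3⟩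
      exact ⟨⟨h1, h2⟩, h3⟩
  obtain ⟨N, hN⟩ : ∃ N, N = nb G (X \ P) x := ⟨_, rfl⟩
  obtain ⟨H, hH⟩ : ∃ H, H = hb X P y y' := ⟨_, rfl⟩
  have hHX : H ⊆ X := by rw [hH]; exact hb_sub
  have hHne : H ≠ X := by rw [hH]; exact Bu.hbne
  have hmemH : ∀ {v : V}, v ∈ H ↔ v ∈ X ∧ v ∉ P ∧ v ≠ y ∧ v ≠ y' := by
    intro v
    rw [hH]
    exact mem_hb
  have hps4 := hbp.ps4
  have htau := hbp.tau
  rw [← hH] at hps hps4 htau hN2
  rw [← hN] at hN1 hN2
  rw [← hN]
  have hNc : N.card + 1 = k := by rw [hN1]; exact hf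
  have hxH : x ∈ H := hmemH.2 ⟨hxX.1, hxX.2, d1, d2⟩
  have hxN : x ∉ N := by rw [hN]; exact self_notMem
  have hcl : cl G H x = insert x N := by
    unfold cl
    rw [← hN2]
  have htr := tr_cl (G := G) hxH
  have hsub := cl_sub (G := G) hxH
  rw [hcl] at htr hsub
  obtain ⟨r, hS⟩ := F.mc.star8 hHX hHne hps4 htau hsub
    (by rw [Finset.card_insert_of_notMem hxN]; exact hNc) htr
  have hxa : ∀ w ∈ N, G.Adj x w := by
    intro w hw
    rw [hN] at hw
    exact (mem_nb.1 hw).2
  have hrN : r ∈ N := by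
    have h1 := hS.hr
    rw [mem_insert] at h1
    rcases h1 with h1 | h1
    · exfalso
      have h2 := hS.clq
      rw [h1, Finset.erase_insert hxN] at h2
      have h3 : Clq G (insert x N) := by
        intro p hp q hq hpq
        rw [mem_insert] at hp hq
        rcases hp with rfl | hp <;> rcases hq with rfl | hq
        · exact absurd rfl hpq
        · exact hxa q hq
        · exact (hxa p hp).symm
        · exact h2 p hp q hq hpq
      have h4 := F.mc.clq_lt (hsub.trans hHX) h3
      rw [Finset.card_insert_of_notMem hxN] at h4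
      omega
    · exact h1
  have hxr : x ≠ r := fun e => hxN (e ▸ hrN)
  have hTe : (insert x N).erase r = insert x (N.erase r) := Finset.erase_insert_of_ne hxr
  have hRc : (N.erase r).card + 1 = N.card := Finset.card_erase_add_one hrN
  have hcq := hS.clq
  rw [hTe] at hcq
  refine ⟨r, N.erase r, Finset.notMem_erase _ _, (Finset.insert_erase hrN).symm, by omega, hcq, ?_⟩
  -- the excess
  obtain ⟨l, hl⟩ := Finset.card_pos.1 hS.miss
  have hlT := (mem_nb.1 hl).1
  have hlr : l ≠ r := fun h => ((SimpleGraph.compl_adj _ _ _).1 (mem_nb.1 hl).2).1 h.symm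
  have hlow := hS.low l hl
  have he1 := exs_erase (G := G) (k := k - 1) (X := H) (S := (insert x N).erase r) (u := l)
    (mem_erase.2 ⟨hlr, hlT⟩)
  have hnn := hS.nonneg (F.mc.ps_sub hHX hHne _)
  rw [hps] at hnn
  have hnn' : (nb G H r \ insert x N).card + exs G (k - 1) H ((insert x N).erase r) + 1 ≤ k := by
    have : ((nb G H r \ insert x N).card : ℤ) + exs G (k - 1) H ((insert x N).erase r) + 1 ≤ k := by
      linarith
    exact_mod_cast this
  have hex2 : exs G (k - 1) H (((insert x N).erase r).erase l) ≤ 1 := by omega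
  -- vertices of degree `k - 1`
  have hgood : ∀ w ∈ N.erase r, (nb G H w).card + 1 = k → G.Adj w y ∨ G.Adj w y' := by
    intro w hw hwd
    have hwN := (mem_erase.1 hw).2
    have hwH : w ∈ H := by
      rw [hN2] at hwN
      exact (mem_nb.1 hwN).1
    have hwH' := hmemH.1 hwH
    have h1 := F.deg_ge hwH'.1
    by_contra hcon
    push Not at hcon
    have h2 : nb G X w ⊆ nb G H w := by
      intro v hv
      have hv' := mem_nb.1 hv
      refine mem_nb.2 ⟨hmemH.2 ⟨hv'.1, ?_, ?_, ?_⟩, hv'.2⟩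
      · -- no neighbour in `P`
        intro hvP
        have hdv : (nb G X v).card = k := by
          have h3 := F.deg_ge (F.hP hvP)
          have h4 := exs_erase (G := G) (k := k) (X := X) hvP
          omega
        have hwv : G.Adj v w := hv'.2.symm
        have hwQ : w ∈ X \ P := mem_sdiff.2 ⟨hwH'.1, hwH'.2.1⟩
        obtain ⟨z, Bz⟩ := base_mk1 F.hP F.hPc F.hPq hvP hdv hwQ hwv
        have hzQ := Bz.hx'
        -- `w` is adjacent to `x`
        have hxw := hxa w hwN
        have hwx : w ≠ x := fun e => hxN (e ▸ hwN)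
        have hwx' : w ≠ x' := fun e => hxx (e ▸ hxw)
        by_cases hvx : G.Adj v x
        · have hvx' := (F.iff B hvP hdv).1 hvx
          have hb2 := base_mk2 F.hP F.hPc F.hPq hvP hdv B.hx B.hx' B.hne hvx hvx'
          exact hb2.na hwQ hwx hwx' hwv
        · -- the base of `v` is different from `x, x'`
          have hvx' : ¬ G.Adj v x' := fun e => hvx ((F.iff B hvP hdv).2 e)
          have h3 : ¬ G.Adj x x' := hxx
          have h4 : ¬ G.Adj x v := fun e => hvx e.symm
          have h5 : ¬ G.Adj x' v := fun e => hvx' e.symm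
          refine F.lemG B h3 hvP h4 h5 ?_
          -- `w` is counted twice
          have hcv := F.nbH B hvP
          rw [hdv, ad_zero hvx, ad_zero hvx'] at hcv
          have hwv1 : w ∈ nb G (hb X P x x') v :=
            mem_nb.2 ⟨mem_hb.2 ⟨hwH'.1, hwH'.2.1, hwx, hwx'⟩, hwv⟩
          have hwv2 : w ∈ nb G (hb X P x x') x :=
            mem_nb.2 ⟨mem_hb.2 ⟨hwH'.1, hwH'.2.1, hwx, hwx'⟩, hxw⟩
          have h6 := Finset.card_union_add_card_inter (nb G (hb X P x x') x)
            (nb G (hb X P x x') v)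
          have h7 : 1 ≤ (nb G (hb X P x x') x ∩ nb G (hb X P x x') v).card :=
            Finset.card_pos.2 ⟨w, mem_inter.2 ⟨hwv2, hwv1⟩⟩
          omega
      · exact fun e => hcon.1 (e ▸ hv'.2)
      · exact fun e => hcon.2 (e ▸ hv'.2)
    have h3 := Finset.card_le_card h2
    omega
  -- counting
  have hcover : N.erase r ⊆ insert l ((((insert x N).erase r).erase l).filter
      (fun w => k ≤ (nb G H w).card)) ∪ (nb G (N.erase r) y ∪ nb G (N.erase r) y') := by
    intro w hw
    rw [mem_union, mem_insert, mem_filter, mem_union, mem_nb, mem_nb]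
    by_cases hwl : w = l
    · exact Or.inl (Or.inl hwl)
    · by_cases hwk : k ≤ (nb G H w).card
      · refine Or.inl (Or.inr ⟨mem_erase.2 ⟨hwl, ?_⟩, hwk⟩)
        rw [hTe]
        exact mem_insert_of_mem hw
      · have hwH : w ∈ H := by
          have := (mem_erase.1 hw).2
          rw [hN2] at this
          exact (mem_nb.1 this).1
        have h1 := htau.deg hwH
        rcases hgood w hw (by omega) with h2 | h2
        · exact Or.inr (Or.inl ⟨hw, h2.symm⟩)
        · exact Or.inr (Or.inr ⟨hw, h2.symm⟩)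
  have hcc := Finset.card_le_card hcover
  have h1 := Finset.card_union_le (insert l ((((insert x N).erase r).erase l).filter
      (fun w => k ≤ (nb G H w).card))) (nb G (N.erase r) y ∪ nb G (N.erase r) y')
  have h2 := Finset.card_union_le (nb G (N.erase r) y) (nb G (N.erase r) y')
  have h3 := Finset.card_insert_le l ((((insert x N).erase r).erase l).filter
      (fun w => k ≤ (nb G H w).card))
  have h4 : ((((insert x N).erase r).erase l).filter (fun w => k ≤ (nb G H w).card)).card ≤
      exs G (k - 1) H (((insert x N).erase r).erase l) := by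
    unfold exs
    rw [Finset.card_eq_sum_ones]
    refine (Finset.sum_le_sum fun v hv => ?_).trans
      (Finset.sum_le_sum_of_subset (Finset.filter_subset _ _))
    have := (mem_filter.1 hv).2
    omega
  omega

/-- the case without low vertices -/
theorem fin (hhigh : ∀ c x x', Base G k X P c x x' → k ≤ (nb G (hb X P x x') x).card + 1) :
    False := by
  have hk := F.mc.hk
  obtain ⟨c, hc, hcd⟩ := F.hex
  obtain ⟨x, x', B⟩ := base_mk F.hP F.hPc F.hPq hc hcd
  have hval : ∀ c x x', Base G k X P c x x' → (nb G (hb X P x x') x).card + 1 = k ∧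
      (nb G (hb X P x x') x').card + 1 = k ∧ ¬ G.Adj x x' ∧ ps G k (hb X P x x') = 0 ∧
      exs G k X P = 0 := by
    intro c x x' B
    refine F.highval B (hhigh c x x' B) ?_
    have := hhigh c x' x B.symm
    rw [hb_comm X P x' x] at this
    exact this
  obtain ⟨v1, v2, hxx, hps, hex⟩ := hval c x x' B
  obtain ⟨u, hu, hud, hxu⟩ := F.ns B.hx
  obtain ⟨y, y', Bu⟩ := base_mk F.hP F.hPc F.hPq hu hud
  obtain ⟨w1, w2, hyy, hpsu, _⟩ := hval u y y' Bu
  have hxu' : ¬ G.Adj u x' := fun e => hxu ((F.iff B hu hud).2 e).symm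
  have hxX := mem_sdiff.1 B.hx
  have hxX' := mem_sdiff.1 B.hx'
  have hyX := mem_sdiff.1 Bu.hx
  have hyX' := mem_sdiff.1 Bu.hx'
  have d1 : x ≠ y := fun e => hxu (e ▸ Bu.ax.symm)
  have d2 : x ≠ y' := fun e => hxu (e ▸ Bu.ax'.symm)
  have d3 : x' ≠ y := fun e => hxu' (e ▸ Bu.ax)
  have d4 : x' ≠ y' := fun e => hxu' (e ▸ Bu.ax')
  -- no edges between the pairs
  have hno : ∀ {c u a a' b b' : V} (Ba : Base G k X P c a a') (Bb : Base G k X P u b b'),
      ¬ G.Adj a a' → (nb G (hb X P a a') a).card + 1 = k → ¬ G.Adj a u → ¬ G.Adj a' u →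
      b ≠ a → b ≠ a' → ¬ G.Adj a b := by
    intro c u a a' b b' Ba Bb haa hfa nau na'u hba hba' hab
    have hbX := mem_sdiff.1 Bb.hx
    refine F.lemG Ba haa Bb.hc nau na'u ?_
    have hcv := F.nbH Ba Bb.hc
    rw [Bb.deg, ad_zero (fun e => nau e.symm), ad_zero (fun e => na'u e.symm)] at hcv
    have h1 : b ∈ nb G (hb X P a a') a := mem_nb.2 ⟨mem_hb.2 ⟨hbX.1, hbX.2, hba, hba'⟩, hab⟩
    have h2 : b ∈ nb G (hb X P a a') u := mem_nb.2 ⟨mem_hb.2 ⟨hbX.1, hbX.2, hba, hba'⟩, Bb.ax⟩
    have h6 := Finset.card_union_add_card_inter (nb G (hb X P a a') a) (nb G (hb X P a a') u)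
    have h7 : 1 ≤ (nb G (hb X P a a') a ∩ nb G (hb X P a a') u).card :=
      Finset.card_pos.2 ⟨b, mem_inter.2 ⟨h1, h2⟩⟩
    omega
  have v2' : (nb G (hb X P x' x) x').card + 1 = k := by rw [hb_comm]; exact v2
  have nxu' : ¬ G.Adj x' u := fun e => hxu' e.symm
  have n1 : ¬ G.Adj x y := hno B Bu hxx v1 hxu nxu' (Ne.symm d1) (Ne.symm d3)
  have n2 : ¬ G.Adj x y' := hno B Bu.symm hxx v1 hxu nxu' (Ne.symm d2) (Ne.symm d4)
  have n3 : ¬ G.Adj x' y := hno B.symm Bu (fun e => hxx e.symm) v2' nxu' hxu (Ne.symm d3)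
    (Ne.symm d1)
  have n4 : ¬ G.Adj x' y' := hno B.symm Bu.symm (fun e => hxx e.symm) v2' nxu' hxu (Ne.symm d4)
    (Ne.symm d2)
  -- the structures
  obtain ⟨r, R, hrR, hNx, hRc, hRq, hcx⟩ := F.rx B Bu hpsu hex v1 hxx n1 n2 n3 n4 d1 d2
  obtain ⟨r', R', hrR', hNx', hRc', hRq', hcx'⟩ := F.rx B.symm Bu hpsu hex v2'
    (fun e => hxx e.symm) n3 n4 n1 n2 d3 d4
  obtain ⟨s, S, hsS, hNy, hSc, hSq, hcy⟩ := F.rx Bu B hps hex w1 hyy
    (fun e => n1 e.symm) (fun e => n3 e.symm) (fun e => n2 e.symm) (fun e => n4 e.symm)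
    (Ne.symm d1) (Ne.symm d3)
  have w2' : (nb G (hb X P y' y) y').card + 1 = k := by rw [hb_comm]; exact w2
  obtain ⟨s', S', hsS', hNy', hSc', hSq', hcy'⟩ := F.rx Bu.symm B hps hex w2'
    (fun e => hyy e.symm) (fun e => n2 e.symm) (fun e => n4 e.symm) (fun e => n1 e.symm)
    (fun e => n3 e.symm) (Ne.symm d2) (Ne.symm d4)
  -- equality of cliques
  have hsame : ∀ {a b ra rb : V} {A C : Finset V}, a ∈ X → b ∈ X → a ∉ P → a ≠ b → ¬ G.Adj a b →
      nb G (X \ P) a = insert ra A → nb G (X \ P) b = insert rb C → A.card + 2 = k →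
      C.card + 2 = k → Clq G (insert a A) → Clq G (insert b C) →
      8 ≤ (nb G A b).card → A = C := by
    intro a b ra rb A C ha hb' haP hab nab hA hC hAc hCc hAq hCq h18
    have hAX : A ⊆ X := by
      intro v hv
      have : v ∈ nb G (X \ P) a := by rw [hA]; exact mem_insert_of_mem hv
      exact (mem_sdiff.1 (mem_nb.1 this).1).1
    have hCX : C ⊆ X := by
      intro v hv
      have : v ∈ nb G (X \ P) b := by rw [hC]; exact mem_insert_of_mem hv
      exact (mem_sdiff.1 (mem_nb.1 this).1).1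
    have haA : a ∉ A := by
      intro h
      have : a ∈ nb G (X \ P) a := by rw [hA]; exact mem_insert_of_mem h
      exact self_notMem this
    have hbC : b ∉ C := by
      intro h
      have : b ∈ nb G (X \ P) b := by rw [hC]; exact mem_insert_of_mem h
      exact self_notMem this
    have haC : a ∉ C := by
      intro h
      have : a ∈ nb G (X \ P) b := by rw [hC]; exact mem_insert_of_mem h
      exact nab (mem_nb.1 this).2.symm
    have h1 := F.mc.clq_inter (Finset.insert_subset ha hAX) (Finset.insert_subset hb' hCX)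
      (by rw [Finset.card_insert_of_notMem haA]; omega)
      (by rw [Finset.card_insert_of_notMem hbC]; omega) hAq hCq
    have h2 : nb G A b ⊆ insert rb (A ∩ C) := by
      intro v hv
      have h3 := mem_nb.1 hv
      have h4 : v ∈ nb G (X \ P) a := by rw [hA]; exact mem_insert_of_mem h3.1
      have h5 : v ∈ nb G (X \ P) b := mem_nb.2 ⟨(mem_nb.1 h4).1, h3.2⟩
      rw [hC, mem_insert] at h5
      rw [mem_insert, mem_inter]
      rcases h5 with h5 | h5
      · exact Or.inl h5
      · exact Or.inr ⟨h3.1, h5⟩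
    have h3 := Finset.card_le_card h2
    have h4 := Finset.card_insert_le rb (A ∩ C)
    have h5 : A ∩ C ⊆ insert a A ∩ insert b C := Finset.inter_subset_inter
      (Finset.subset_insert _ _) (Finset.subset_insert _ _)
    have h6 : insert a A ∩ insert b C ⊆ insert b (A ∩ C) := by
      intro v hv
      rw [mem_inter, mem_insert, mem_insert] at hv
      rw [mem_insert, mem_inter]
      rcases hv.2 with h | h
      · exact Or.inl h
      · refine Or.inr ⟨?_, h⟩
        rcases hv.1 with h' | h'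
        · exact absurd (h' ▸ h) haC
        · exact h'
    have h7 := Finset.card_le_card h5
    -- `b ∉ insert a A`
    have hbA : b ∉ A := by
      intro h
      have : b ∈ nb G (X \ P) a := by rw [hA]; exact mem_insert_of_mem h
      exact nab (mem_nb.1 this).2
    have h8 : insert a A ∩ insert b C ⊆ A ∩ C := by
      intro v hv
      have h9 := h6 hv
      rw [mem_insert] at h9
      rcases h9 with h9 | h9
      · exfalso
        rw [mem_inter, mem_insert] at hv
        rcases hv.1 with h' | h'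
        · exact hab (h'.symm.trans h9)
        · exact hbA (h9 ▸ h')
      · exact h9
    have h9 := Finset.card_le_card h8
    have h10 : A ∩ C = A := Finset.eq_of_subset_of_card_le Finset.inter_subset_left (by omega)
    have h11 : A ∩ C = C := Finset.eq_of_subset_of_card_le Finset.inter_subset_right (by omega)
    rw [← h10, h11]
  have hR : R = S ∨ R = S' := by
    rcases Nat.lt_or_ge (nb G R y).card 8 with h | h
    · right
      exact hsame hxX.1 hyX'.1 hxX.2 d2 n2 hNx hNy' hRc hSc' hRq hSq' (by omega)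
    · left
      exact hsame hxX.1 hyX.1 hxX.2 d1 n1 hNx hNy hRc hSc hRq hSq h
  have hR' : R' = S ∨ R' = S' := by
    rcases Nat.lt_or_ge (nb G R' y).card 8 with h | h
    · right
      exact hsame hxX'.1 hyX'.1 hxX'.2 d4 n4 hNx' hNy' hRc' hSc' hRq' hSq' (by omega)
    · left
      exact hsame hxX'.1 hyX.1 hxX'.2 d3 n3 hNx' hNy hRc' hSc hRq' hSq h
  -- the exchange
  have hbp := F.bp _ _ _ B
  obtain ⟨H, hH⟩ : ∃ H, H = hb X P x x' := ⟨_, rfl⟩
  have hHX : H ⊆ X := by rw [hH]; exact hb_sub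
  have hmemH : ∀ {v : V}, v ∈ H ↔ v ∈ X ∧ v ∉ P ∧ v ≠ x ∧ v ≠ x' := by
    intro v
    rw [hH]
    exact mem_hb
  have htau := hbp.tau
  have halH := hbp.alH
  rw [← hH] at htau halH
  have hntr : ¬ Tr G H (({y, y', r, r', s, s'} : Finset V) ∩ H) := by
    intro h
    have h1 := htau _ Finset.inter_subset_right h
    have h2 : (({y, y', r, r', s, s'} : Finset V) ∩ H).card ≤
        ({y, y', r, r', s, s'} : Finset V).card := Finset.card_le_card Finset.inter_subset_left
    have h3 : ({y, y', r, r', s, s'} : Finset V).card ≤ 6 := Finset.card_le_six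
    omega
  obtain ⟨I, hI, hi, hd, hcI⟩ := not_tr hntr
  have hIn : ∀ {v : V}, v ∈ I → v ∉ ({y, y', r, r', s, s'} : Finset V) := by
    intro v hv h
    exact (Finset.disjoint_left.1 hd) hv (mem_inter.2 ⟨h, hI hv⟩)
  have hSQ : Clq G S := fun p hp q hq hpq => hSq p (mem_insert_of_mem hp) q
    (mem_insert_of_mem hq) hpq
  have hSQ' : Clq G S' := fun p hp q hq hpq => hSq' p (mem_insert_of_mem hp) q
    (mem_insert_of_mem hq) hpq
  have hIS : ∀ C : Finset V, Clq G C → (I ∩ C).card ≤ 1 := by
    intro C hC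
    rw [Finset.card_le_one]
    intro p hp q hq
    rw [mem_inter] at hp hq
    by_contra hpq
    exact hi hp.1 hq.1 hpq (hC p hp.2 q hq.2 hpq)
  have h1 := hIS S hSQ
  have h2 := hIS S' hSQ'
  obtain ⟨I', hI'⟩ : ∃ I', I' = I \ (S ∪ S') := ⟨_, rfl⟩
  have hI'c : I.card ≤ I'.card + 2 := by
    have h3 : I ⊆ I' ∪ ((I ∩ S) ∪ (I ∩ S')) := by
      intro v hv
      rw [hI', mem_union, mem_sdiff, mem_union, mem_union, mem_inter, mem_inter]
      by_cases e1 : v ∈ S
      · exact Or.inr (Or.inl ⟨hv, e1⟩)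
      · by_cases e2 : v ∈ S'
        · exact Or.inr (Or.inr ⟨hv, e2⟩)
        · exact Or.inl ⟨hv, fun h => h.elim e1 e2⟩
    have h4 := Finset.card_le_card h3
    have h5 := Finset.card_union_le I' ((I ∩ S) ∪ (I ∩ S'))
    have h6 := Finset.card_union_le (I ∩ S) (I ∩ S')
    omega
  have hJi : G.IsIndepSet (({x, x', y, y'} : Finset V) : Set V) := by
    refine indep_insert (indep_triple n3 n4 hyy) ?_
    intro v hv
    rw [mem_insert, mem_insert, mem_singleton] at hv
    rcases hv with rfl | rfl | rfl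
    · exact hxx
    · exact n1
    · exact n2
  have hJc : ({x, x', y, y'} : Finset V).card = 4 := by
    rw [Finset.card_insert_of_notMem (by simp [B.hne, d1, d2]),
      Finset.card_insert_of_notMem (by simp [d3, d4]), Finset.card_pair Bu.hne]
  have hI'I : I' ⊆ I := by rw [hI']; exact Finset.sdiff_subset
  -- the neighbours in `I'`
  have hnbI : ∀ {a ra : V} {A : Finset V}, nb G (X \ P) a = insert ra A → (A = S ∨ A = S') →
      ra ∈ ({y, y', r, r', s, s'} : Finset V) → ∀ v ∈ I', ¬ G.Adj a v := by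
    intro a ra A hA hAS hra v hv hav
    have hvI := hI'I hv
    have hvH := hmemH.1 (hI hvI)
    have h3 : v ∈ nb G (X \ P) a := mem_nb.2 ⟨mem_sdiff.2 ⟨hvH.1, hvH.2.1⟩, hav⟩
    rw [hA, mem_insert] at h3
    rcases h3 with h3 | h3
    · exact hIn hvI (h3 ▸ hra)
    · rw [hI', mem_sdiff, mem_union] at hv
      rcases hAS with h4 | h4
      · exact hv.2 (Or.inl (h4 ▸ h3))
      · exact hv.2 (Or.inr (h4 ▸ h3))
  have h3 := le_al (G := G) (X := X) (I := ({x, x', y, y'} : Finset V) ∪ I') (by
    refine Finset.union_subset ?_ (hI'I.trans (hI.trans hHX))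
    intro z hz
    rw [mem_insert, mem_insert, mem_insert, mem_singleton] at hz
    rcases hz with rfl | rfl | rfl | rfl
    · exact hxX.1
    · exact hxX'.1
    · exact hyX.1
    · exact hyX'.1) (indep_union hJi (indep_mono hi hI'I) (by
    intro a ha v hv
    rw [mem_insert, mem_insert, mem_insert, mem_singleton] at ha
    rcases ha with rfl | rfl | rfl | rfl
    · exact hnbI hNx hR (by simp) v hv
    · exact hnbI hNx' hR' (by simp) v hv
    · exact hnbI hNy (Or.inl rfl) (by simp) v hv
    · exact hnbI hNy' (Or.inr rfl) (by simp) v hv))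
  rw [Finset.card_union_of_disjoint, hJc] at h3
  · omega
  · rw [Finset.disjoint_left]
    intro z hz hz'
    have hzI := hI'I hz'
    have hzH := hmemH.1 (hI hzI)
    have hzn := hIn hzI
    rw [mem_insert, mem_insert, mem_insert, mem_singleton] at hz
    rcases hz with rfl | rfl | rfl | rfl
    · exact hzH.2.2.1 rfl
    · exact hzH.2.2.2 rfl
    · exact hzn (by simp)
    · exact hzn (by simp)

end Fr

end Pool.Agent.TwoDens.TK
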