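import Pool.Agent.TKE.Star

/-!
Bases: a clique `P` with `k - 1` vertices and a vertex `c` of `P` of degree `k`.
-/

open Finset

namespace Pool.Agent.TwoDens.TK

open Pool.Agent.TwoDens Pool.Agent.TwoDens.RK Pool.Agent.TwoDens.DD

variable {V : Type*} [DecidableEq V] {G : SimpleGraph V} [DecidableRel G.Adj]

/-- the vertices outside `P` and `x, x'` -/
def hb (X P : Finset V) (x x' : V) : Finset V := (X \ P) \ {x, x'}

/-- the clique `P` with `k - 1` vertices, `c ∈ P` has exactly the neighbours `x, x'` outside -/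
structure Base (G : SimpleGraph V) [DecidableRel G.Adj] (k : ℕ) (X P : Finset V) (c x x' : V) :
    Prop where
  hP : P ⊆ X
  hPc : P.card + 1 = k
  hPq : Clq G P
  hc : c ∈ P
  hne : x ≠ x'
  hout : nb G (X \ P) c = {x, x'}

/-- consequences for a base -/
structure BP (G : SimpleGraph V) [DecidableRel G.Adj] (k : ℕ) (X P : Finset V) (x x' : V) :
    Prop where
  alH : al G (hb X P x x') + 1 = al G X
  tau : TauGe G (hb X P x x') k
  ps0 : 0 ≤ ps G k (hb X P x x')
  ps4 : ps G k (hb X P x x') ≤ 4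
  ntx : ¬ Tr G (hb X P x x') (nb G (hb X P x x') x)
  ntx' : ¬ Tr G (hb X P x x') (nb G (hb X P x x') x')
  bstar : 2 * (((nb G (hb X P x x') x).card : ℤ) + (nb G (hb X P x x') x').card +
    (if G.Adj x x' then 1 else 0) + exs G k X P) + ps G k (hb X P x x') =
    4 * k - 2 + ps G k X

/-- a minimal counterexample with a clique `P` and all consequences for the bases of `P` -/
structure Fr (G : SimpleGraph V) [DecidableRel G.Adj] (k : ℕ) (X P : Finset V) : Prop where
  mc : MC G k X
  hP : P ⊆ X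
  hPc : P.card + 1 = k
  hPq : Clq G P
  hex : ∃ c ∈ P, (nb G X c).card = k
  bp : ∀ c x x', Base G k X P c x x' → BP G k X P x x'

omit [DecidableRel G.Adj] in
theorem hb_comm (X P : Finset V) (x x' : V) : hb X P x x' = hb X P x' x := by
  unfold hb
  rw [Finset.pair_comm]

theorem mem_hb {X P : Finset V} {x x' v : V} :
    v ∈ hb X P x x' ↔ v ∈ X ∧ v ∉ P ∧ v ≠ x ∧ v ≠ x' := by
  unfold hb
  rw [mem_sdiff, mem_sdiff, mem_insert, mem_singleton]
  tauto

theorem hb_sub {X P : Finset V} {x x' : V} : hb X P x x' ⊆ X :=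
  Finset.sdiff_subset.trans Finset.sdiff_subset

theorem nb_hb {X P : Finset V} {x x' v : V} :
    nb G (hb X P x x') v = nb G (X \ P) v \ {x, x'} := by
  ext u
  rw [mem_nb, mem_hb, mem_sdiff, mem_nb, mem_sdiff, mem_insert, mem_singleton]
  tauto

theorem card_nb_hb {X P : Finset V} {x x' : V} (hx : x ∈ X \ P) (hx' : x' ∈ X \ P)
    (hne : x ≠ x') (v : V) :
    (nb G (X \ P) v).card = (nb G (hb X P x x') v).card + (if G.Adj v x then 1 else 0) +
      (if G.Adj v x' then 1 else 0) := by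
  have h1 : nb G (X \ P) v = nb G (hb X P x x') v ∪ nb G {x, x'} v := by
    ext u
    rw [mem_union, mem_nb, mem_nb, mem_nb, mem_hb, mem_insert, mem_singleton, mem_sdiff]
    rw [mem_sdiff] at hx hx'
    constructor
    · rintro ⟨h2, h3⟩
      by_cases h4 : u = x
      · exact Or.inr ⟨Or.inl h4, h3⟩
      · by_cases h5 : u = x'
        · exact Or.inr ⟨Or.inr h5, h3⟩
        · exact Or.inl ⟨⟨h2.1, h2.2, h4, h5⟩, h3⟩
    · rintro (⟨h2, h3⟩ | ⟨h2, h3⟩)
      · exact ⟨⟨h2.1, h2.2.1⟩, h3⟩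
      · rcases h2 with rfl | rfl
        · exact ⟨hx, h3⟩
        · exact ⟨hx', h3⟩
  have h2 : Disjoint (nb G (hb X P x x') v) (nb G {x, x'} v) := by
    rw [Finset.disjoint_left]
    intro u hu hu'
    rw [mem_nb, mem_hb] at hu
    rw [mem_nb, mem_insert, mem_singleton] at hu'
    rcases hu'.1 with h | h
    · exact hu.1.2.2.1 h
    · exact hu.1.2.2.2 h
  rw [h1, Finset.card_union_of_disjoint h2, add_assoc]
  congr 1
  unfold nb
  rw [Finset.filter_insert, Finset.filter_singleton]
  split_ifs with a b b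
  · rw [Finset.card_insert_of_notMem (by simpa using hne), Finset.card_singleton]
  · simp
  · simp
  · simp

/-- the degree of a vertex of the clique -/
theorem card_nbP {k : ℕ} {X P : Finset V} (hP : P ⊆ X) (hPc : P.card + 1 = k) (hPq : Clq G P)
    {p : V} (hp : p ∈ P) : (nb G X p).card + 2 = k + (nb G (X \ P) p).card := by
  have h1 : nb G X p = P.erase p ∪ nb G (X \ P) p := by
    ext u
    rw [mem_union, mem_nb, mem_erase, mem_nb, mem_sdiff]
    constructor
    · rintro ⟨h2, h3⟩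
      by_cases h4 : u ∈ P
      · exact Or.inl ⟨fun h => G.loopless.irrefl p (h ▸ h3), h4⟩
      · exact Or.inr ⟨⟨h2, h4⟩, h3⟩
    · rintro (⟨h2, h3⟩ | ⟨h2, h3⟩)
      · exact ⟨hP h3, hPq p hp u h3 (Ne.symm h2)⟩
      · exact ⟨h2.1, h3⟩
  have h2 : Disjoint (P.erase p) (nb G (X \ P) p) := by
    rw [Finset.disjoint_left]
    intro u hu hu'
    exact (mem_sdiff.1 (mem_nb.1 hu').1).2 (mem_erase.1 hu).2
  rw [h1, Finset.card_union_of_disjoint h2, Finset.card_erase_of_mem hp]
  have : 1 ≤ P.card := Finset.card_pos.2 ⟨p, hp⟩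
  omega

namespace Base
variable {k : ℕ} {X P : Finset V} {c x x' : V} (B : Base G k X P c x x')
include B

theorem symm : Base G k X P c x' x :=
  ⟨B.hP, B.hPc, B.hPq, B.hc, B.hne.symm, by rw [B.hout, Finset.pair_comm]⟩

theorem hx : x ∈ X \ P := (mem_nb.1 (by rw [B.hout]; simp : x ∈ nb G (X \ P) c)).1

theorem hx' : x' ∈ X \ P := (mem_nb.1 (by rw [B.hout]; simp : x' ∈ nb G (X \ P) c)).1

theorem ax : G.Adj c x := (mem_nb.1 (by rw [B.hout]; simp : x ∈ nb G (X \ P) c)).2

theorem ax' : G.Adj c x' := (mem_nb.1 (by rw [B.hout]; simp : x' ∈ nb G (X \ P) c)).2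

theorem na {v : V} (hv : v ∈ X \ P) (h1 : v ≠ x) (h2 : v ≠ x') : ¬ G.Adj c v := by
  intro h
  have h3 : v ∈ nb G (X \ P) c := mem_nb.2 ⟨hv, h⟩
  rw [B.hout, mem_insert, mem_singleton] at h3
  rcases h3 with h3 | h3
  · exact h1 h3
  · exact h2 h3

theorem deg : (nb G X c).card = k := by
  have h1 := card_nbP B.hP B.hPc B.hPq B.hc
  rw [B.hout, Finset.card_pair B.hne] at h1
  omega

theorem hbne : hb X P x x' ≠ X := by
  intro h
  have h1 := B.hP B.hc
  rw [← h, mem_hb] at h1
  exact h1.2.1 B.hc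

theorem card_nbH {p : V} (hp : p ∈ P) :
    (nb G X p).card + 2 = k + (nb G (hb X P x x') p).card + (if G.Adj p x then 1 else 0) +
      (if G.Adj p x' then 1 else 0) := by
  have h1 := card_nbP B.hP B.hPc B.hPq hp
  have h2 := card_nb_hb (G := G) B.hx B.hx' B.hne p
  omega

omit B in
/-- the neighbours of two nonadjacent vertices outside `H` -/
theorem tr2 (hal : al G (hb X P x x') + 1 = al G X) {u v : V} (hu : u ∈ X)
    (hv : v ∈ X) (huH : u ∉ hb X P x x') (hvH : v ∉ hb X P x x') (huv : u ≠ v)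
    (hn : ¬ G.Adj u v) :
    Tr G (hb X P x x') (nb G (hb X P x x') u ∪ nb G (hb X P x x') v) := by
  refine tr_nbr (X := X) (J := {u, v}) hb_sub ?_ ?_ (indep_pair hn) ?_ ?_
  · intro z hz
    rw [mem_insert, mem_singleton] at hz
    rcases hz with rfl | rfl
    · exact hu
    · exact hv
  · rw [Finset.disjoint_left]
    intro z hz hz'
    rw [mem_insert, mem_singleton] at hz
    rcases hz with rfl | rfl
    · exact huH hz'
    · exact hvH hz'
  · rw [Finset.card_pair huv]
    omega
  · intro z hz w hw hzw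
    rw [mem_insert, mem_singleton] at hz
    rcases hz with rfl | rfl
    · exact mem_union_left _ (mem_nb.2 ⟨hw, hzw⟩)
    · exact mem_union_right _ (mem_nb.2 ⟨hw, hzw⟩)

end Base

theorem base_mk {k : ℕ} {X P : Finset V} (hP : P ⊆ X) (hPc : P.card + 1 = k) (hPq : Clq G P)
    {c : V} (hc : c ∈ P) (hd : (nb G X c).card = k) : ∃ x x', Base G k X P c x x' := by
  have h1 := card_nbP hP hPc hPq hc
  have h2 : (nb G (X \ P) c).card = 2 := by omega
  rw [Finset.card_eq_two] at h2
  obtain ⟨x, x', hne, h⟩ := h2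
  exact ⟨x, x', hP, hPc, hPq, hc, hne, h⟩

/-- a base from two neighbours -/
theorem base_mk2 {k : ℕ} {X P : Finset V} (hP : P ⊆ X) (hPc : P.card + 1 = k) (hPq : Clq G P)
    {c : V} (hc : c ∈ P) (hd : (nb G X c).card = k) {x x' : V} (hx : x ∈ X \ P)
    (hx' : x' ∈ X \ P) (hne : x ≠ x') (h1 : G.Adj c x) (h2 : G.Adj c x') :
    Base G k X P c x x' := by
  refine ⟨hP, hPc, hPq, hc, hne, ?_⟩
  symm
  refine Finset.eq_of_subset_of_card_le ?_ ?_
  · intro z hz
    rw [mem_insert, mem_singleton] at hz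
    rcases hz with rfl | rfl
    · exact mem_nb.2 ⟨hx, h1⟩
    · exact mem_nb.2 ⟨hx', h2⟩
  · have h3 := card_nbP hP hPc hPq hc
    rw [Finset.card_pair hne]
    omega

/-- a base from one neighbour -/
theorem base_mk1 {k : ℕ} {X P : Finset V} (hP : P ⊆ X) (hPc : P.card + 1 = k) (hPq : Clq G P)
    {c : V} (hc : c ∈ P) (hd : (nb G X c).card = k) {x : V} (hx : x ∈ X \ P)
    (h1 : G.Adj c x) : ∃ x', Base G k X P c x x' := by
  obtain ⟨y, y', B⟩ := base_mk hP hPc hPq hc hd
  by_cases e : x = y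
  · exact ⟨y', e ▸ B⟩
  · by_cases e' : x = y'
    · exact ⟨y, e' ▸ B.symm⟩
    · exact absurd h1 (B.na hx e e')

/-- removing `P` and `x, x'`: the identity behind (B*) -/
theorem Base.ps_hb {k : ℕ} {X P : Finset V} {c x x' : V} (B : Base G k X P c x x')
    (hge : ∀ v ∈ X, k ≤ (nb G X v).card) (hal : al G (hb X P x x') + 1 = al G X) :
    2 * (((nb G (hb X P x x') x).card : ℤ) + (nb G (hb X P x x') x').card +
      (if G.Adj x x' then 1 else 0) + exs G k X P) + ps G k (hb X P x x') =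
      4 * k - 2 + ps G k X := by
  have hPX := B.hP
  have hxX := mem_sdiff.1 B.hx
  have hxX' := mem_sdiff.1 B.hx'
  -- first remove `P`
  have e1 := e2_sdiff (G := G) hPX
  have e2' := clq_e2 (G := G) B.hPq
  have e3 := sum_ge (G := G) (Y := X) (S := P) k (fun v hv => hge v (hPX hv))
  -- then remove `x, x'`
  have hsub : ({x, x'} : Finset V) ⊆ X \ P := by
    intro z hz
    rw [mem_insert, mem_singleton] at hz
    rcases hz with rfl | rfl
    · exact B.hx
    · exact B.hx'
  have e4 := e2_sdiff (G := G) hsub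
  have e5 : e2 G {x, x'} = 2 * (if G.Adj x x' then 1 else 0) := by
    rw [e2_eq, Finset.sum_pair B.hne]
    have a1 : (nb G {x, x'} x).card = if G.Adj x x' then 1 else 0 := by
      unfold nb
      rw [Finset.filter_insert, Finset.filter_singleton, if_neg (G.loopless.irrefl x)]
      split_ifs <;> simp
    have a2 : (nb G {x, x'} x').card = if G.Adj x x' then 1 else 0 := by
      unfold nb
      rw [Finset.filter_insert, Finset.filter_singleton, if_neg (G.loopless.irrefl x')]
      simp only [G.adj_comm x' x]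
      split_ifs <;> simp
    rw [a1, a2]
    ring
  rw [Finset.sum_pair B.hne] at e4
  have e6 := card_nb_hb (G := G) B.hx B.hx' B.hne x
  have e7 := card_nb_hb (G := G) B.hx B.hx' B.hne x'
  rw [if_neg (G.loopless.irrefl x)] at e6
  rw [if_neg (G.loopless.irrefl x')] at e7
  have e8 : (if G.Adj x' x then 1 else 0 : ℕ) = if G.Adj x x' then 1 else 0 := by
    simp only [G.adj_comm x' x]
  rw [e8] at e7
  have c1 : (X \ P).card + P.card = X.card := Finset.card_sdiff_add_card_eq_card hPX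
  have c2 : ((X \ P) \ {x, x'}).card + 2 = (X \ P).card := by
    rw [← Finset.card_pair B.hne]
    exact Finset.card_sdiff_add_card_eq_card hsub
  have hPc := B.hPc
  obtain ⟨m, rfl⟩ : ∃ m, k = m + 1 := ⟨k - 1, by omega⟩
  have hPm : P.card = m := by omega
  rw [hPm] at e2' e3 c1
  unfold ps
  have hal' : (al G X : ℤ) = al G (hb X P x x') + 1 := by exact_mod_cast hal.symm
  have hcard : (X.card : ℤ) = (hb X P x x').card + 2 + m := by
    have : X.card = (hb X P x x').card + 2 + m := by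
      unfold hb
      omega
    exact_mod_cast this
  obtain ⟨e0, he0⟩ : ∃ e0 : ℕ, (if G.Adj x x' then 1 else 0 : ℕ) = e0 := ⟨_, rfl⟩
  have he0' : (if G.Adj x x' then 1 else 0 : ℤ) = e0 := by
    rw [← he0]
    push_cast
    rfl
  rw [he0] at e5 e6 e7
  rw [he0']
  obtain ⟨D, hD⟩ : ∃ D : ℕ, ∑ v ∈ P, (nb G X v).card = D := ⟨_, rfl⟩
  rw [hD] at e1 e3
  have hHE : e2 G ((X \ P) \ {x, x'}) = e2 G (hb X P x x') := rfl
  rw [hHE, e5] at e4
  have g1 : (e2 G X : ℤ) + e2 G P = e2 G (X \ P) + 2 * D := by exact_mod_cast e1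
  have g2 : (e2 G P : ℤ) + m = m * m := by exact_mod_cast e2'
  have g3 : (D : ℤ) = (m + 1) * m + exs G (m + 1) X P := by exact_mod_cast e3
  have g4 : (e2 G (X \ P) : ℤ) + 2 * e0 = e2 G (hb X P x x') +
      2 * ((nb G (X \ P) x).card + (nb G (X \ P) x').card) := by exact_mod_cast e4
  have g6 : ((nb G (X \ P) x).card : ℤ) = (nb G (hb X P x x') x).card + e0 := by
    have : (nb G (X \ P) x).card = (nb G (hb X P x x') x).card + e0 := by omega
    exact_mod_cast this
  have g7 : ((nb G (X \ P) x').card : ℤ) = (nb G (hb X P x x') x').card + e0 := by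
    have : (nb G (X \ P) x').card = (nb G (hb X P x x') x').card + e0 := by omega
    exact_mod_cast this
  rw [hal', hcard]
  push_cast
  nlinarith

end Pool.Agent.TwoDens.TK
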