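import Pool.Agent.TKE.FN

/-!
Low vertices: constancy lemmas and the first reduction.
-/

open Finset

namespace Pool.Agent.TwoDens.TK

open Pool.Agent.TwoDens Pool.Agent.TwoDens.RK Pool.Agent.TwoDens.DD

variable {V : Type*} [DecidableEq V] {G : SimpleGraph V} [DecidableRel G.Adj]

/-- a vertex with two non-neighbours is the centre -/
theorem StarT.eq {k : ℕ} {Y T : Finset V} {r v : V} (hS : StarT G k Y T r) (hv : v ∈ T)
    (h : 2 ≤ (nb Gᶜ T v).card) : v = r := by
  by_contra hvr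
  have h1 : ∀ w ∈ nb Gᶜ T v, w = r := by
    intro w hw
    have h1 := mem_nb.1 hw
    have h2 := (SimpleGraph.compl_adj _ _ _).1 h1.2
    by_contra e
    exact h2.2 (hS.clq v (mem_erase.2 ⟨hvr, hv⟩) w (mem_erase.2 ⟨e, h1.1⟩) h2.1)
  have h2 : (nb Gᶜ T v).card ≤ 1 := by
    rw [Finset.card_le_one]
    intro w hw z hz
    rw [h1 w hw, h1 z hz]
  omega

theorem nbc_mono {S T : Finset V} (h : S ⊆ T) (v : V) : (nb Gᶜ S v).card ≤ (nb Gᶜ T v).card :=
  Finset.card_le_card (Finset.filter_subset_filter _ h)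

/-- at most two missing neighbours -/
theorem nbc_two {Q : Finset V} {v s t : V} (h : ∀ w ∈ Q, w ≠ s → w ≠ t → G.Adj v w) :
    (nb Gᶜ Q v).card ≤ 2 := by
  have h1 : nb Gᶜ Q v ⊆ {s, t} := by
    intro w hw
    have h2 := mem_nb.1 hw
    have h3 := (SimpleGraph.compl_adj _ _ _).1 h2.2
    rw [mem_insert, mem_singleton]
    by_contra hcon
    push Not at hcon
    exact h3.2 (h w h2.1 hcon.1 hcon.2)
  exact (Finset.card_le_card h1).trans Finset.card_le_two

section uniq
variable {k : ℕ} {X : Finset V} (H : MC G k X) {Y : Finset V} (hY : Y ⊆ X) (hne : Y ≠ X)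
include H hY hne

/-- the extra vertex of a small transversal is determined -/
theorem MC.uniq1 (hp : ps G k Y ≤ 4) {N : Finset V} (hN : N ⊆ Y) (hNc : N.card + 2 = k)
    {y1 y2 : V} (h1 : y1 ∈ Y) (h2 : y2 ∈ Y) (t1 : Tr G Y (insert y1 N))
    (t2 : Tr G Y (insert y2 N)) : y1 = y2 := by
  have hk := H.hk
  have hk' : (20 : ℤ) ≤ k := by exact_mod_cast hk
  have htau := H.tau1 hY hne (by linarith)
  have s1 : insert y1 N ⊆ Y := Finset.insert_subset h1 hN
  have s2 : insert y2 N ⊆ Y := Finset.insert_subset h2 hN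
  have c1 := htau _ s1 t1
  have c2 := htau _ s2 t2
  have n1 : y1 ∉ N := by
    intro e
    rw [Finset.insert_eq_of_mem e] at c1
    omega
  have n2 : y2 ∉ N := by
    intro e
    rw [Finset.insert_eq_of_mem e] at c2
    omega
  have d1 : (insert y1 N).card + 1 = k := by rw [Finset.card_insert_of_notMem n1]; omega
  have d2 : (insert y2 N).card + 1 = k := by rw [Finset.card_insert_of_notMem n2]; omega
  obtain ⟨q1, b1⟩ := H.tr34 hY hne (by linarith) s1 d1 t1
  obtain ⟨q2, b2⟩ := H.tr34 hY hne (by linarith) s2 d2 t2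
  by_contra hcon
  have hb : N.card ≤ bd G Y (insert y1 N) := by
    unfold bd
    calc N.card = ∑ v ∈ N, 1 := by rw [Finset.card_eq_sum_ones]
      _ ≤ ∑ v ∈ N, (nb G Y v \ insert y1 N).card := by
          refine Finset.sum_le_sum fun v hv => ?_
          refine Finset.card_pos.2 ⟨y2, mem_sdiff.2 ⟨mem_nb.2 ⟨h2, ?_⟩, ?_⟩⟩
          · exact q2 v (mem_insert_of_mem hv) y2 (mem_insert_self _ _) (fun e => n2 (e ▸ hv))
          · rw [mem_insert, not_or]
            exact ⟨fun e => hcon e.symm, n2⟩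
      _ ≤ ∑ v ∈ insert y1 N, (nb G Y v \ insert y1 N).card :=
          Finset.sum_le_sum_of_subset (Finset.subset_insert _ _)
  have hb' : (N.card : ℤ) ≤ bd G Y (insert y1 N) := by exact_mod_cast hb
  have hNc' : (N.card : ℤ) + 2 = k := by exact_mod_cast hNc
  linarith

theorem MC.uniq2a (hp : ps G k Y ≤ 1) {N : Finset V} (hN : N ⊆ Y) (hNc : N.card + 1 = k)
    {v : V} (hv : v ∈ X) (hvY : v ∉ Y) (hvN : ∀ w ∈ N, G.Adj v w) {y : V} (hy : y ∈ Y)
    (t : Tr G Y (insert y N)) :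
    y ∉ N ∧ ∃ s ∈ N, Clq G ((insert y N).erase s) ∧ 7 ≤ (nb Gᶜ N s).card := by
  have hk := H.hk
  have hk' : (20 : ℤ) ≤ k := by exact_mod_cast hk
  have htau := H.tau0 hY hne hp
  have s1 : insert y N ⊆ Y := Finset.insert_subset hy hN
  have c1 := htau _ s1 t
  have n1 : y ∉ N := by
    intro e
    rw [Finset.insert_eq_of_mem e] at c1
    omega
  have d1 : (insert y N).card = k := by rw [Finset.card_insert_of_notMem n1]; omega
  obtain ⟨s, hS⟩ := H.star8 hY hne (by linarith) htau s1 d1 t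
  refine ⟨n1, s, ?_⟩
  have hsN : s ∈ N := by
    have h1 := hS.hr
    rw [mem_insert] at h1
    rcases h1 with h1 | h1
    · exfalso
      have h2 := hS.clq
      rw [h1, Finset.erase_insert n1] at h2
      have hvN' : v ∉ N := fun e => hvY (hN e)
      have h3 : Clq G (insert v N) := by
        intro p hp q hq hpq
        rw [mem_insert] at hp hq
        rcases hp with rfl | hp <;> rcases hq with rfl | hq
        · exact absurd rfl hpq
        · exact hvN q hq
        · exact (hvN p hp).symm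
        · exact h2 p hp q hq hpq
      have h4 := H.clq_lt (Finset.insert_subset hv (hN.trans hY)) h3
      rw [Finset.card_insert_of_notMem hvN'] at h4
      omega
    · exact h1
  have hce := Finset.card_erase_add_one hS.hr
  have h5 := H.near2 (Q := (insert y N).erase s) ((Finset.erase_subset _ _).trans (s1.trans hY))
    hS.clq (by omega) (a := s) (b := v) (hY (hN hsN)) hv (fun e => hvY (e ▸ hN hsN))
    (Finset.notMem_erase _ _) (fun e => hvY (s1 (mem_of_mem_erase e)))
  have h6 : (nb Gᶜ ((insert y N).erase s) v).card ≤ 1 := by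
    refine nbc_one (s := y) fun w hw hwy => hvN w ?_
    have := mem_of_mem_erase hw
    rw [mem_insert] at this
    exact this.resolve_left hwy
  have h7 := nbc_mono (G := G) (Finset.erase_subset s (insert y N)) s
  have h8 := nbc_insert_le (G := G) N y s
  exact ⟨hsN, hS.clq, by omega⟩

theorem MC.uniq2 (hp : ps G k Y ≤ 1) {N : Finset V} (hN : N ⊆ Y) (hNc : N.card + 1 = k)
    {v : V} (hv : v ∈ X) (hvY : v ∉ Y) (hvN : ∀ w ∈ N, G.Adj v w) {y1 y2 : V} (h1 : y1 ∈ Y)
    (h2 : y2 ∈ Y) (t1 : Tr G Y (insert y1 N)) (t2 : Tr G Y (insert y2 N)) : y1 = y2 := by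
  have hk := H.hk
  obtain ⟨n1, s1, m1, q1, b1⟩ := H.uniq2a hY hne hp hN hNc hv hvY hvN h1 t1
  obtain ⟨n2, s2, m2, q2, b2⟩ := H.uniq2a hY hne hp hN hNc hv hvY hvN h2 t2
  have hs : s1 = s2 := by
    by_contra hcon
    have : (nb Gᶜ N s1).card ≤ 1 := by
      refine le_trans (Finset.card_le_card ?_) (Finset.card_singleton s2).le
      intro w hw
      have h3 := mem_nb.1 hw
      have h4 := (SimpleGraph.compl_adj _ _ _).1 h3.2
      rw [mem_singleton]
      by_contra e
      exact h4.2 (q2 s1 (mem_erase.2 ⟨hcon, mem_insert_of_mem m1⟩) w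
        (mem_erase.2 ⟨e, mem_insert_of_mem h3.1⟩) h4.1)
    omega
  subst hs
  by_contra hcon
  have hce := Finset.card_erase_add_one m1
  have hsub : N.erase s1 ⊆ X := (Finset.erase_subset _ _).trans (hN.trans hY)
  have hvN' : v ∉ N := fun e => hvY (hN e)
  have hyv : ∀ y ∈ Y, v ≠ y := fun y hy e => hvY (e ▸ hy)
  have h5 := H.near3 (Q := N.erase s1) hsub
    (fun p hp q hq hpq => q1 p (mem_erase.2 ⟨ne_of_mem_erase hp, mem_insert_of_mem
      (mem_of_mem_erase hp)⟩) q (mem_erase.2 ⟨ne_of_mem_erase hq, mem_insert_of_mem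
      (mem_of_mem_erase hq)⟩) hpq) (by omega) (a := v) (b := y1) (c := y2) hv (hY h1) (hY h2)
    (hyv _ h1) (hyv _ h2) hcon (fun e => hvN' (mem_of_mem_erase e))
    (fun e => n1 (mem_of_mem_erase e)) (fun e => n2 (mem_of_mem_erase e))
  have e1 : (nb Gᶜ (N.erase s1) v).card = 0 :=
    nbc_zero fun w hw => hvN w (mem_of_mem_erase hw)
  have e2' : (nb Gᶜ (N.erase s1) y1).card = 0 :=
    nbc_zero fun w hw => q1 y1 (mem_erase.2 ⟨fun e => n1 (e ▸ m1), mem_insert_self _ _⟩) w
      (mem_erase.2 ⟨ne_of_mem_erase hw, mem_insert_of_mem (mem_of_mem_erase hw)⟩)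
      (fun e => n1 (e ▸ mem_of_mem_erase hw))
  have e3 : (nb Gᶜ (N.erase s1) y2).card = 0 :=
    nbc_zero fun w hw => q2 y2 (mem_erase.2 ⟨fun e => n2 (e ▸ m1), mem_insert_self _ _⟩) w
      (mem_erase.2 ⟨ne_of_mem_erase hw, mem_insert_of_mem (mem_of_mem_erase hw)⟩)
      (fun e => n2 (e ▸ mem_of_mem_erase hw))
  omega

end uniq

namespace Fr
variable {k : ℕ} {X P : Finset V} (F : Fr G k X P)
include F

theorem ge2 {c x x' : V} (B : Base G k X P c x x') :
    k ≤ (nb G (hb X P x x') x).card + 2 := by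
  obtain ⟨u, hu, hud, hxu⟩ := F.ns B.hx
  have h1 : ¬ G.Adj u x' := fun e => hxu ((F.iff B hu hud).2 e).symm
  have n1 := F.nbH B hu
  rw [hud, ad_zero (fun e => hxu e.symm), ad_zero h1] at n1
  have := F.card_xu' B hu hxu
  omega

theorem low0 {c x x' : V} (B : Base G k X P c x x')
    (hf : (nb G (hb X P x x') x).card + 2 = k) :
    G.Adj x x' ∧ 2 * ((nb G (hb X P x x') x').card : ℤ) + 2 * (exs G k X P : ℤ) +
      ps G k (hb X P x x') ≤ 2 * k - 2 := by
  obtain ⟨u, hu, hud, hxu⟩ := F.ns B.hx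
  have h1 : ¬ G.Adj u x' := fun e => hxu ((F.iff B hu hud).2 e).symm
  have n1 := F.nbH B hu
  rw [hud, ad_zero (fun e => hxu e.symm), ad_zero h1] at n1
  have hxx : G.Adj x x' := by
    by_contra hcon
    refine F.lemG B hcon hu hxu (fun e => h1 e.symm) ?_
    exact (Finset.card_union_le _ _).trans (by omega)
  have h3 := (F.bp _ _ _ B).bstar
  rw [if_pos hxx] at h3
  have h5 := F.mc.ps_le
  have hf' : ((nb G (hb X P x x') x).card : ℤ) + 2 = k := by exact_mod_cast hf
  exact ⟨hxx, by linarith⟩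

/-- the `k`-transversal at a low vertex -/
theorem lowT {c x x' : V} (B : Base G k X P c x x')
    (hf : (nb G (hb X P x x') x).card + 2 = k) {u y y' : V} (Bu : Base G k X P u y y')
    (hxu : ¬ G.Adj x u) :
    y ∈ hb X P x x' ∧ y' ∈ hb X P x x' ∧ y ∉ nb G (hb X P x x') x ∧
    y' ∉ nb G (hb X P x x') x ∧ ∃ r,
      StarT G k (hb X P x x') (insert y (insert y' (nb G (hb X P x x') x))) r ∧
      7 ≤ (nb Gᶜ ((insert y (insert y' (nb G (hb X P x x') x))).erase r) r).card := by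
  have hk := F.mc.hk
  have hxX := mem_sdiff.1 B.hx
  have hxu' : ¬ G.Adj u x := fun e => hxu e.symm
  have hux' : ¬ G.Adj u x' := fun e => hxu ((F.iff B Bu.hc Bu.deg).2 e).symm
  have hy := mem_sdiff.1 Bu.hx
  have hy' := mem_sdiff.1 Bu.hx'
  have m1 : y ∈ hb X P x x' := mem_hb.2 ⟨hy.1, hy.2, fun e => hxu' (e ▸ Bu.ax),
    fun e => hux' (e ▸ Bu.ax)⟩
  have m2 : y' ∈ hb X P x x' := mem_hb.2 ⟨hy'.1, hy'.2, fun e => hxu' (e ▸ Bu.ax'),
    fun e => hux' (e ▸ Bu.ax')⟩
  have htr := F.tr_xu B Bu.hc hxu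
  have hbp := F.bp _ _ _ B
  have hps4 := hbp.ps4
  have htau := hbp.tau
  have hHX : hb X P x x' ⊆ X := hb_sub
  have hHne := B.hbne
  have hNu : nb G (hb X P x x') u ⊆ {y, y'} := by
    rw [nb_hb, Bu.hout]
    exact Finset.sdiff_subset
  have hxH : x ∉ hb X P x x' := fun e => (mem_hb.1 e).2.2.1 rfl
  obtain ⟨H, hH⟩ : ∃ H, H = hb X P x x' := ⟨_, rfl⟩
  rw [← hH] at hf m1 m2 htr hps4 htau hHX hHne hNu hxH ⊢
  obtain ⟨N, hN⟩ : ∃ N, N = nb G H x := ⟨_, rfl⟩
  have hxa : ∀ w ∈ N, G.Adj x w := by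
    intro w hw
    rw [hN] at hw
    exact (mem_nb.1 hw).2
  have hNH : N ⊆ H := by rw [hN]; exact nb_sub _ _
  rw [← hN] at hf htr ⊢
  have hTH : insert y (insert y' N) ⊆ H :=
    Finset.insert_subset m1 (Finset.insert_subset m2 hNH)
  have htr2 : Tr G H (insert y (insert y' N)) := by
    refine tr_mono htr fun w hw => ?_
    have hw1 := mem_union.1 (mem_inter.1 hw).1
    rcases hw1 with h | h
    · exact mem_insert_of_mem (mem_insert_of_mem h)
    · have := hNu h
      rw [mem_insert, mem_singleton] at this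
      rcases this with rfl | rfl
      · exact mem_insert_self _ _
      · exact mem_insert_of_mem (mem_insert_self _ _)
  have hc := htau _ hTH htr2
  have c1 := Finset.card_insert_le y' N
  have c2 := Finset.card_insert_le y (insert y' N)
  have n1 : y' ∉ N := by
    intro e
    rw [Finset.insert_eq_of_mem e] at c2 hc
    omega
  have n2 : y ∉ N := by
    intro e
    rw [Finset.insert_eq_of_mem (mem_insert_of_mem e)] at hc
    omega
  have hTc : (insert y (insert y' N)).card = k := by omega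
  obtain ⟨r, hS⟩ := F.mc.star8 hHX hHne hps4 htau hTH hTc htr2
  refine ⟨m1, m2, n2, n1, r, hS, ?_⟩
  have hce := Finset.card_erase_add_one hS.hr
  have h5 := F.mc.near2 (Q := (insert y (insert y' N)).erase r)
    ((Finset.erase_subset _ _).trans (hTH.trans hHX))
    hS.clq (by omega) (a := r) (b := x) (hHX (hTH hS.hr)) hxX.1
    (fun e => hxH (e ▸ hTH hS.hr)) (Finset.notMem_erase _ _)
    (fun e => hxH (hTH (mem_of_mem_erase e)))
  have h6 : (nb Gᶜ ((insert y (insert y' N)).erase r) x).card ≤ 2 := by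
    refine nbc_two (s := y) (t := y') fun w hw h1 h2 => hxa w ?_
    have h3 := mem_of_mem_erase hw
    rw [mem_insert, mem_insert] at h3
    exact (h3.resolve_left h1).resolve_left h2
  omega

/-- the centre is not a neighbour of `x` (first form) -/
theorem low1a {c x x' : V} (B : Base G k X P c x x')
    (hf : (nb G (hb X P x x') x).card + 2 = k) {u y y' : V} (Bu : Base G k X P u y y')
    (hxu : ¬ G.Adj x u) {r : V}
    (hS : StarT G k (hb X P x x') (insert y (insert y' (nb G (hb X P x x') x))) r)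
    (hr : r ∈ nb G (hb X P x x') x)
    (hms : 7 ≤ (nb Gᶜ ((insert y (insert y' (nb G (hb X P x x') x))).erase r) r).card)
    (hfy : (nb G (hb X P y y') y).card + 2 = k) : False := by
  have hk := F.mc.hk
  have hxX := mem_sdiff.1 B.hx
  have hxX' := mem_sdiff.1 B.hx'
  have hyX := mem_sdiff.1 Bu.hx
  obtain ⟨m1, m2, n1, n2, -⟩ := F.lowT B hf Bu hxu
  have m1' := mem_hb.1 m1
  have m2' := mem_hb.1 m2
  have hcy : ¬ G.Adj c y := B.na Bu.hx m1'.2.2.1 m1'.2.2.2
  obtain ⟨p1, p2, o1, o2, r', hS', hms'⟩ := F.lowT Bu hfy B (fun e => hcy e.symm)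
  have hHX : hb X P x x' ⊆ X := hb_sub
  obtain ⟨N, hN⟩ : ∃ N, N = nb G (hb X P x x') x := ⟨_, rfl⟩
  obtain ⟨N', hN'⟩ : ∃ N', N' = nb G (hb X P y y') y := ⟨_, rfl⟩
  have hmN : ∀ {w : V}, w ∈ N ↔ (w ∈ X ∧ w ∉ P ∧ w ≠ x ∧ w ≠ x') ∧ G.Adj x w := by
    intro w
    rw [hN, mem_nb, mem_hb]
  have hmN' : ∀ {w : V}, w ∈ N' ↔ (w ∈ X ∧ w ∉ P ∧ w ≠ y ∧ w ≠ y') ∧ G.Adj y w := by
    intro w
    rw [hN', mem_nb, mem_hb]
  rw [← hN] at hf hS hr hms n1 n2
  rw [← hN'] at hfy hS' hms' o1 o2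
  have hry : r ≠ y := fun e => n1 (e ▸ hr)
  have hry' : r ≠ y' := fun e => n2 (e ▸ hr)
  have hTX : insert y (insert y' N) ⊆ X := hS.hT.trans hHX
  have hxT : x ∉ insert y (insert y' N) := fun e => (mem_hb.1 (hS.hT e)).2.2.1 rfl
  have hxT' : x' ∉ insert y (insert y' N) := fun e => (mem_hb.1 (hS.hT e)).2.2.2 rfl
  have hce := Finset.card_erase_add_one hS.hr
  rw [hS.hc] at hce
  have h5 := F.mc.near2 (Q := (insert y (insert y' N)).erase r)
    ((Finset.erase_subset _ _).trans hTX)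
    hS.clq hce (a := x) (b := x') hxX.1 hxX'.1 B.hne
    (fun e => hxT (mem_of_mem_erase e)) (fun e => hxT' (mem_of_mem_erase e))
  have h6 : (nb Gᶜ ((insert y (insert y' N)).erase r) x).card ≤ 2 := by
    refine nbc_two (s := y) (t := y') fun w hw h1 h2 => ?_
    have h3 := mem_of_mem_erase hw
    rw [mem_insert, mem_insert] at h3
    exact (hmN.1 ((h3.resolve_left h1).resolve_left h2)).2
  have h7 : (nb Gᶜ ((insert y (insert y' N)).erase r) x').card ≤
      (nb Gᶜ (N.erase r) x').card + 2 := by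
    have e1 : (insert y (insert y' N)).erase r = insert y (insert y' (N.erase r)) := by
      rw [Finset.erase_insert_of_ne (Ne.symm hry), Finset.erase_insert_of_ne (Ne.symm hry')]
    rw [e1]
    have h8 := nbc_insert_le (G := G) (insert y' (N.erase r)) y x'
    have h9 := nbc_insert_le (G := G) (N.erase r) y' x'
    omega
  have hyT : y ∈ (insert y (insert y' N)).erase r :=
    mem_erase.2 ⟨Ne.symm hry, mem_insert_self _ _⟩
  have hsub : N.erase r ⊆ N' := by
    intro w hw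
    have hwN := mem_of_mem_erase hw
    have hw' := hmN.1 hwN
    have hwy : w ≠ y := fun e => n1 (e ▸ hwN)
    have hwy' : w ≠ y' := fun e => n2 (e ▸ hwN)
    refine hmN'.2 ⟨⟨hw'.1.1, hw'.1.2.1, hwy, hwy'⟩, ?_⟩
    exact hS.clq y hyT w (mem_erase.2 ⟨ne_of_mem_erase hw,
      mem_insert_of_mem (mem_insert_of_mem hwN)⟩) (Ne.symm hwy)
  have h10 := nbc_mono (G := G) (S := N.erase r) (T := insert x (insert x' N'))
    (hsub.trans ((Finset.subset_insert _ _).trans (Finset.subset_insert _ _))) x'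
  have hx'r : x' = r' := hS'.eq (mem_insert_of_mem (mem_insert_self _ _)) (by omega)
  have hcq := hS'.clq
  rw [← hx'r] at hcq
  have hxm : x ∈ (insert x (insert x' N')).erase x' :=
    mem_erase.2 ⟨B.hne, mem_insert_self _ _⟩
  have hm : ∀ {w : V}, w ∈ N' → w ∈ (insert x (insert x' N')).erase x' := by
    intro w hw
    exact mem_erase.2 ⟨fun e => o2 (e ▸ hw), mem_insert_of_mem (mem_insert_of_mem hw)⟩
  have hsub2 : N' ⊆ N := by
    intro w hw
    have hw' := hmN'.1 hw
    have hwx : w ≠ x := fun e => o1 (e ▸ hw)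
    have hwx' : w ≠ x' := fun e => o2 (e ▸ hw)
    exact hmN.2 ⟨⟨hw'.1.1, hw'.1.2.1, hwx, hwx'⟩, hcq x hxm w (hm hw) (Ne.symm hwx)⟩
  have hEq : N' = N := Finset.eq_of_subset_of_card_le hsub2 (by omega)
  have hrN' : r ∈ N' := by rw [hEq]; exact hr
  have h11 : (nb Gᶜ ((insert y (insert y' N)).erase r) r).card ≤ 2 := by
    refine nbc_two (s := y) (t := y') fun w hw h1 h2 => ?_
    have h3 := mem_erase.1 hw
    rw [mem_insert, mem_insert] at h3
    have hwN := (h3.2.resolve_left h1).resolve_left h2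
    rw [← hEq] at hwN
    exact hcq r (hm hrN') w (hm hwN) (Ne.symm h3.1)
  omega

/-- the centre is not a neighbour of `x` -/
theorem low1 {c x x' : V} (B : Base G k X P c x x')
    (hf : (nb G (hb X P x x') x).card + 2 = k) {u y y' : V} (Bu : Base G k X P u y y')
    (hxu : ¬ G.Adj x u) {r : V}
    (hS : StarT G k (hb X P x x') (insert y (insert y' (nb G (hb X P x x') x))) r)
    (hr : r ∈ nb G (hb X P x x') x)
    (hms : 7 ≤ (nb Gᶜ ((insert y (insert y' (nb G (hb X P x x') x))).erase r) r).card) :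
    False := by
  have hk := F.mc.hk
  obtain ⟨m1, m2, n1, n2, -⟩ := F.lowT B hf Bu hxu
  have hry : r ≠ y := fun e => n1 (e ▸ hr)
  have hry' : r ≠ y' := fun e => n2 (e ▸ hr)
  have hyy : G.Adj y y' := hS.clq y (mem_erase.2 ⟨Ne.symm hry, mem_insert_self _ _⟩) y'
    (mem_erase.2 ⟨Ne.symm hry', mem_insert_of_mem (mem_insert_self _ _)⟩) Bu.hne
  have h3 := (F.bp _ _ _ Bu).bstar
  have h4 := (F.bp _ _ _ Bu).ps0
  have h5 := F.mc.ps_le
  rw [if_pos hyy] at h3
  have g1 := F.ge2 Bu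
  have g2 := F.ge2 Bu.symm
  rw [hb_comm X P y' y] at g2
  have h6 := Int.natCast_nonneg (exs G k X P)
  by_cases hc : (nb G (hb X P y y') y).card + 2 = k
  · exact F.low1a B hf Bu hxu hS hr hms hc
  · have g1' : k ≤ (nb G (hb X P y y') y).card + 1 := by omega
    have g1'' : (k : ℤ) ≤ (nb G (hb X P y y') y).card + 1 := by exact_mod_cast g1'
    have g3 : ((nb G (hb X P y y') y').card : ℤ) + 2 ≤ k := by linarith
    have g3' : (nb G (hb X P y y') y').card + 2 ≤ k := by exact_mod_cast g3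
    rw [Finset.insert_comm] at hS hms
    refine F.low1a B hf Bu.symm hxu hS hr hms ?_
    rw [hb_comm X P y' y]
    omega

end Fr

end Pool.Agent.TwoDens.TK
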