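import Pool.Agent.TKE.LA

/-!
Low vertices: the second type of centre.
-/

open Finset

namespace Pool.Agent.TwoDens.TK

open Pool.Agent.TwoDens Pool.Agent.TwoDens.RK Pool.Agent.TwoDens.DD

variable {V : Type*} [DecidableEq V] {G : SimpleGraph V} [DecidableRel G.Adj]

/-- configuration at a low vertex with centre outside the neighbourhood -/
structure LW (G : SimpleGraph V) [DecidableRel G.Adj] (k : ℕ) (X P : Finset V)
    (c x x' u p r : V) (Q : Finset V) : Prop where
  F : Fr G k X P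
  B : Base G k X P c x x'
  Bu : Base G k X P u p r
  hQ : nb G (hb X P x x') x = Q
  hf : Q.card + 2 = k
  xu : ¬ G.Adj x u
  pH : p ∈ hb X P x x'
  rH : r ∈ hb X P x x'
  pQ : p ∉ Q
  rQ : r ∉ Q
  st : StarT G k (hb X P x x') (insert r (insert p Q)) r
  ms : 6 ≤ (nb Gᶜ Q r).card

namespace LW
variable {k : ℕ} {X P : Finset V} {c x x' u p r : V} {Q : Finset V}
  (l : LW G k X P c x x' u p r Q)
include l

theorem axx : G.Adj x x' := (l.F.low0 l.B (by rw [l.hQ]; exact l.hf)).1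

theorem num : 2 * ((nb G (hb X P x x') x').card : ℤ) + 2 * (exs G k X P : ℤ) +
    ps G k (hb X P x x') ≤ 2 * k - 2 := (l.F.low0 l.B (by rw [l.hQ]; exact l.hf)).2

theorem memQ {w : V} : w ∈ Q ↔ (w ∈ X ∧ w ∉ P ∧ w ≠ x ∧ w ≠ x') ∧ G.Adj x w := by
  rw [← l.hQ, mem_nb, mem_hb]

theorem ux : ¬ G.Adj u x := fun e => l.xu e.symm

theorem ux' : ¬ G.Adj u x' := fun e => l.xu ((l.F.iff l.B l.Bu.hc l.Bu.deg).2 e).symm

theorem xp : ¬ G.Adj x p := fun e => l.pQ (l.memQ.2 ⟨mem_hb.1 l.pH, e⟩)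

theorem xr : ¬ G.Adj x r := fun e => l.rQ (l.memQ.2 ⟨mem_hb.1 l.rH, e⟩)

theorem clqQ : Clq G (insert p Q) := by
  have h := l.st.clq
  rw [Finset.erase_insert] at h
  · exact h
  · rw [mem_insert, not_or]
    exact ⟨l.Bu.hne.symm, l.rQ⟩

theorem QX : Q ⊆ X := fun _ hw => (l.memQ.1 hw).1.1

theorem Qp {w : V} (hw : w ∈ Q) : w ≠ p := fun e => l.pQ (e ▸ hw)

theorem Qr {w : V} (hw : w ∈ Q) : w ≠ r := fun e => l.rQ (e ▸ hw)

theorem QuN {w : V} (hw : w ∈ Q) : ¬ G.Adj u w :=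
  l.Bu.na (mem_sdiff.2 ⟨(l.memQ.1 hw).1.1, (l.memQ.1 hw).1.2.1⟩) (l.Qp hw) (l.Qr hw)

theorem QcN {w : V} (hw : w ∈ Q) : ¬ G.Adj c w :=
  l.B.na (mem_sdiff.2 ⟨(l.memQ.1 hw).1.1, (l.memQ.1 hw).1.2.1⟩) (l.memQ.1 hw).1.2.2.1
    (l.memQ.1 hw).1.2.2.2

theorem xHu : x ∈ hb X P p r :=
  mem_hb.2 ⟨(mem_sdiff.1 l.B.hx).1, (mem_sdiff.1 l.B.hx).2,
    fun e => (mem_hb.1 l.pH).2.2.1 e.symm, fun e => (mem_hb.1 l.rH).2.2.1 e.symm⟩

theorem xHu' : x' ∈ hb X P p r :=
  mem_hb.2 ⟨(mem_sdiff.1 l.B.hx').1, (mem_sdiff.1 l.B.hx').2,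
    fun e => (mem_hb.1 l.pH).2.2.2 e.symm, fun e => (mem_hb.1 l.rH).2.2.2 e.symm⟩

theorem xQ : x ∉ Q := fun e => (l.memQ.1 e).1.2.2.1 rfl

theorem xQ' : x' ∉ Q := fun e => (l.memQ.1 e).1.2.2.2 rfl

theorem mem_z {w : V} : w ∈ hb X P x x' \ insert r (insert p Q) ↔
    w ∈ X ∧ w ∉ P ∧ w ≠ x ∧ w ≠ x' ∧ w ≠ p ∧ w ≠ r ∧ w ∉ Q := by
  rw [mem_sdiff, mem_hb, mem_insert, mem_insert]
  tauto

theorem zeq : hb X P x x' \ insert r (insert p Q) = hb X P p r \ insert x' (insert x Q) := by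
  ext w
  rw [l.mem_z, mem_sdiff, mem_hb, mem_insert, mem_insert]
  tauto

theorem zX : hb X P x x' \ insert r (insert p Q) ⊆ X := sdiff_subset.trans hb_sub

theorem zne : hb X P x x' \ insert r (insert p Q) ≠ X := by
  intro e
  have h1 := (mem_sdiff.1 l.B.hx).1
  rw [← e] at h1
  exact (mem_hb.1 (mem_sdiff.1 h1).1).2.2.1 rfl

/-- facts from the star at `r` -/
theorem star1 : k ≤ (nb G (hb X P x x') r \ insert r (insert p Q)).card + 2 ∧
    exs G (k - 1) (hb X P x x') (insert p Q) ≤ 2 ∧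
    ps G k (hb X P x x' \ insert r (insert p Q)) +
      2 * ((nb G (hb X P x x') r \ insert r (insert p Q)).card : ℤ) ≤
      ps G k (hb X P x x') + 2 * k - 2 ∧
    al G (hb X P x x' \ insert r (insert p Q)) + 2 = al G X := by
  have hk := l.F.mc.hk
  have hbp := l.F.bp _ _ _ l.B
  have hne := l.B.hbne
  have h5 := l.F.mc.star5 hb_sub hne hbp.ps4 l.st (by
    have := nbc_mono (G := G) (S := Q) (T := insert r (insert p Q))
      ((Finset.subset_insert _ _).trans (Finset.subset_insert _ _)) r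
    have := l.ms
    omega) hbp.tau
  have hpsT := l.st.psT
  have hal := l.st.alT
  have hal2 := hbp.alH
  have e1 : (insert r (insert p Q)).erase r = insert p Q := by
    apply Finset.erase_insert
    rw [mem_insert, not_or]
    exact ⟨l.Bu.hne.symm, l.rQ⟩
  rw [e1] at h5 hpsT
  obtain ⟨s1, s2⟩ := h5
  have g1 := l.F.ge2 l.B.symm
  rw [hb_comm X P x' x] at g1
  have g1' : (k : ℤ) ≤ (nb G (hb X P x x') x').card + 2 := by exact_mod_cast g1
  have hn := l.num
  have h6 := Int.natCast_nonneg (exs G k X P)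
  have h7 := Int.natCast_nonneg (exs G (k - 1) (hb X P x x') (insert p Q))
  have h8 : (exs G (k - 1) (hb X P x x') (insert p Q) : ℤ) ≤ 2 := by linarith
  refine ⟨s1, by exact_mod_cast h8, by linarith, by omega⟩

/-- the star at `x'` in the other base -/
theorem star2 : StarT G k (hb X P p r) (insert x' (insert x Q)) x' ∧
    exs G (k - 1) (hb X P p r) (insert x Q) ≤ 3 := by
  have hk := l.F.mc.hk
  have hbp := l.F.bp _ _ _ l.Bu
  have hne := l.Bu.hbne
  have hx'X := (mem_sdiff.1 l.B.hx').1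
  have hxX := (mem_sdiff.1 l.B.hx).1
  have hxQ' : x' ∉ insert x Q := by
    rw [mem_insert, not_or]
    exact ⟨l.B.hne.symm, l.xQ'⟩
  have hcl : cl G (hb X P p r) x = insert x' (insert x Q) := by
    unfold cl
    ext w
    rw [mem_insert, mem_nb, mem_hb, mem_insert, mem_insert, l.memQ]
    constructor
    · rintro (h | ⟨⟨h1, h2, h3, h4⟩, h5⟩)
      · exact Or.inr (Or.inl h)
      · by_cases e : w = x'
        · exact Or.inl e
        · exact Or.inr (Or.inr ⟨⟨h1, h2, fun e' => G.loopless.irrefl x (e' ▸ h5), e⟩, h5⟩)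
    · rintro (h | h | ⟨⟨h1, h2, h3, h4⟩, h5⟩)
      · right
        rw [h]
        exact ⟨mem_hb.1 l.xHu', l.axx⟩
      · exact Or.inl h
      · refine Or.inr ⟨⟨h1, h2, fun e => l.xp (e ▸ h5), fun e => l.xr (e ▸ h5)⟩, h5⟩
  have htr := tr_cl (G := G) l.xHu
  have hsub := cl_sub (G := G) l.xHu
  rw [hcl] at htr hsub
  have hc : (insert x' (insert x Q)).card = k := by
    rw [Finset.card_insert_of_notMem hxQ', Finset.card_insert_of_notMem l.xQ]
    exact l.hf
  obtain ⟨s, hS⟩ := l.F.mc.star8 hb_sub hne hbp.ps4 hbp.tau hsub hc htr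
  have hpX := (mem_hb.1 l.pH).1
  have h5 := l.F.mc.near3 (Q := Q) l.QX (fun a ha b hb => l.clqQ a (mem_insert_of_mem ha) b
      (mem_insert_of_mem hb)) l.hf (a := x) (b := p) (c := x') hxX hpX hx'X
    (fun e => (mem_hb.1 l.pH).2.2.1 e.symm) l.B.hne
    (fun e => (mem_hb.1 l.pH).2.2.2 e) l.xQ l.pQ l.xQ'
  have e1 : (nb Gᶜ Q x).card = 0 := nbc_zero fun w hw => (l.memQ.1 hw).2
  have e2' : (nb Gᶜ Q p).card = 0 := nbc_zero fun w hw =>
    l.clqQ p (mem_insert_self _ _) w (mem_insert_of_mem hw) (l.Qp hw).symm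
  have h6 := nbc_mono (G := G) (S := Q) (T := insert x' (insert x Q))
      ((Finset.subset_insert _ _).trans (Finset.subset_insert _ _)) x'
  have hxs : x' = s := hS.eq (mem_insert_self _ _) (by omega)
  rw [← hxs] at hS
  refine ⟨hS, ?_⟩
  obtain ⟨s1, s2⟩ := l.F.mc.star5 hb_sub hne hbp.ps4 hS (by omega) hbp.tau
  rw [Finset.erase_insert hxQ'] at s2
  have h7 := hbp.ps4
  have h8 : (exs G (k - 1) (hb X P p r) (insert x Q) : ℤ) ≤ 3 := by linarith
  exact_mod_cast h8

/-- degrees of the vertices of `Q` -/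
theorem degQ {w : V} (hw : w ∈ Q) :
    (nb G (hb X P x x') w).card + (nb Gᶜ (insert r (insert p Q)) w).card + 1 =
      k + (nb G (hb X P x x' \ insert r (insert p Q)) w).card ∧
    (nb G (hb X P p r) w).card + (nb Gᶜ (insert x' (insert x Q)) w).card + 1 =
      k + (nb G (hb X P x x' \ insert r (insert p Q)) w).card := by
  have e : ∀ {Y T : Finset V}, nb G Y w \ T = nb G (Y \ T) w := by
    intro Y T
    ext v
    rw [mem_sdiff, mem_nb, mem_nb, mem_sdiff]
    tauto
  have h1 := deg_split (G := G) l.st.hT (u := w) (mem_insert_of_mem (mem_insert_of_mem hw))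
  have h2 := deg_split (G := G) l.star2.1.hT (u := w)
    (mem_insert_of_mem (mem_insert_of_mem hw))
  rw [l.st.hc, e] at h1
  rw [l.star2.1.hc, e, ← l.zeq] at h2
  exact ⟨h1, h2⟩

theorem nbc1 {w : V} (hw : w ∈ Q) : (nb Gᶜ (insert r (insert p Q)) w).card ≤ 1 ∧
    (G.Adj w r → (nb Gᶜ (insert r (insert p Q)) w).card = 0) ∧
    (¬ G.Adj w r → 1 ≤ (nb Gᶜ (insert r (insert p Q)) w).card) := by
  have h0 : ∀ v ∈ insert r (insert p Q), v ≠ w → v ≠ r → G.Adj w v := by
    intro v hv hvw h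
    rw [mem_insert] at hv
    exact l.clqQ w (mem_insert_of_mem hw) v (hv.resolve_left h) (Ne.symm hvw)
  have h1 : nb Gᶜ (insert r (insert p Q)) w ⊆ {r} := by
    intro v hv
    have h2 := mem_nb.1 hv
    have h3 := (SimpleGraph.compl_adj _ _ _).1 h2.2
    rw [mem_singleton]
    by_contra e
    exact h3.2 (h0 v h2.1 (Ne.symm h3.1) e)
  refine ⟨(Finset.card_le_card h1).trans (Finset.card_singleton r).le, ?_, ?_⟩
  · intro h
    rw [Finset.card_eq_zero, Finset.eq_empty_iff_forall_notMem]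
    intro v hv
    have h2 := h1 hv
    rw [mem_singleton] at h2
    have h3 := (SimpleGraph.compl_adj _ _ _).1 (mem_nb.1 hv).2
    exact h3.2 (h2 ▸ h)
  · intro h
    refine Finset.card_pos.2 ⟨r, mem_nb.2 ⟨mem_insert_self _ _, ?_⟩⟩
    exact (SimpleGraph.compl_adj _ _ _).2 ⟨l.Qr hw, h⟩

theorem nbc2 {w : V} (hw : w ∈ Q) : (nb Gᶜ (insert x' (insert x Q)) w).card ≤ 1 ∧
    (G.Adj w x' → (nb Gᶜ (insert x' (insert x Q)) w).card = 0) ∧
    (¬ G.Adj w x' → 1 ≤ (nb Gᶜ (insert x' (insert x Q)) w).card) := by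
  have h0 : ∀ v ∈ insert x' (insert x Q), v ≠ w → v ≠ x' → G.Adj w v := by
    intro v hv hvw h
    rw [mem_insert, mem_insert] at hv
    rcases hv with hv | hv | hv
    · exact absurd hv h
    · rw [hv]
      exact (l.memQ.1 hw).2.symm
    · exact l.clqQ w (mem_insert_of_mem hw) v (mem_insert_of_mem hv) (Ne.symm hvw)
  have h1 : nb Gᶜ (insert x' (insert x Q)) w ⊆ {x'} := by
    intro v hv
    have h2 := mem_nb.1 hv
    have h3 := (SimpleGraph.compl_adj _ _ _).1 h2.2
    rw [mem_singleton]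
    by_contra e
    exact h3.2 (h0 v h2.1 (Ne.symm h3.1) e)
  refine ⟨(Finset.card_le_card h1).trans (Finset.card_singleton x').le, ?_, ?_⟩
  · intro h
    rw [Finset.card_eq_zero, Finset.eq_empty_iff_forall_notMem]
    intro v hv
    have h2 := h1 hv
    rw [mem_singleton] at h2
    have h3 := (SimpleGraph.compl_adj _ _ _).1 (mem_nb.1 hv).2
    exact h3.2 (h2 ▸ h)
  · intro h
    refine Finset.card_pos.2 ⟨x', mem_nb.2 ⟨mem_insert_self _ _, ?_⟩⟩
    exact (SimpleGraph.compl_adj _ _ _).2 ⟨fun e => l.xQ' (e ▸ hw), h⟩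

end LW

/-- vertices of positive excess are few -/
theorem few_exs {d : ℕ} {Y S : Finset V} :
    (S.filter (fun v => d < (nb G Y v).card)).card ≤ exs G d Y S := by
  unfold exs
  calc (S.filter (fun v => d < (nb G Y v).card)).card
      = ∑ v ∈ S.filter (fun v => d < (nb G Y v).card), 1 := by rw [Finset.card_eq_sum_ones]
    _ ≤ ∑ v ∈ S.filter (fun v => d < (nb G Y v).card), ((nb G Y v).card - d) := by
        refine Finset.sum_le_sum fun v hv => ?_
        have := (mem_filter.1 hv).2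
        omega
    _ ≤ ∑ v ∈ S, ((nb G Y v).card - d) :=
        Finset.sum_le_sum_of_subset (Finset.filter_subset _ _)

namespace LW
variable {k : ℕ} {X P : Finset V} {c x x' u p r : V} {Q : Finset V}
  (l : LW G k X P c x x' u p r Q)
include l

/-- the set of the vertices of `Q` with the typical degrees -/
theorem good : ∃ S ⊆ Q, Q.card ≤ S.card + 5 ∧ ∀ w ∈ S,
    (nb Gᶜ (insert r (insert p Q)) w).card =
      (nb G (hb X P x x' \ insert r (insert p Q)) w).card ∧
    (nb Gᶜ (insert x' (insert x Q)) w).card =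
      (nb G (hb X P x x' \ insert r (insert p Q)) w).card := by
  have hk := l.F.mc.hk
  have h1 := l.star1.2.1
  have h2 := l.star2.2
  have f1 := few_exs (G := G) (d := k - 1) (Y := hb X P x x') (S := insert p Q)
  have f2 := few_exs (G := G) (d := k - 1) (Y := hb X P p r) (S := insert x Q)
  have t1 := (l.F.bp _ _ _ l.B).tau
  have t2 := (l.F.bp _ _ _ l.Bu).tau
  refine ⟨(Q \ (insert p Q).filter (fun v => k - 1 < (nb G (hb X P x x') v).card)) \
    (insert x Q).filter (fun v => k - 1 < (nb G (hb X P p r) v).card),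
    Finset.sdiff_subset.trans Finset.sdiff_subset, ?_, ?_⟩
  · have g1 := Finset.le_card_sdiff ((insert p Q).filter
      (fun v => k - 1 < (nb G (hb X P x x') v).card)) Q
    have g2 := Finset.le_card_sdiff ((insert x Q).filter
      (fun v => k - 1 < (nb G (hb X P p r) v).card))
      (Q \ (insert p Q).filter (fun v => k - 1 < (nb G (hb X P x x') v).card))
    omega
  · intro w hw
    rw [mem_sdiff, mem_sdiff, mem_filter, mem_filter] at hw
    obtain ⟨⟨hw1, hw2⟩, hw3⟩ := hw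
    have hw4 : ¬ k - 1 < (nb G (hb X P x x') w).card := fun e =>
      hw2 ⟨mem_insert_of_mem hw1, e⟩
    have hw5 : ¬ k - 1 < (nb G (hb X P p r) w).card := fun e =>
      hw3 ⟨mem_insert_of_mem hw1, e⟩
    have hwH : w ∈ hb X P x x' := l.st.hT (mem_insert_of_mem (mem_insert_of_mem hw1))
    have hwH' : w ∈ hb X P p r := l.star2.1.hT (mem_insert_of_mem (mem_insert_of_mem hw1))
    have d1 := t1.deg hwH
    have d2 := t2.deg hwH'
    obtain ⟨q1, q2⟩ := l.degQ hw1
    omega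

/-- transversality for a vertex with one outer neighbour -/
theorem trx {w y : V} (hw : w ∈ Q) (h : ¬ G.Adj w x')
    (hy : nb G (hb X P x x' \ insert r (insert p Q)) w = {y}) :
    Tr G (hb X P x x' \ insert r (insert p Q))
      (insert y (nb G (hb X P x x' \ insert r (insert p Q)) x')) := by
  have hal := l.star1.2.2.2
  have hwm := l.memQ.1 hw
  have huX := l.F.hP l.Bu.hc
  have hx'X := (mem_sdiff.1 l.B.hx').1
  have hux : u ≠ x' := fun e => (mem_sdiff.1 l.B.hx').2 (e ▸ l.Bu.hc)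
  have huw : u ≠ w := fun e => hwm.1.2.1 (e ▸ l.Bu.hc)
  have hwx : w ≠ x' := hwm.1.2.2.2
  refine tr_nbr (X := X) (J := {u, w, x'}) l.zX ?_ ?_ ?_ ?_ ?_
  · intro v hv
    rw [mem_insert, mem_insert, mem_singleton] at hv
    rcases hv with rfl | rfl | rfl
    · exact huX
    · exact hwm.1.1
    · exact hx'X
  · rw [Finset.disjoint_left]
    intro v hv hv'
    have hv2 := l.mem_z.1 hv'
    rw [mem_insert, mem_insert, mem_singleton] at hv
    rcases hv with rfl | rfl | rfl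
    · exact hv2.2.1 l.Bu.hc
    · exact hv2.2.2.2.2.2.2 hw
    · exact hv2.2.2.2.1 rfl
  · refine indep_insert (indep_insert (by simp) ?_) ?_
    · intro v hv
      rw [mem_singleton] at hv
      rw [hv]
      exact h
    · intro v hv
      rw [mem_insert, mem_singleton] at hv
      rcases hv with rfl | rfl
      · exact l.QuN hw
      · exact l.ux'
  · have : ({u, w, x'} : Finset V).card = 3 := by
      rw [Finset.card_insert_of_notMem, Finset.card_pair hwx]
      rw [mem_insert, mem_singleton, not_or]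
      exact ⟨huw, hux⟩
    omega
  · intro v hv z hz hvz
    rw [mem_insert, mem_insert, mem_singleton] at hv
    have hz2 := l.mem_z.1 hz
    rcases hv with rfl | rfl | rfl
    · exact absurd hvz (l.Bu.na (mem_sdiff.2 ⟨hz2.1, hz2.2.1⟩) hz2.2.2.2.2.1 hz2.2.2.2.2.2.1)
    · have : z ∈ nb G (hb X P x x' \ insert r (insert p Q)) v := mem_nb.2 ⟨hz, hvz⟩
      rw [hy, mem_singleton] at this
      rw [this]
      exact mem_insert_self _ _
    · exact mem_insert_of_mem (mem_nb.2 ⟨hz, hvz⟩)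

theorem trr {w y : V} (hw : w ∈ Q) (h : ¬ G.Adj w r)
    (hy : nb G (hb X P x x' \ insert r (insert p Q)) w = {y}) :
    Tr G (hb X P x x' \ insert r (insert p Q))
      (insert y (nb G (hb X P x x' \ insert r (insert p Q)) r)) := by
  have hal := l.star1.2.2.2
  have hwm := l.memQ.1 hw
  have hcX := l.F.hP l.B.hc
  have hrm := mem_hb.1 l.rH
  have hcr : c ≠ r := fun e => hrm.2.1 (e ▸ l.B.hc)
  have hcw : c ≠ w := fun e => hwm.1.2.1 (e ▸ l.B.hc)
  have hwr : w ≠ r := l.Qr hw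
  refine tr_nbr (X := X) (J := {c, w, r}) l.zX ?_ ?_ ?_ ?_ ?_
  · intro v hv
    rw [mem_insert, mem_insert, mem_singleton] at hv
    rcases hv with rfl | rfl | rfl
    · exact hcX
    · exact hwm.1.1
    · exact hrm.1
  · rw [Finset.disjoint_left]
    intro v hv hv'
    have hv2 := l.mem_z.1 hv'
    rw [mem_insert, mem_insert, mem_singleton] at hv
    rcases hv with rfl | rfl | rfl
    · exact hv2.2.1 l.B.hc
    · exact hv2.2.2.2.2.2.2 hw
    · exact hv2.2.2.2.2.2.1 rfl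
  · refine indep_insert (indep_insert (by simp) ?_) ?_
    · intro v hv
      rw [mem_singleton] at hv
      rw [hv]
      exact h
    · intro v hv
      rw [mem_insert, mem_singleton] at hv
      rcases hv with rfl | rfl
      · exact l.QcN hw
      · exact l.B.na (mem_sdiff.2 ⟨hrm.1, hrm.2.1⟩) hrm.2.2.1 hrm.2.2.2
  · have : ({c, w, r} : Finset V).card = 3 := by
      rw [Finset.card_insert_of_notMem, Finset.card_pair hwr]
      rw [mem_insert, mem_singleton, not_or]
      exact ⟨hcw, hcr⟩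
    omega
  · intro v hv z hz hvz
    rw [mem_insert, mem_insert, mem_singleton] at hv
    have hz2 := l.mem_z.1 hz
    rcases hv with rfl | rfl | rfl
    · exact absurd hvz (l.B.na (mem_sdiff.2 ⟨hz2.1, hz2.2.1⟩) hz2.2.2.1 hz2.2.2.2.1)
    · have : z ∈ nb G (hb X P x x' \ insert r (insert p Q)) v := mem_nb.2 ⟨hz, hvz⟩
      rw [hy, mem_singleton] at this
      rw [this]
      exact mem_insert_self _ _
    · exact mem_insert_of_mem (mem_nb.2 ⟨hz, hvz⟩)

/-- the bound for `r` -/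
theorem fr : (nb G (hb X P p r) r).card + 1 ≤ k := by
  have h3 := (l.F.bp _ _ _ l.Bu).bstar
  have h4 := (l.F.bp _ _ _ l.Bu).ps0
  have h5 := l.F.mc.ps_le
  have h6 := Int.natCast_nonneg (exs G k X P)
  have g1 := l.F.ge2 l.Bu
  by_cases hc : (nb G (hb X P p r) p).card + 2 = k
  · have h7 := (l.F.low0 l.Bu hc).2
    have : ((nb G (hb X P p r) r).card : ℤ) + 1 ≤ k := by linarith
    exact_mod_cast this
  · have g1' : k ≤ (nb G (hb X P p r) p).card + 1 := by omega
    have g1'' : (k : ℤ) ≤ (nb G (hb X P p r) p).card + 1 := by exact_mod_cast g1'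
    have h8 : (0 : ℤ) ≤ if G.Adj p r then 1 else 0 := by split_ifs <;> norm_num
    have : ((nb G (hb X P p r) r).card : ℤ) + 1 ≤ k := by linarith
    exact_mod_cast this

theorem false : False := by
  have hk := l.F.mc.hk
  have hk' : (20 : ℤ) ≤ k := by exact_mod_cast hk
  obtain ⟨s1, s2, s3, s4⟩ := l.star1
  obtain ⟨S, hSQ, hSc, hS⟩ := l.good
  have hms := l.ms
  have hnum := l.num
  have hbp := l.F.bp _ _ _ l.B
  have hps0 := hbp.ps0
  have hEx := Int.natCast_nonneg (exs G k X P)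
  have hzX := l.zX
  have hzne := l.zne
  have htrx := fun {w y : V} => l.trx (w := w) (y := y)
  have htrr := fun {w y : V} => l.trr (w := w) (y := y)
  have hmz := fun {w : V} => l.mem_z (w := w)
  have hcard1 := fun {w : V} => l.nbc1 (w := w)
  have hcard2 := fun {w : V} => l.nbc2 (w := w)
  have hfr := l.fr
  have hf1 : (nb G (hb X P x x') x').card + 1 ≤ k := by
    have : ((nb G (hb X P x x') x').card : ℤ) + 1 ≤ k := by linarith
    exact_mod_cast this
  have hzr : nb G (hb X P x x') r \ insert r (insert p Q) =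
      nb G (hb X P x x' \ insert r (insert p Q)) r := by
    ext v
    rw [mem_sdiff, mem_nb, mem_nb, mem_sdiff]
    tauto
  have hzr2 : (nb G (hb X P x x' \ insert r (insert p Q)) r).card ≤
      (nb G (hb X P p r) r).card := by
    rw [l.zeq]
    exact Finset.card_le_card (Finset.filter_subset_filter _ Finset.sdiff_subset)
  have hzx : (nb G (hb X P x x' \ insert r (insert p Q)) x').card + (nb G Q x').card ≤
      (nb G (hb X P x x') x').card := by
    rw [← Finset.card_union_of_disjoint]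
    · refine Finset.card_le_card fun v hv => ?_
      rw [mem_union, mem_nb, mem_nb, mem_sdiff] at hv
      rcases hv with ⟨⟨h1, _⟩, h2⟩ | ⟨h1, h2⟩
      · exact mem_nb.2 ⟨h1, h2⟩
      · exact mem_nb.2 ⟨l.st.hT (mem_insert_of_mem (mem_insert_of_mem h1)), h2⟩
    · rw [Finset.disjoint_left]
      intro v hv hv'
      have h1 := (mem_sdiff.1 (mem_nb.1 hv).1).2
      exact h1 (mem_insert_of_mem (mem_insert_of_mem (mem_nb.1 hv').1))
  rw [hzr] at s1 s3
  obtain ⟨Z, hZ⟩ : ∃ Z, Z = hb X P x x' \ insert r (insert p Q) := ⟨_, rfl⟩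
  rw [← hZ] at s1 s3 s4 hzX hzne hzr2 hzx hS
  simp only [← hZ] at htrx htrr hmz
  have s1' : (k : ℤ) ≤ (nb G Z r).card + 2 := by exact_mod_cast s1
  have g1 := l.F.ge2 l.B.symm
  rw [hb_comm X P x' x] at g1
  have g1' : (k : ℤ) ≤ (nb G (hb X P x x') x').card + 2 := by exact_mod_cast g1
  have hpsZ : ps G k Z ≤ 4 := by linarith
  have htauZ := l.F.mc.tau1 hzX hzne (by linarith)
  have hpsZ0 := l.F.mc.hmin Z hzX hzne
  have hcx : ∀ w ∈ S, ∀ y, ¬ G.Adj w x' → nb G Z w = {y} →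
      k ≤ (insert y (nb G Z x')).card + 1 := by
    intro w hw y h1 h2
    have hyZ : y ∈ Z := by
      have : y ∈ nb G Z w := by rw [h2]; exact mem_singleton_self y
      exact (mem_nb.1 this).1
    have := htauZ _ (Finset.insert_subset hyZ (nb_sub _ _)) (htrx (hSQ hw) h1 h2)
    omega
  -- a first typical vertex
  have hex : ∃ w ∈ S, ¬ G.Adj w r := by
    by_contra hcon
    push Not at hcon
    have h1 : nb Gᶜ Q r ⊆ Q \ S := by
      intro w hw
      have h2 := mem_nb.1 hw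
      refine mem_sdiff.2 ⟨h2.1, fun h3 => ?_⟩
      exact ((SimpleGraph.compl_adj _ _ _).1 h2.2).2 (hcon w h3).symm
    have h2 := Finset.card_le_card h1
    rw [Finset.card_sdiff_of_subset hSQ] at h2
    omega
  obtain ⟨w0, hw0, hwr0⟩ := hex
  have hzx2 : k ≤ (nb G Z x').card + 2 := by
    obtain ⟨a1, a2⟩ := hS w0 hw0
    obtain ⟨b1, b2, b3⟩ := hcard1 (hSQ hw0)
    obtain ⟨c1, c2, c3⟩ := hcard2 (hSQ hw0)
    have h1 := b3 hwr0
    have h2 : ¬ G.Adj w0 x' := by
      intro e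
      have := c2 e
      omega
    have h3 : (nb G Z w0).card = 1 := by omega
    obtain ⟨y, hy⟩ := Finset.card_eq_one.1 h3
    have h4 := hcx w0 hw0 y h2 hy
    have h5 := Finset.card_insert_le y (nb G Z x')
    omega
  -- the final set
  obtain ⟨S1, hS1d⟩ : ∃ S1, S1 = S \ nb G Q x' := ⟨_, rfl⟩
  have hS1c : k ≤ S1.card + 8 := by
    have h1 := Finset.le_card_sdiff (nb G Q x') S
    have h2 := l.hf
    rw [← hS1d] at h1
    omega
  have hS1 : ∀ w ∈ S1, w ∈ Q ∧ ¬ G.Adj w x' ∧ ¬ G.Adj w r ∧ ∃ y, nb G Z w = {y} := by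
    intro w hw
    rw [hS1d] at hw
    obtain ⟨hw1, hw2⟩ := mem_sdiff.1 hw
    have hwQ := hSQ hw1
    obtain ⟨a1, a2⟩ := hS w hw1
    obtain ⟨b1, b2, b3⟩ := hcard1 hwQ
    obtain ⟨c1, c2, c3⟩ := hcard2 hwQ
    have h1 : ¬ G.Adj w x' := fun e => hw2 (mem_nb.2 ⟨hwQ, e.symm⟩)
    have h2 := c3 h1
    have h3 : ¬ G.Adj w r := by
      intro e
      have := b2 e
      omega
    exact ⟨hwQ, h1, h3, Finset.card_eq_one.1 (by omega)⟩
  have hyZ : ∀ {w y : V}, nb G Z w = {y} → y ∈ Z := by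
    intro w y h2
    have : y ∈ nb G Z w := by rw [h2]; exact mem_singleton_self y
    exact (mem_nb.1 this).1
  have hconst : ∀ w1 ∈ S1, ∀ w2 ∈ S1, ∀ y1 y2, nb G Z w1 = {y1} → nb G Z w2 = {y2} →
      y1 = y2 := by
    intro w1 hw1 w2 hw2 y1 y2 e1 e2'
    obtain ⟨a1, a2, a3, -⟩ := hS1 w1 hw1
    obtain ⟨b1, b2, b3, -⟩ := hS1 w2 hw2
    by_cases c1 : (nb G Z x').card + 2 = k
    · exact l.F.mc.uniq1 hzX hzne hpsZ (nb_sub _ _) c1 (hyZ e1) (hyZ e2') (htrx a1 a2 e1)
        (htrx b1 b2 e2')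
    by_cases c2 : (nb G Z r).card + 2 = k
    · exact l.F.mc.uniq1 hzX hzne hpsZ (nb_sub _ _) c2 (hyZ e1) (hyZ e2') (htrr a1 a3 e1)
        (htrr b1 b3 e2')
    have c3 : (nb G Z x').card + 1 = k := by omega
    have c4 : k ≤ (nb G (hb X P x x') x').card + 1 := by omega
    have c5 : k ≤ (nb G Z r).card + 1 := by omega
    have c4' : (k : ℤ) ≤ (nb G (hb X P x x') x').card + 1 := by exact_mod_cast c4
    have c5' : (k : ℤ) ≤ (nb G Z r).card + 1 := by exact_mod_cast c5
    refine l.F.mc.uniq2 hzX hzne (by linarith) (nb_sub _ _) c3 (v := x')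
      (mem_sdiff.1 l.B.hx').1 ?_ (fun w hw => (mem_nb.1 hw).2) (hyZ e1) (hyZ e2')
      (htrx a1 a2 e1) (htrx b1 b2 e2')
    exact fun e => (hmz.1 e).2.2.2.1 rfl
  have hS1n : S1.Nonempty := by
    rw [← Finset.card_pos]
    omega
  obtain ⟨w1, hw1⟩ := hS1n
  obtain ⟨-, -, -, y, hy⟩ := hS1 w1 hw1
  have hyZ' := hmz.1 (hyZ hy)
  have hpX := (mem_hb.1 l.pH).1
  have h5 := l.F.mc.near3 (Q := Q) l.QX (fun a ha b hb => l.clqQ a (mem_insert_of_mem ha) b
      (mem_insert_of_mem hb)) l.hf (a := x) (b := p) (c := y) (mem_sdiff.1 l.B.hx).1 hpX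
      hyZ'.1 (fun e => (mem_hb.1 l.pH).2.2.1 e.symm) (fun e => hyZ'.2.2.1 e.symm)
    (fun e => hyZ'.2.2.2.2.1 e.symm) l.xQ l.pQ hyZ'.2.2.2.2.2.2
  have e1 : (nb Gᶜ Q x).card = 0 := nbc_zero fun w hw => (l.memQ.1 hw).2
  have e2' : (nb Gᶜ Q p).card = 0 := nbc_zero fun w hw =>
    l.clqQ p (mem_insert_self _ _) w (mem_insert_of_mem hw) (l.Qp hw).symm
  have e3 : (nb Gᶜ Q y).card ≤ (Q \ S1).card := by
    refine Finset.card_le_card fun w hw => ?_
    have h2 := mem_nb.1 hw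
    refine mem_sdiff.2 ⟨h2.1, fun h3 => ?_⟩
    obtain ⟨-, -, -, y2, hy2⟩ := hS1 w h3
    have h4 := hconst w1 hw1 w h3 y y2 hy hy2
    have h6 : y ∈ nb G Z w := by rw [hy2, h4]; exact mem_singleton_self _
    exact ((SimpleGraph.compl_adj _ _ _).1 h2.2).2 (mem_nb.1 h6).2.symm
  have hS1Q : S1 ⊆ Q := fun w hw => (hS1 w hw).1
  rw [Finset.card_sdiff_of_subset hS1Q] at e3
  have h7 := l.hf
  omega

end LW

namespace Fr
variable {k : ℕ} {X P : Finset V} (F : Fr G k X P)
include F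

/-- there are no low vertices -/
theorem low {c x x' : V} (B : Base G k X P c x x')
    (hf : (nb G (hb X P x x') x).card + 2 = k) : False := by
  obtain ⟨u, hu, hud, hxu⟩ := F.ns B.hx
  obtain ⟨y, y', Bu⟩ := base_mk F.hP F.hPc F.hPq hu hud
  obtain ⟨m1, m2, n1, n2, r, hS, hms⟩ := F.lowT B hf Bu hxu
  have key : ∀ {y y' : V}, Base G k X P u y y' → y ∈ hb X P x x' → y' ∈ hb X P x x' →
      y ∉ nb G (hb X P x x') x → y' ∉ nb G (hb X P x x') x →
      StarT G k (hb X P x x') (insert y (insert y' (nb G (hb X P x x') x))) y →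
      7 ≤ (nb Gᶜ ((insert y (insert y' (nb G (hb X P x x') x))).erase y) y).card →
      False := by
    intro y y' Bu m1 m2 n1 n2 hS hms
    refine LW.false (G := G) (k := k) (X := X) (P := P) (c := c) (x := x) (x' := x')
      (u := u) (p := y') (r := y) (Q := nb G (hb X P x x') x) ⟨F, B, Bu.symm, rfl, hf, hxu, m2,
      m1, n2, n1, hS, ?_⟩
    have e1 : (insert y (insert y' (nb G (hb X P x x') x))).erase y =
        insert y' (nb G (hb X P x x') x) := by
      apply Finset.erase_insert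
      rw [mem_insert, not_or]
      exact ⟨Bu.hne, n1⟩
    rw [e1] at hms
    have h9 := nbc_insert_le (G := G) (nb G (hb X P x x') x) y' y
    omega
  have hr := hS.hr
  rw [mem_insert, mem_insert] at hr
  rcases hr with hr | hr | hr
  · subst hr
    exact key Bu m1 m2 n1 n2 hS hms
  · subst hr
    rw [Finset.insert_comm] at hS hms
    exact key Bu.symm m2 m1 n2 n1 hS hms
  · exact F.low1 B hf Bu hxu hS hr hms

/-- no frame exists -/
theorem false : False := by
  refine F.fin fun c x x' B => ?_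
  have h1 := F.ge2 B
  by_contra hcon
  exact F.low B (by omega)

end Fr

end Pool.Agent.TwoDens.TK
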