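import Pool.Agent.TKE.Sev

/-!
Lemma G: two nonadjacent vertices with small common neighbourhood, and the first part of Case II.
-/

open Finset

namespace Pool.Agent.TwoDens.TK

open Pool.Agent.TwoDens Pool.Agent.TwoDens.RK Pool.Agent.TwoDens.DD

variable {V : Type*} [DecidableEq V] {G : SimpleGraph V} [DecidableRel G.Adj]

/-- `o(r) + ex'(R) ≥ k - 2` -/
theorem StarT.ge {k : ℕ} {Y T : Finset V} {r : V} (hS : StarT G k Y T r)
    (ht : TauGe G Y k) :
    k ≤ (nb G Y r \ T).card + exs G (k - 1) Y (T.erase r) + 2 := by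
  obtain ⟨l, hl⟩ := Finset.card_pos.1 hS.miss
  have h1 := hS.low l hl
  have hlT := (mem_nb.1 hl).1
  have hlr : l ≠ r := fun h => ((SimpleGraph.compl_adj _ _ _).1 (mem_nb.1 hl).2).1 h.symm
  have h2 := exs_erase (G := G) (k := k - 1) (X := Y) (S := T.erase r) (u := l)
    (mem_erase.2 ⟨hlr, hlT⟩)
  have h3 := ht.deg (hS.hT hlT)
  omega

namespace Fr
variable {k : ℕ} {X P : Finset V} (F : Fr G k X P)
include F

theorem lemG {c x x' : V} (B : Base G k X P c x x') (hxx : ¬ G.Adj x x') {u : V} (hu : u ∈ P)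
    (h1 : ¬ G.Adj x u) (h2 : ¬ G.Adj x' u)
    (hc : (nb G (hb X P x x') x ∪ nb G (hb X P x x') u).card ≤ k) : False := by
  have hk := F.mc.hk
  have hbp := F.bp _ _ _ B
  have hx := mem_sdiff.1 B.hx
  have hx' := mem_sdiff.1 B.hx'
  obtain ⟨T, hT⟩ : ∃ T, T = nb G (hb X P x x') x ∪ nb G (hb X P x x') u := ⟨_, rfl⟩
  have htr := F.tr_xu B hu h1
  have hcx := F.card_xu B hu h1
  rw [← hT] at htr hcx hc
  have hTc : T.card = k := by omega
  have hTH : T ⊆ hb X P x x' := by
    rw [hT]
    exact Finset.union_subset (nb_sub _ _) (nb_sub _ _)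
  obtain ⟨r, hS⟩ := F.mc.star8 hb_sub B.hbne hbp.ps4 hbp.tau hTH hTc htr
  have hge := hS.ge hbp.tau
  have hps := hS.psT
  -- the set `Y3 = (H \ T) ∪ {x'}`
  have hx'n : x' ∉ hb X P x x' \ T := by
    rw [mem_sdiff, mem_hb]
    exact fun h => h.1.2.2.2 rfl
  have hY3 : insert x' (hb X P x x' \ T) ⊆ X :=
    Finset.insert_subset hx'.1 (Finset.sdiff_subset.trans hb_sub)
  have hxY3 : x ∉ insert x' (hb X P x x' \ T) := by
    rw [mem_insert, mem_sdiff, mem_hb]
    rintro (h | h)
    · exact B.hne h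
    · exact h.1.2.2.1 rfl
  have huY3 : u ∉ insert x' (hb X P x x' \ T) := by
    rw [mem_insert, mem_sdiff, mem_hb]
    rintro (h | h)
    · exact hx'.2 (h ▸ hu)
    · exact h.1.2.1 hu
  have hne3 : insert x' (hb X P x x' \ T) ≠ X := by
    intro h
    rw [h] at hxY3
    exact hxY3 hx.1
  have hxu : x ≠ u := fun h => hx.2 (h ▸ hu)
  have h0 := F.mc.hmin _ hY3 hne3
  -- independence number
  have hal : al G (insert x' (hb X P x x' \ T)) + 2 ≤ al G X := by
    obtain ⟨I, hI, hi, hcI⟩ := exists_al (G := G) (insert x' (hb X P x x' \ T))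
    have hnot : ∀ z ∈ ({x, u} : Finset V), ∀ w ∈ I, ¬ G.Adj z w := by
      intro z hz w hw hzw
      have hw' := hI hw
      rw [mem_insert, mem_sdiff] at hw'
      rw [mem_insert, mem_singleton] at hz
      rcases hw' with rfl | ⟨hwH, hwT⟩
      · rcases hz with rfl | rfl
        · exact hxx hzw
        · exact h2 hzw.symm
      · apply hwT
        rw [hT]
        rcases hz with rfl | rfl
        · exact mem_union_left _ (mem_nb.2 ⟨hwH, hzw⟩)
        · exact mem_union_right _ (mem_nb.2 ⟨hwH, hzw⟩)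
    have h3 := le_al (G := G) (X := X) (I := ({x, u} : Finset V) ∪ I) (by
      refine Finset.union_subset ?_ (hI.trans hY3)
      intro z hz
      rw [mem_insert, mem_singleton] at hz
      rcases hz with rfl | rfl
      · exact hx.1
      · exact F.hP hu) (indep_union (indep_pair h1) hi hnot)
    rw [Finset.card_union_of_disjoint, Finset.card_pair hxu] at h3
    · omega
    · rw [Finset.disjoint_left]
      intro z hz hz'
      rw [mem_insert, mem_singleton] at hz
      rcases hz with rfl | rfl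
      · exact hxY3 (hI hz')
      · exact huY3 (hI hz')
  have halT := hS.alT
  have halH := hbp.alH
  have halge : al G (hb X P x x' \ T) ≤ al G (insert x' (hb X P x x' \ T)) :=
    al_mono (Finset.subset_insert _ _)
  have haleq : al G (insert x' (hb X P x x' \ T)) = al G (hb X P x x' \ T) := by omega
  -- compare the potentials
  have he := e2_sdiff (G := G) (X := insert x' (hb X P x x' \ T)) (R := {x'}) (by simp)
  rw [e2_singleton, Finset.sum_singleton, Finset.insert_sdiff_of_mem _ (mem_singleton_self x'),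
    Finset.sdiff_singleton_eq_erase, Finset.erase_eq_of_notMem hx'n] at he
  have hnb : (nb G (insert x' (hb X P x x' \ T)) x').card ≤ (nb G (hb X P x x') x').card := by
    refine Finset.card_le_card ?_
    intro w hw
    rw [mem_nb, mem_insert, mem_sdiff] at hw
    rcases hw with ⟨rfl | h, h'⟩
    · exact absurd h' (G.loopless.irrefl _)
    · exact mem_nb.2 ⟨h.1, h'⟩
  have hcard := Finset.card_insert_of_notMem hx'n
  have hbs := hbp.bstar
  have hps4 := hbp.ps4
  have hps0 := hbp.ps0
  have hpl := F.mc.ps_le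
  have hk' : (20 : ℤ) ≤ k := by exact_mod_cast hk
  have hf' : ((nb G (hb X P x x') x').card : ℤ) ≤ 2 * k - 2 -
      (nb G (hb X P x x') x).card := by
    have a1 : (0 : ℤ) ≤ if G.Adj x x' then 1 else 0 := by split_ifs <;> norm_num
    have a2 := Int.natCast_nonneg (exs G k X P)
    linarith
  -- `|N_x| ≥ 1`
  have hf1 : 2 ≤ (nb G (hb X P x x') x).card := by
    have a1 := F.deg_ge hx.1
    have b3 : (nb Gᶜ P x).card + (nb G P x).card = P.card := nbc_card' hx.2
    have b4 : (nb G X x).card ≤ (nb G P x).card + (nb G (X \ P) x).card := by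
      refine le_trans (Finset.card_le_card ?_) (Finset.card_union_le _ _)
      intro w hw
      rw [mem_union, mem_nb, mem_nb, mem_sdiff]
      have := mem_nb.1 hw
      by_cases hwP : w ∈ P
      · exact Or.inl ⟨hwP, this.2⟩
      · exact Or.inr ⟨⟨this.1, hwP⟩, this.2⟩
    have b5 := card_nb_hb (G := G) B.hx B.hx' B.hne x
    rw [if_neg (G.loopless.irrefl x), if_neg hxx] at b5
    have b6 := F.hPc
    have b7 := F.missP B.hx
    omega
  have hf1' : (2 : ℤ) ≤ (nb G (hb X P x x') x).card := by exact_mod_cast hf1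
  have he' : (e2 G (insert x' (hb X P x x' \ T)) : ℤ) = e2 G (hb X P x x' \ T) +
      2 * (nb G (insert x' (hb X P x x' \ T)) x').card := by exact_mod_cast (by omega)
  have hpsY : ps G k (insert x' (hb X P x x' \ T)) = ps G k (hb X P x x' \ T) - (4 * k - 2) +
      2 * (nb G (insert x' (hb X P x x' \ T)) x').card := by
    unfold ps
    rw [haleq, hcard, he']
    push_cast
    ring
  have hnb' : ((nb G (insert x' (hb X P x x' \ T)) x').card : ℤ) ≤
      (nb G (hb X P x x') x').card := by exact_mod_cast hnb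
  have hge' : (k : ℤ) ≤ (nb G (hb X P x x') r \ T).card +
      exs G (k - 1) (hb X P x x') (T.erase r) + 2 := by exact_mod_cast hge
  rw [if_neg hxx] at hbs
  have a2 := Int.natCast_nonneg (exs G k X P)
  linarith

/-- the first part of Case II -/
theorem c2a {a : V} (ha : a ∈ X \ P) (hall : ∀ c ∈ P, (nb G X c).card = k → G.Adj a c)
    {u1 u2 : V} (hu1 : u1 ∈ P) (hu2 : u2 ∈ P) (h12 : u1 ≠ u2) (h1 : ¬ G.Adj a u1)
    (h2 : ¬ G.Adj a u2) : False := by
  have ha' := mem_sdiff.1 ha
  obtain ⟨c, hc, hd⟩ := F.hex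
  obtain ⟨p, B⟩ := base_mk1 F.hP F.hPc F.hPq hc hd ha (hall c hc hd).symm
  have hp' := mem_sdiff.1 B.hx'
  have hk := F.mc.hk
  have h3 := F.missPx B
  have h4 : (nb Gᶜ P a).card ≤ 4 := by
    refine le_trans (Finset.card_le_card ?_) F.plus
    intro v hv
    rw [F.mem_nbc ha'.2] at hv
    rw [mem_filter]
    refine ⟨hv.1, ?_⟩
    have h5 := F.deg_ge (F.hP hv.1)
    rcases Nat.lt_or_ge k (nb G X v).card with h6 | h6
    · exact h6
    · exact absurd (hall v hv.1 (by omega)) hv.2
  obtain ⟨u', hu', hdk⟩ := F.exists_degk' (S := nb Gᶜ P p) (nb_sub _ _) (by omega)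
  rw [F.mem_nbc hp'.2] at hu'
  have hne : u' ≠ u1 := fun h => h1 (hall u1 hu1 (h ▸ hdk))
  have hu'a := hall u' hu'.1 hdk
  have h2u' : u2 ≠ u' := fun h => h2 (h ▸ hu'a)
  have h5 := F.seven B hu1 hu'.1 (Ne.symm hne)
  have h6 : 1 ≤ exs G k X ((P.erase u1).erase u') := by
    have h7 := exs_erase (G := G) (k := k) (X := X) (S := (P.erase u1).erase u') (u := u2)
      (mem_erase.2 ⟨h2u', mem_erase.2 ⟨Ne.symm h12, hu2⟩⟩)
    have h8 := F.deg_ge (F.hP hu2)
    have h9 : (nb G X u2).card ≠ k := fun h => h2 (hall u2 hu2 h)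
    omega
  have h6' : (1 : ℤ) ≤ exs G k X ((P.erase u1).erase u') := by exact_mod_cast h6
  have h7 : (ad G u1 a : ℤ) = 0 := by rw [ad_zero (fun h => h1 h.symm)]; rfl
  have h8 : (ad G u' a : ℤ) = 1 := by rw [ad_one hu'a.symm]; rfl
  have h10 := F.card_xu' B hu1 h1
  have h11 := F.card_xu' B.symm hu'.1 hu'.2
  rw [hb_comm X P p a] at h11
  have h10' : (k : ℤ) ≤ (nb G (hb X P a p) a).card + (nb G (hb X P a p) u1).card := by
    exact_mod_cast h10
  have h11' : (k : ℤ) ≤ (nb G (hb X P a p) p).card + (nb G (hb X P a p) u').card := by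
    exact_mod_cast h11
  have h12' := (F.bp _ _ _ B).ps0
  have h13 := F.mc.ps_le
  have a1 := Int.natCast_nonneg (ad G u1 p)
  have a2 := Int.natCast_nonneg (ad G u' p)
  have a3 := Int.natCast_nonneg (ad G a p)
  rw [h7, h8] at h5
  have e0 : (ad G a p : ℤ) = 0 := by linarith
  have e1 : (ad G u1 p : ℤ) = 0 := by linarith
  have e2 : ((nb G (hb X P a p) a).card : ℤ) + (nb G (hb X P a p) u1).card = k := by linarith
  have n0 : ¬ G.Adj a p := by
    intro h
    rw [ad_one h] at e0
    norm_num at e0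
  have n1 : ¬ G.Adj p u1 := by
    intro h
    rw [ad_one h.symm] at e1
    norm_num at e1
  refine F.lemG B n0 hu1 h1 n1 ?_
  have e3 : (nb G (hb X P a p) a).card + (nb G (hb X P a p) u1).card = k := by exact_mod_cast e2
  exact (Finset.card_union_le _ _).trans (by omega)

/-- a vertex `x'` with `k - 1` neighbours and `t`: the block -/
theorem block {c x x' : V} (B : Base G k X P c x x') (hf : (nb G (hb X P x x') x').card + 1 = k)
    {u t : V} (hu : u ∈ P) (hxu : ¬ G.Adj x' u) (hNu : nb G (hb X P x x') u = {t}) :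
    t ∈ hb X P x x' ∧ t ∉ nb G (hb X P x x') x' ∧ ∃ r ∈ nb G (hb X P x x') x',
      StarT G k (hb X P x x') (insert t (nb G (hb X P x x') x')) r ∧
      7 ≤ (nb Gᶜ ((nb G (hb X P x x') x').erase r) r).card := by
  have hk := F.mc.hk
  have hbp := F.bp _ _ _ B
  have hx' := mem_sdiff.1 B.hx'
  have htH : t ∈ hb X P x x' := (mem_nb.1 (by rw [hNu]; simp : t ∈ nb G (hb X P x x') u)).1
  have htr := F.tr_xu B.symm hu hxu
  rw [hb_comm X P x' x, hNu, Finset.union_comm, ← Finset.insert_eq] at htr
  have htn : t ∉ nb G (hb X P x x') x' := by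
    intro h
    rw [Finset.insert_eq_of_mem h] at htr
    exact hbp.ntx' htr
  obtain ⟨r, hS⟩ := F.mc.star8 hb_sub B.hbne hbp.ps4 hbp.tau
    (Finset.insert_subset htH (nb_sub _ _)) (by rw [Finset.card_insert_of_notMem htn, hf]) htr
  refine ⟨htH, htn, r, ?_, hS, ?_⟩
  · have h1 := hS.hr
    rw [mem_insert] at h1
    rcases h1 with h1 | h1
    · exfalso
      have h2 := hS.clq
      rw [h1, Finset.erase_insert htn] at h2
      have h3 : Clq G (insert x' (nb G (hb X P x x') x')) := by
        intro p hp q hq hpq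
        rw [mem_insert] at hp hq
        rcases hp with rfl | hp <;> rcases hq with rfl | hq
        · exact absurd rfl hpq
        · exact (mem_nb.1 hq).2
        · exact (mem_nb.1 hp).2.symm
        · exact h2 p hp q hq hpq
      have h4 := F.mc.clq_lt (Finset.insert_subset hx'.1 ((nb_sub _ _).trans hb_sub)) h3
      rw [Finset.card_insert_of_notMem self_notMem] at h4
      omega
    · exact h1
  · have hQX : (insert t (nb G (hb X P x x') x')).erase r ⊆ X :=
      (Finset.erase_subset _ _).trans (hS.hT.trans hb_sub)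
    have hQc : ((insert t (nb G (hb X P x x') x')).erase r).card + 1 = k := by
      rw [Finset.card_erase_add_one hS.hr, hS.hc]
    have hrX : r ∈ X := hb_sub (hS.hT hS.hr)
    have hx'H : x' ∉ hb X P x x' := by
      rw [mem_hb]
      exact fun h => h.2.2.2 rfl
    have hrx' : r ≠ x' := fun h => hx'H (h ▸ hS.hT hS.hr)
    have h1 := F.mc.near2 hQX hS.clq hQc hrX hx'.1 hrx' (Finset.notMem_erase _ _)
      (fun h => hx'H (hS.hT (mem_erase.1 h).2))
    have h2 : (nb Gᶜ ((insert t (nb G (hb X P x x') x')).erase r) x').card ≤ 1 := by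
      rw [Finset.card_le_one]
      have : ∀ w ∈ nb Gᶜ ((insert t (nb G (hb X P x x') x')).erase r) x', w = t := by
        intro w hw
        have h3 := mem_nb.1 hw
        have h4 := (mem_erase.1 h3.1).2
        rw [mem_insert] at h4
        rcases h4 with h4 | h4
        · exact h4
        · exact absurd (mem_nb.1 h4).2 ((SimpleGraph.compl_adj _ _ _).1 h3.2).2
      intro w hw z hz
      rw [this w hw, this z hz]
    have h3 : nb Gᶜ ((insert t (nb G (hb X P x x') x')).erase r) r ⊆
        insert t (nb Gᶜ ((nb G (hb X P x x') x').erase r) r) := by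
      intro w hw
      rw [mem_nb, mem_erase, mem_insert] at hw
      rw [mem_insert, mem_nb, mem_erase]
      rcases hw with ⟨⟨h4, h5 | h5⟩, h6⟩
      · exact Or.inl h5
      · exact Or.inr ⟨⟨h4, h5⟩, h6⟩
    have h4 := Finset.card_le_card h3
    have h5 := Finset.card_insert_le t (nb Gᶜ ((nb G (hb X P x x') x').erase r) r)
    omega

end Fr

end Pool.Agent.TwoDens.TK
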