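import Pool.Agent.TKE.SX
import Pool.Agent.TKE.LB
import Pool.Agent.TwoDens.DDF

/-!
The main inequality and the lower bound for the minimum 2-density.
-/

open Finset

namespace Pool.Agent.TwoDens.TK

open Pool.Agent.TwoDens Pool.Agent.TwoDens.RK Pool.Agent.TwoDens.DD

section
variable {V : Type*} [DecidableEq V] {G : SimpleGraph V} [DecidableRel G.Adj]

/-- there is no minimal counterexample -/
theorem MC.false {k : ℕ} {X : Finset V} (M : MC G k X) : False := by
  obtain ⟨P, c, x, x', B⟩ := M.exists_base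
  exact Fr.false (F := ⟨M, B.hP, B.hPc, B.hPq, ⟨c, B.hc, B.deg⟩, fun _ _ _ B' => B'.bp M⟩)

/-- the main inequality -/
theorem ps_nonneg {k : ℕ} (hk : 20 ≤ k) (X : Finset V) (hS : Sk G k X) : 0 ≤ ps G k X := by
  induction X using Finset.strongInduction with
  | H X ih =>
    by_contra hcon
    push Not at hcon
    refine MC.false (G := G) (k := k) (X := X) ⟨hk, hS, hcon, ?_⟩
    intro Y hY hne
    exact ih Y (Finset.ssubset_iff_subset_ne.2 ⟨hY, hne⟩) (fun Z hZ h3 => hS Z (hZ.trans hY) h3)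

/-- `2 e ≥ (4 k - 2) n - (3 k ^ 2 - 3 k + 2) α` for a graph of 2-density less than `(k + 1) / 2` -/
theorem main_ineq {k : ℕ} (hk : 20 ≤ k) (X : Finset V) (hS : Sk G k X) (a : ℕ)
    (ha : ∀ I ⊆ X, G.IsIndepSet (I : Set V) → I.card ≤ a) :
    (4 * (k : ℝ) - 2) * X.card ≤ (3 * (k : ℝ) ^ 2 - 3 * k + 2) * a + e2 G X := by
  have h1 := ps_nonneg hk X hS
  have h2 : al G X ≤ a := al_le ha
  have h3 : (al G X : ℤ) ≤ a := by exact_mod_cast h2
  have h4 := mul_le_mul_of_nonneg_left h3 (kappa_nonneg hk)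
  unfold ps at h1
  have h5 : (4 * (k : ℤ) - 2) * X.card ≤ (3 * (k : ℤ) ^ 2 - 3 * k + 2) * a + e2 G X := by
    linarith
  exact_mod_cast h5

end

/-- the lower bound for `M(m, s + 1)` -/
theorem lower_bound (k m s : ℕ) (hk : 20 ≤ k) (hm : 3 ≤ m) (hs : 1 ≤ s) :
    min (((k : ℝ) + 1) / 2)
      (((4 * k - 2) * m - (3 * k ^ 2 - 3 * k + 2) * s - 2) / (2 * ((m : ℝ) - 2))) ≤
        minTwoDensity m (s + 1) := by
  refine le_minTwoDensity (by omega) ?_
  intro G _ hα
  by_contra hcon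
  push Not at hcon
  set c := min (((k : ℝ) + 1) / 2)
      (((4 * k - 2) * m - (3 * k ^ 2 - 3 * k + 2) * s - 2) / (2 * ((m : ℝ) - 2))) with hc
  have hc1 : c ≤ ((k : ℝ) + 1) / 2 := min_le_left _ _
  have hc2 : c ≤ ((4 * k - 2) * m - (3 * k ^ 2 - 3 * k + 2) * s - 2) / (2 * ((m : ℝ) - 2)) :=
    min_le_right _ _
  have hS : Sk G k Finset.univ := by
    intro Y _ hY
    have h1 := hcon Y hY
    have h3 : (3 : ℝ) ≤ Y.card := by exact_mod_cast hY
    have h4 : 2 * c * ((Y.card : ℝ) - 2) ≤ (k + 1) * ((Y.card : ℝ) - 2) := by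
      refine mul_le_mul_of_nonneg_right (by linarith) (by linarith)
    have h2 : (e2 G Y : ℝ) + 2 * k < (k + 1) * Y.card := by linarith
    have h5 : e2 G Y + 2 * k < (k + 1) * Y.card := by exact_mod_cast h2
    omega
  have hal : ∀ I ⊆ (Finset.univ : Finset (Fin m)), G.IsIndepSet (I : Set (Fin m)) →
      I.card ≤ s := by
    intro I _ hI
    have := hα I hI
    omega
  have h1 := main_ineq hk Finset.univ hS s hal
  have h2 := hcon Finset.univ (by simpa using hm)
  rw [Finset.card_univ, Fintype.card_fin] at h1 h2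
  have h3 : (3 : ℝ) ≤ m := by exact_mod_cast hm
  have hpos : (0 : ℝ) < 2 * ((m : ℝ) - 2) := by linarith
  have h4 : c * (2 * ((m : ℝ) - 2)) ≤ (4 * k - 2) * m - (3 * k ^ 2 - 3 * k + 2) * s - 2 := by
    rwa [le_div_iff₀ hpos] at hc2
  linarith

end Pool.Agent.TwoDens.TK
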