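import Pool.Agent.TKE.SA
import Pool.Agent.TKE.LA

/-!
Every transversal of `H` has at least `k` elements.
-/

open Finset

namespace Pool.Agent.TwoDens.TK

open Pool.Agent.TwoDens Pool.Agent.TwoDens.RK Pool.Agent.TwoDens.DD

variable {V : Type*} [DecidableEq V] {G : SimpleGraph V} [DecidableRel G.Adj]

/-- a transversal of size `k - 1` -/
structure SX (G : SimpleGraph V) [DecidableRel G.Adj] (k : ℕ) (X P : Finset V) (c x x' : V)
    (R : Finset V) (m : ℕ) : Prop where
  M : MC G k X
  B : Base G k X P c x x'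
  hR : R ⊆ hb X P x x'
  hRc : R.card + 1 = k
  hRq : Clq G R
  hbd : bd G (hb X P x x') R + 1 ≤ m
  hps : ps G k (hb X P x x') = 2 * m
  al2 : al G (hb X P x x' \ R) + 2 = al G X
  tau2 : TauGe G (hb X P x x' \ R) (k - 1)
  ne2 : (hb X P x x' \ R).Nonempty

/-- existence -/
theorem Base.exists_sx {k : ℕ} {X P : Finset V} {c x x' : V} (B : Base G k X P c x x')
    (M : MC G k X) (h : ¬ TauGe G (hb X P x x') k) : ∃ R m, SX G k X P c x x' R m := by
  have hk := M.hk
  have hk' : (20 : ℤ) ≤ k := by exact_mod_cast hk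
  obtain ⟨p12, t1⟩ := B.tau1 M
  obtain ⟨u, hu, u', hu', huu, h1, h2⟩ := B.pick M
  have h3 := B.bud1 M hu hu' huu h1 h2
  have i4 := Int.natCast_nonneg (exs G k X ((P.erase u).erase u'))
  have hp8 : ps G k (hb X P x x') ≤ 8 := by linarith
  have hp2 : 2 ≤ ps G k (hb X P x x') := by
    by_contra hcon
    push Not at hcon
    exact h (M.tau0 hb_sub B.hbne (by linarith))
  obtain ⟨m0, hm0⟩ := ps_even (G := G) k (hb X P x x')
  obtain ⟨m', rfl⟩ : ∃ m' : ℕ, m0 = m' := ⟨m0.toNat, by omega⟩
  have hal := B.alH M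
  have hHX : hb X P x x' ⊆ X := hb_sub
  have hHne := B.hbne
  have hHc : (hb X P x x').card + (k + 1) = X.card := by
    have hx := mem_sdiff.1 B.hx
    have hx' := mem_sdiff.1 B.hx'
    have e : hb X P x x' = X \ insert x (insert x' P) := by
      ext v
      rw [mem_hb, mem_sdiff, mem_insert, mem_insert]
      tauto
    have hs : insert x (insert x' P) ⊆ X :=
      Finset.insert_subset hx.1 (Finset.insert_subset hx'.1 B.hP)
    have hSc : (insert x (insert x' P)).card = k + 1 := by
      rw [Finset.card_insert_of_notMem, Finset.card_insert_of_notMem hx'.2, B.hPc]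
      rw [mem_insert, not_or]
      exact ⟨B.hne, hx.2⟩
    rw [e, Finset.card_sdiff_of_subset hs, hSc]
    have := M.card_ge
    omega
  have hXc := M.card_ge
  obtain ⟨H, hH⟩ : ∃ H, H = hb X P x x' := ⟨_, rfl⟩
  rw [← hH] at h t1 hp8 hp2 hal hHX hHne hHc hm0
  unfold TauGe at h
  push Not at h
  obtain ⟨R, hR, htr, hc⟩ := h
  have hc2 := t1 R hR htr
  have hRc : R.card + 1 = k := by omega
  obtain ⟨hq, hbd⟩ := M.tr34 hHX hHne (by linarith) hR hRc htr
  have hbd' : (bd G H R : ℤ) + 1 ≤ m' := by linarith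
  have hq1 := al_clq hq
  have h5 := al_le_sdiff (G := G) H R
  rw [Finset.inter_eq_right.2 hR] at h5
  have h6 : al G (H \ R) < al G H := htr
  have h7 : al G (H \ R) + 1 = al G H := by omega
  have hsub : H \ R ⊆ X := Finset.sdiff_subset.trans hHX
  have hne : H \ R ≠ X := by
    intro e
    exact hHne (Finset.Subset.antisymm hHX (e ▸ Finset.sdiff_subset))
  have hps : ps G k (H \ R) ≤ 6 := by
    have e1 := ps_sdiff (G := G) k hR
    have e2' := sum_deg' (G := G) hR
    have e3 := clq_e2 (G := G) hq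
    have e4 : (al G (H \ R) : ℤ) + 1 = al G H := by exact_mod_cast h7
    obtain ⟨D, hD⟩ : ∃ D : ℕ, ∑ v ∈ R, (nb G H v).card = D := ⟨_, rfl⟩
    rw [hD] at e1 e2'
    obtain ⟨m, hm⟩ : ∃ m, R.card = m := ⟨_, rfl⟩
    have hkm : k = m + 1 := by omega
    rw [hm] at e1 e3
    have e3' : (e2 G R : ℤ) + m = m * m := by exact_mod_cast e3
    have e2'' : (D : ℤ) = e2 G R + bd G H R := by exact_mod_cast e2'
    have hb0 := Int.natCast_nonneg (bd G H R)
    have e5 : (al G H : ℤ) - al G (H \ R) = 1 := by linarith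
    rw [e5, e2''] at e1
    have hkm' : (k : ℤ) = m + 1 := by exact_mod_cast hkm
    rw [hkm'] at e1
    subst hH
    nlinarith
  refine ⟨R, m', ⟨M, B, by rw [← hH]; exact hR, hRc, hq, by rw [← hH]; exact_mod_cast hbd',
    by rw [← hH]; exact hm0, by rw [← hH]; omega, ?_, ?_⟩⟩
  · rw [← hH]
    exact M.tau1 hsub hne (by linarith)
  · rw [← hH, ← Finset.card_pos, Finset.card_sdiff_of_subset hR]
    omega

namespace SX
variable {k : ℕ} {X P : Finset V} {c x x' : V} {R : Finset V} {m : ℕ}
  (s : SX G k X P c x x' R m)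
include s

theorem symm : SX G k X P c x' x R m where
  M := s.M
  B := s.B.symm
  hR := by rw [hb_comm]; exact s.hR
  hRc := s.hRc
  hRq := s.hRq
  hbd := by rw [hb_comm]; exact s.hbd
  hps := by rw [hb_comm]; exact s.hps
  al2 := by rw [hb_comm]; exact s.al2
  tau2 := by rw [hb_comm]; exact s.tau2
  ne2 := by rw [hb_comm]; exact s.ne2

theorem split (a : V) : (nb G (hb X P x x') a).card =
    (nb G R a).card + (nb G (hb X P x x' \ R) a).card := by
  rw [← Finset.card_union_of_disjoint]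
  · congr 1
    ext v
    rw [mem_union, mem_nb, mem_nb, mem_nb, mem_sdiff]
    constructor
    · rintro ⟨h1, h2⟩
      by_cases h : v ∈ R
      · exact Or.inl ⟨h, h2⟩
      · exact Or.inr ⟨⟨h1, h⟩, h2⟩
    · rintro (⟨h1, h2⟩ | ⟨⟨h1, _⟩, h2⟩)
      · exact ⟨s.hR h1, h2⟩
      · exact ⟨h1, h2⟩
  · rw [Finset.disjoint_left]
    intro v hv hv'
    exact (mem_sdiff.1 (mem_nb.1 hv').1).2 (mem_nb.1 hv).1

theorem nbR {p : V} (hp : p ∈ R) : (nb G (hb X P x x' \ R) p).card + 1 ≤ m := by
  have h1 := s.hbd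
  unfold bd at h1
  have h2 := Finset.single_le_sum (f := fun v => (nb G (hb X P x x') v \ R).card)
    (fun v _ => Nat.zero_le _) hp
  have h3 : nb G (hb X P x x' \ R) p = nb G (hb X P x x') p \ R := by
    ext v
    rw [mem_sdiff, mem_nb, mem_nb, mem_sdiff]
    tauto
  rw [h3]
  exact (Nat.succ_le_succ h2).trans h1

/-- a large set avoids the neighbourhoods of a few vertices -/
theorem noI {a b : V} (ha : a ∈ insert x (insert x' P)) (hb' : b ∈ insert x (insert x' P))
    (hab : a ≠ b) (hn : ¬ G.Adj a b) {I : Finset V} (hI : I ⊆ hb X P x x' \ R)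
    (hi : G.IsIndepSet (I : Set V)) (hc : al G (hb X P x x' \ R) ≤ I.card)
    (h1 : ∀ z ∈ I, ¬ G.Adj a z) (h2 : ∀ z ∈ I, ¬ G.Adj b z) :
    k ≤ (nb G R a).card + (nb G R b).card + m := by
  by_contra hcon
  have hRc := s.hRc
  have hbd := s.hbd
  obtain ⟨W, hW⟩ : ∃ W, W = R.filter (fun v => 0 < (nb G (hb X P x x') v \ R).card) := ⟨_, rfl⟩
  have hWc : W.card ≤ bd G (hb X P x x') R := by
    unfold bd
    rw [Finset.card_eq_sum_ones]
    refine (Finset.sum_le_sum fun v hv => ?_).trans
      (Finset.sum_le_sum_of_subset (by rw [hW]; exact Finset.filter_subset _ _))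
    rw [hW] at hv
    exact (mem_filter.1 hv).2
  have hex : ∃ v ∈ R, v ∉ nb G R a ∪ (nb G R b ∪ W) := by
    by_contra hcon2
    push Not at hcon2
    have h3 := Finset.card_le_card (fun v hv => hcon2 v hv : R ⊆ nb G R a ∪ (nb G R b ∪ W))
    have h4 := Finset.card_union_le (nb G R a) (nb G R b ∪ W)
    have h5 := Finset.card_union_le (nb G R b) W
    omega
  obtain ⟨v, hvR, hv⟩ := hex
  rw [mem_union, mem_union, not_or, not_or, mem_nb, mem_nb, hW, mem_filter] at hv
  obtain ⟨hv1, hv2, hv3⟩ := hv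
  have hv3' : nb G (hb X P x x') v \ R = ∅ := by
    rw [← Finset.card_eq_zero]
    by_contra h
    exact hv3 ⟨hvR, Nat.pos_of_ne_zero h⟩
  have hvI : v ∉ I := fun e => (mem_sdiff.1 (hI e)).2 hvR
  have htr := s.B.trF s.M ha hb' hab hn
  have hlt := htr.lt (I := insert v I)
    (Finset.insert_subset (s.hR hvR) (hI.trans Finset.sdiff_subset))
    (indep_insert hi (by
      intro z hz hvz
      have hz' := mem_sdiff.1 (hI hz)
      have : z ∈ nb G (hb X P x x') v \ R := mem_sdiff.2 ⟨mem_nb.2 ⟨hz'.1, hvz⟩, hz'.2⟩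
      rw [hv3'] at this
      simp at this)) (by
    rw [Finset.disjoint_left]
    intro z hz hz'
    rw [mem_insert] at hz
    rw [mem_union, mem_nb, mem_nb] at hz'
    rcases hz with rfl | hz
    · rcases hz' with h | h
      · exact hv1 ⟨hvR, h.2⟩
      · exact hv2 ⟨hvR, h.2⟩
    · rcases hz' with h | h
      · exact h1 z hz h.2
      · exact h2 z hz h.2)
  rw [Finset.card_insert_of_notMem hvI] at hlt
  have h3 := s.al2
  have h4 := s.B.alH s.M
  omega

/-- the bridge argument at a vertex outside `H` -/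
theorem pairm {m' : V} (hm : m' ∈ insert x (insert x' P))
    (h2 : al G ((insert x (insert x' P)).erase m') ≤ 2) :
    ∃ a ∈ (insert x (insert x' P)).erase m', ∃ b ∈ (insert x (insert x' P)).erase m',
      a ≠ b ∧ ¬ G.Adj a b ∧ k ≤ (nb G R a).card + (nb G R b).card + m := by
  have hx := mem_sdiff.1 s.B.hx
  have hx' := mem_sdiff.1 s.B.hx'
  have hk := s.M.hk
  have hRc := s.hRc
  have hal2 := s.al2
  have hRH := s.hR
  have hmX := s.B.memF s.M hm
  obtain ⟨F, hF⟩ : ∃ F, F = insert x (insert x' P) := ⟨_, rfl⟩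
  have hFH : ∀ v ∈ F, v ∉ hb X P x x' := fun v hv => (s.B.memF s.M (hF ▸ hv)).2
  have hFX : ∀ v ∈ F, v ∈ X := fun v hv => (s.B.memF s.M (hF ▸ hv)).1
  have hXF : ∀ v ∈ X, v ∈ F ∨ v ∈ hb X P x x' := by
    intro v hv
    rw [mem_hb, hF, mem_insert, mem_insert]
    tauto
  have hnoI := fun {a b : V} => s.noI (a := a) (b := b)
  rw [← hF] at hm h2 hnoI ⊢
  have hbr := s.M.bridge (W1 := R) (W2 := F.erase m' ∪ (hb X P x x' \ R)) (m := m') (by
    ext v
    rw [mem_insert, mem_union, mem_union, mem_erase, mem_sdiff]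
    constructor
    · rintro (h | h | h | h)
      · exact h ▸ hmX.1
      · exact hb_sub (hRH h)
      · exact hFX v h.2
      · exact hb_sub h.1
    · intro h
      rcases hXF v h with h' | h'
      · by_cases e : v = m'
        · exact Or.inl e
        · exact Or.inr (Or.inr (Or.inl ⟨e, h'⟩))
      · by_cases e : v ∈ R
        · exact Or.inr (Or.inl e)
        · exact Or.inr (Or.inr (Or.inr ⟨h', e⟩))) (by
    rw [Finset.disjoint_left]
    intro v hv hv'
    rw [mem_union, mem_erase, mem_sdiff] at hv'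
    rcases hv' with h | h
    · exact hFH v h.2 (hRH hv)
    · exact h.2 hv) (fun e => hmX.2 (hRH e)) (by
    rw [mem_union, mem_erase, mem_sdiff]
    rintro (h | h)
    · exact h.1 rfl
    · exact hmX.2 h.1) (by
    rw [← Finset.card_pos]
    omega) (by
    obtain ⟨v, hv⟩ := s.ne2
    exact ⟨v, mem_union_right _ hv⟩)
  have hq := al_clq s.hRq
  obtain ⟨I, hI, hi, hIc⟩ := exists_al (G := G) (F.erase m' ∪ (hb X P x x' \ R))
  have hIe : I = (I ∩ F.erase m') ∪ (I ∩ (hb X P x x' \ R)) := by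
    rw [← Finset.inter_union_distrib_left, Finset.inter_eq_left.2 hI]
  have hc1 := Finset.card_union_le (I ∩ F.erase m') (I ∩ (hb X P x x' \ R))
  rw [← hIe] at hc1
  have hJ := le_al (G := G) (X := F.erase m') (I := I ∩ F.erase m') Finset.inter_subset_right
    (indep_mono hi Finset.inter_subset_left)
  have hI2 := le_al (G := G) (X := hb X P x x' \ R) (I := I ∩ (hb X P x x' \ R))
    Finset.inter_subset_right (indep_mono hi Finset.inter_subset_left)
  obtain ⟨a, b, hab, hJe⟩ := Finset.card_eq_two.1 (by omega : (I ∩ F.erase m').card = 2)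
  have ha : a ∈ I ∩ F.erase m' := by rw [hJe]; simp
  have hb' : b ∈ I ∩ F.erase m' := by rw [hJe]; simp
  rw [mem_inter] at ha hb'
  have hiab : ¬ G.Adj a b := fun e =>
    hi (by exact_mod_cast ha.1) (by exact_mod_cast hb'.1) hab e
  refine ⟨a, ha.2, b, hb'.2, hab, hiab, ?_⟩
  have haH := hFH a (mem_of_mem_erase ha.2)
  have hbH := hFH b (mem_of_mem_erase hb'.2)
  refine hnoI (mem_of_mem_erase ha.2) (mem_of_mem_erase hb'.2) hab hiab
    (I := I ∩ (hb X P x x' \ R)) Finset.inter_subset_right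
    (indep_mono hi Finset.inter_subset_left) (by omega) ?_ ?_
  · intro z hz e
    rw [mem_inter, mem_sdiff] at hz
    have haz : a ≠ z := fun e' => haH (by rw [e']; exact hz.2.1)
    exact hi (by exact_mod_cast ha.1) (by exact_mod_cast hz.1) haz e
  · intro z hz e
    rw [mem_inter, mem_sdiff] at hz
    have hbz : b ≠ z := fun e' => hbH (by rw [e']; exact hz.2.1)
    exact hi (by exact_mod_cast hb'.1) (by exact_mod_cast hz.1) hbz e

/-- at the vertex `x'` -/
theorem pairx : ∃ p ∈ P, ¬ G.Adj x p ∧ k ≤ (nb G R x).card + (nb G R p).card + m := by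
  have hx := mem_sdiff.1 s.B.hx
  have hx' := mem_sdiff.1 s.B.hx'
  have he : (insert x (insert x' P)).erase x' = insert x P := by
    rw [Finset.erase_insert_of_ne s.B.hne, Finset.erase_insert hx'.2]
  obtain ⟨a, ha, b, hb', hab, hn, hk⟩ := s.pairm (m' := x')
    (mem_insert_of_mem (mem_insert_self _ _)) (by rw [he]; exact al_insert_clq s.B.hPq x)
  rw [he] at ha hb'
  rw [mem_insert] at ha hb'
  rcases ha with rfl | ha <;> rcases hb' with rfl | hb'
  · exact absurd rfl hab
  · exact ⟨b, hb', hn, hk⟩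
  · exact ⟨a, ha, fun e => hn e.symm, by omega⟩
  · exact absurd (s.B.hPq a ha b hb' hab) hn

/-- an independent triple -/
theorem triple {t : ℕ} (ht : ∀ p ∈ P, (nb G (hb X P x x' \ R) p).card ≤ t) :
    k ≤ (nb G (hb X P x x' \ R) x).card + (nb G (hb X P x x' \ R) x').card + t + m := by
  have hk := s.M.hk
  have hx := mem_sdiff.1 s.B.hx
  have hx' := mem_sdiff.1 s.B.hx'
  have hRH := s.hR
  have hal2 := s.al2
  obtain ⟨H2, hH2⟩ : ∃ H2, H2 = hb X P x x' \ R := ⟨_, rfl⟩
  have hm1 : 1 ≤ m := le_trans (Nat.le_add_left 1 _) s.hbd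
  have hnbR : ∀ v ∈ R, (nb G H2 v).card ≤ m - 1 := by
    intro v hv
    rw [hH2]
    have := s.nbR hv
    omega
  have hmem : ∀ {v : V}, v ∈ H2 ↔ v ∈ hb X P x x' ∧ v ∉ R := by
    intro v
    rw [hH2, mem_sdiff]
  have htau := s.tau2
  have hne2 := s.ne2
  rw [← hH2] at hal2 htau hne2 ht ⊢
  obtain ⟨F, hF⟩ : ∃ F, F = insert x (insert x' P) := ⟨_, rfl⟩
  have hFH : ∀ v ∈ F, v ∉ hb X P x x' := fun v hv => (s.B.memF s.M (hF ▸ hv)).2
  have hFX : ∀ v ∈ F, v ∈ X := fun v hv => (s.B.memF s.M (hF ▸ hv)).1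
  have hXF : ∀ v ∈ X, v ∈ F ∨ v ∈ hb X P x x' := by
    intro v hv
    rw [mem_hb, hF, mem_insert, mem_insert]
    tauto
  have hd : Disjoint (F ∪ R) H2 := by
    rw [Finset.disjoint_left]
    intro v hv hv'
    have h1 := hmem.1 hv'
    rcases mem_union.1 hv with h | h
    · exact hFH v h h1.1
    · exact h1.2 h
  have hFR : F ∪ R ⊆ X := Finset.union_subset hFX (hRH.trans hb_sub)
  have hp1 := s.M.p1 (A := F ∪ R) (B := H2) (by
    ext v
    rw [mem_union, mem_union, hmem]
    constructor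
    · rintro ((h | h) | h)
      · exact hFX v h
      · exact hb_sub (hRH h)
      · exact hb_sub h.1
    · intro h
      rcases hXF v h with h' | h'
      · exact Or.inl (Or.inl h')
      · by_cases e : v ∈ R
        · exact Or.inl (Or.inr e)
        · exact Or.inr ⟨h', e⟩) hd (by
      refine ⟨x, mem_union_left _ ?_⟩
      rw [hF]
      exact mem_insert_self _ _) hne2
  obtain ⟨J, hJ, hi, hJc⟩ := exists_al (G := G) (F ∪ R)
  have hH2X : H2 ⊆ X := by
    intro v hv
    exact hb_sub (hmem.1 hv).1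
  have htr := tr_nbr (G := G) (X := X) (Y := H2) (J := J) (S := J.biUnion (fun z => nb G H2 z))
    hH2X (hJ.trans hFR) (Finset.disjoint_of_subset_left hJ hd) hi (by omega) (by
      intro z hz w hw hzw
      exact mem_biUnion.2 ⟨z, hz, mem_nb.2 ⟨hw, hzw⟩⟩)
  have h1 := htau _ (by
    intro v hv
    obtain ⟨z, _, hz⟩ := mem_biUnion.1 hv
    exact (mem_nb.1 hz).1) htr
  have h2 := Finset.card_biUnion_le (s := J) (t := fun z => nb G H2 z)
  have hsub : J ⊆ insert x (insert x' ((J ∩ P) ∪ (J ∩ R))) := by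
    intro v hv
    rw [mem_insert, mem_insert, mem_union, mem_inter, mem_inter]
    rcases mem_union.1 (hJ hv) with h | h
    · rw [hF, mem_insert, mem_insert] at h
      tauto
    · tauto
  have h3 : ∑ z ∈ J, (nb G H2 z).card ≤
      ∑ z ∈ insert x (insert x' ((J ∩ P) ∪ (J ∩ R))), (nb G H2 z).card :=
    Finset.sum_le_sum_of_subset hsub
  have n1 : x' ∉ (J ∩ P) ∪ (J ∩ R) := by
    rw [mem_union, mem_inter, mem_inter]
    rintro (h | h)
    · exact hx'.2 h.2
    · exact (mem_hb.1 (hRH h.2)).2.2.2 rfl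
  have n2 : x ∉ insert x' ((J ∩ P) ∪ (J ∩ R)) := by
    rw [mem_insert, mem_union, mem_inter, mem_inter]
    rintro (h | h | h)
    · exact s.B.hne h
    · exact hx.2 h.2
    · exact (mem_hb.1 (hRH h.2)).2.2.1 rfl
  have n3 : Disjoint (J ∩ P) (J ∩ R) := by
    rw [Finset.disjoint_left]
    intro v hv hv'
    exact (mem_hb.1 (hRH (mem_inter.1 hv').2)).2.1 (mem_inter.1 hv).2
  rw [Finset.sum_insert n2, Finset.sum_insert n1, Finset.sum_union n3] at h3
  have one : ∀ S : Finset V, Clq G S → (J ∩ S).card ≤ 1 := by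
    intro S hS
    rw [Finset.card_le_one]
    intro v hv w hw
    rw [mem_inter] at hv hw
    by_contra e
    exact hi (by exact_mod_cast hv.1) (by exact_mod_cast hw.1) e (hS v hv.2 w hw.2 e)
  have h4 : ∑ z ∈ J ∩ P, (nb G H2 z).card ≤ (J ∩ P).card • t :=
    Finset.sum_le_card_nsmul _ _ _ fun z hz => ht z (mem_inter.1 hz).2
  have h5 : ∑ z ∈ J ∩ R, (nb G H2 z).card ≤ (J ∩ R).card • (m - 1) :=
    Finset.sum_le_card_nsmul _ _ _ fun z hz => hnbR z (mem_inter.1 hz).2
  rw [smul_eq_mul] at h4 h5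
  have h6 := one P s.B.hPq
  have h7 := one R s.hRq
  have h8 : (J ∩ P).card * t ≤ 1 * t := Nat.mul_le_mul_right _ h6
  have h9 : (J ∩ R).card * (m - 1) ≤ 1 * (m - 1) := Nat.mul_le_mul_right _ h7
  rw [one_mul] at h8 h9
  omega

/-- transversals of `H` contain `R` or are large outside `R` -/
theorem dich {T : Finset V} (ht : Tr G (hb X P x x') T) :
    R ⊆ T ∨ k ≤ (T ∩ (hb X P x x' \ R)).card + m := by
  by_contra hcon
  push Not at hcon
  obtain ⟨h1, h2⟩ := hcon
  have hk := s.M.hk
  obtain ⟨v, hvR, hvT⟩ := Finset.not_subset.1 h1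
  have h3 : Tr G (hb X P x x' \ R) ((T ∩ (hb X P x x' \ R)) ∪ nb G (hb X P x x' \ R) v) := by
    refine tr_of fun I hI hi hd => ?_
    have hvI : v ∉ I := fun e => (mem_sdiff.1 (hI e)).2 hvR
    have hlt := ht.lt (I := insert v I)
      (Finset.insert_subset (s.hR hvR) (hI.trans Finset.sdiff_subset))
      (indep_insert hi (by
        intro z hz hvz
        exact (Finset.disjoint_left.1 hd) hz (mem_union_right _ (mem_nb.2 ⟨hI hz, hvz⟩)))) (by
      rw [Finset.disjoint_left]
      intro z hz hz'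
      rcases mem_insert.1 hz with rfl | h
      · exact hvT hz'
      · exact (Finset.disjoint_left.1 hd) h (mem_union_left _ (mem_inter.2 ⟨hz', hI h⟩)))
    rw [Finset.card_insert_of_notMem hvI] at hlt
    have h3 := s.al2
    have h4 := s.B.alH s.M
    omega
  have h4 := s.tau2 _ (Finset.union_subset Finset.inter_subset_right (nb_sub _ _)) h3
  have h5 := Finset.card_union_le (T ∩ (hb X P x x' \ R)) (nb G (hb X P x x' \ R) v)
  have h6 := s.nbR hvR
  omega

/-- excess of a vertex -/
theorem ex3 {p u u' : V} (hp : p ∈ P) (hu : u ∈ P) (hu' : u' ∈ P) (huu : u ≠ u') (hup : u ≠ p)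
    (hup' : u' ≠ p) (h1 : ¬ G.Adj x u) (h2 : ¬ G.Adj x' u') :
    (nb G X p).card + m ≤ k + 4 := by
  have h3 := s.B.bud1 s.M hu hu' huu h1 h2
  have h4 := s.hps
  have h5 := exs_erase (G := G) (k := k) (X := X) (S := (P.erase u).erase u') (u := p)
    (mem_erase.2 ⟨Ne.symm hup', mem_erase.2 ⟨Ne.symm hup, hp⟩⟩)
  have h6 : (exs G k X ((P.erase u).erase u') : ℤ) + m ≤ 4 := by linarith
  have h7 : exs G k X ((P.erase u).erase u') + m ≤ 4 := by exact_mod_cast h6
  omega

theorem ff : (nb G (hb X P x x') x).card + (nb G (hb X P x x') x').card + exs G k X P + m +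
    2 ≤ 2 * k := by
  have b := s.B.bst s.M
  have hp := s.M.ps_le
  have h4 := s.hps
  have h8 : (0 : ℤ) ≤ if G.Adj x x' then 1 else 0 := by split_ifs <;> norm_num
  have : ((nb G (hb X P x x') x).card : ℤ) + (nb G (hb X P x x') x').card + exs G k X P + m +
      2 ≤ 2 * k := by linarith
  exact_mod_cast this

/-- both vertices miss at least two vertices of `P` -/
theorem caseA (h1 : 2 ≤ (nb Gᶜ P x).card) (h2 : 2 ≤ (nb Gᶜ P x').card) : False := by
  have hk := s.M.hk
  have hx := mem_sdiff.1 s.B.hx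
  have hx' := mem_sdiff.1 s.B.hx'
  have hbd := s.hbd
  have hex : ∀ p ∈ P, (nb G X p).card + m ≤ k + 4 := by
    intro p hp
    obtain ⟨u, hu, u', hu', huu, hup, hup', n1, n2⟩ := s.B.pick2 s.M (p := p) h1 h2
    exact s.ex3 hp hu hu' huu hup hup' n1 n2
  have hN : ∀ p ∈ P, (nb G (hb X P x x') p).card + m ≤ 6 := by
    intro p hp
    have a1 := s.B.nbH s.M hp
    have a2 := hex p hp
    have a3 := s.M.deg_ge p (s.B.hP hp)
    omega
  have htau := (s.B.tau1 s.M).2
  obtain ⟨u, hu, u', hu', huu, n1, n2⟩ := s.B.pick s.M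
  have hff := s.ff
  obtain ⟨p, hp, -, hkp⟩ := s.pairx
  obtain ⟨p', hp', -, hkp'⟩ := s.symm.pairx
  have e1 := hN p hp
  have e2' := hN p' hp'
  have f1 := s.split p
  have f2 := s.split p'
  have f3 := s.split x
  have f4 := s.split x'
  have ht := s.triple (t := 6 - m) (by
    intro q hq
    have a1 := hN q hq
    have a2 := s.split q
    omega)
  omega

/-- the vertex `x` misses only one vertex of `P` -/
theorem caseB (h1 : (nb Gᶜ P x).card ≤ 1) : False := by
  have hk := s.M.hk
  have hx := mem_sdiff.1 s.B.hx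
  have hx' := mem_sdiff.1 s.B.hx'
  have hbd := s.hbd
  have hm1 := s.B.missP s.M
  have hm2 := s.B.missPx s.M
  obtain ⟨b, hb'⟩ := Finset.card_eq_one.1 (by omega : (nb Gᶜ P x).card = 1)
  have hbm : b ∈ nb Gᶜ P x := by rw [hb']; exact mem_singleton_self b
  rw [mem_nbc' hx.2] at hbm
  have hD : ∀ p ∈ P, p ≠ b → G.Adj x p := by
    intro p hp hpb
    by_contra hn
    have : p ∈ nb Gᶜ P x := (mem_nbc' hx.2).2 ⟨hp, hn⟩
    rw [hb', mem_singleton] at this
    exact hpb this
  have hpick : ∀ p : V, ∃ u' ∈ P, u' ≠ b ∧ u' ≠ p ∧ ¬ G.Adj x' u' := by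
    intro p
    have : ∃ u' ∈ nb Gᶜ P x', u' ∉ ({b, p} : Finset V) := by
      by_contra hcon
      push Not at hcon
      have h3 := Finset.card_le_card (fun v hv => hcon v hv : nb Gᶜ P x' ⊆ {b, p})
      have h4 := Finset.card_le_two (a := b) (b := p)
      omega
    obtain ⟨u', hu', hn⟩ := this
    rw [mem_nbc' hx'.2] at hu'
    rw [mem_insert, mem_singleton, not_or] at hn
    exact ⟨u', hu'.1, hn.1, hn.2, hu'.2⟩
  have hex : ∀ p ∈ P, p ≠ b → (nb G X p).card + m ≤ k + 4 := by
    intro p hp hpb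
    obtain ⟨u', hu', n1, n2, n3⟩ := hpick p
    exact s.ex3 hp hbm.1 hu' (Ne.symm n1) (Ne.symm hpb) n2 hbm.2 n3
  have hN : ∀ p ∈ P, p ≠ b → (nb G (hb X P x x') p).card + m ≤ 5 := by
    intro p hp hpb
    have a1 := s.B.nbH s.M hp
    have a2 := hex p hp hpb
    have a3 := s.M.deg_ge p (s.B.hP hp)
    rw [ad_one (hD p hp hpb).symm] at a1
    omega
  have htau := (s.B.tau1 s.M).2
  obtain ⟨u', hu', hub, -, n2⟩ := hpick b
  have c1 := s.B.cardF s.M htau (a := x) (b := b) (mem_insert_self _ _)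
    (mem_insert_of_mem (mem_insert_of_mem hbm.1)) (fun e => hx.2 (e ▸ hbm.1)) hbm.2
  have hxu' : x' ≠ u' := fun e => hx'.2 (e ▸ hu')
  have c2 := s.B.cardF s.M htau (a := x') (b := u') (mem_insert_of_mem (mem_insert_self _ _))
    (mem_insert_of_mem (mem_insert_of_mem hu')) hxu' n2
  have d2 := hN u' hu' hub
  have hff := s.ff
  have hbN := s.B.nbH s.M hbm.1
  have heb := exs_erase (G := G) (k := k) (X := X) hbm.1
  obtain ⟨p, hp, hxp, hkp⟩ := s.pairx
  have hpb : p = b := by
    by_contra e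
    exact hxp (hD p hp e)
  rw [hpb] at hkp
  obtain ⟨p', hp', -, hkp'⟩ := s.symm.pairx
  have f1 := s.split b
  have f2 := s.split p'
  have f3 := s.split x
  have f4 := s.split x'
  have f5 := s.split u'
  have htr := s.B.trF s.M (a := x') (b := u') (mem_insert_of_mem (mem_insert_self _ _))
    (mem_insert_of_mem (mem_insert_of_mem hu')) hxu' n2
  rcases s.dich htr with hd | hd
  · -- `R`-type
    have g1 : R ⊆ nb G R x' ∪ nb G R u' := by
      intro v hv
      have h3 := hd hv
      rw [mem_union, mem_nb, mem_nb] at h3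
      rw [mem_union, mem_nb, mem_nb]
      tauto
    have g2 := Finset.card_le_card g1
    have g3 := Finset.card_union_le (nb G R x') (nb G R u')
    have hRc := s.hRc
    have ht := s.triple (t := max (5 - m) (nb G (hb X P x x' \ R) b).card) (by
      intro q hq
      by_cases e : q = b
      · rw [e]
        exact le_max_right _ _
      · have a1 := hN q hq e
        have a2 := s.split q
        exact le_trans (by omega) (le_max_left _ _))
    rcases le_total (5 - m) (nb G (hb X P x x' \ R) b).card with h5 | h5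
    · rw [max_eq_right h5] at ht
      omega
    · rw [max_eq_left h5] at ht
      omega
  · have g1 : (nb G (hb X P x x') x' ∪ nb G (hb X P x x') u') ∩ (hb X P x x' \ R) ⊆
        nb G (hb X P x x' \ R) x' ∪ nb G (hb X P x x' \ R) u' := by
      intro v hv
      rw [mem_inter, mem_union, mem_nb, mem_nb] at hv
      rw [mem_union, mem_nb, mem_nb]
      tauto
    have g2 := Finset.card_le_card g1
    have g3 := Finset.card_union_le (nb G (hb X P x x' \ R) x') (nb G (hb X P x x' \ R) u')
    by_cases hpb' : p' = b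
    · rw [hpb'] at hkp'
      obtain ⟨y, hy, z, hz, hyz, hnyz, hkyz⟩ := s.pairm (m' := b)
        (mem_insert_of_mem (mem_insert_of_mem hbm.1)) (by
          have hxb : x ≠ b := fun e => hx.2 (e ▸ hbm.1)
          have hxb' : x' ≠ b := fun e => hx'.2 (e ▸ hbm.1)
          rw [Finset.erase_insert_of_ne hxb, Finset.erase_insert_of_ne hxb',
            Finset.insert_comm]
          refine al_insert_clq ?_ x'
          intro p hp q hq hpq
          rw [mem_insert, mem_erase] at hp hq
          rcases hp with rfl | hp <;> rcases hq with rfl | hq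
          · exact absurd rfl hpq
          · exact hD q hq.2 hq.1
          · exact (hD p hp.2 hp.1).symm
          · exact s.B.hPq p hp.2 q hq.2 hpq)
      have hxR : (nb G R x).card ≤ 10 := by omega
      have hxR' : (nb G R x').card ≤ 5 := by omega
      have hpR : ∀ w ∈ P, w ≠ b → (nb G R w).card ≤ 4 := by
        intro w hw hwb
        have a1 := hN w hw hwb
        have a2 := s.split w
        omega
      rw [mem_erase, mem_insert, mem_insert] at hy hz
      have hbnd : ∀ w : V, w ≠ b → (w = x ∨ w = x' ∨ w ∈ P) → w ≠ x →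
          (nb G R w).card ≤ 5 := by
        intro w hwb h hwx
        rcases h with h | h | h
        · exact absurd h hwx
        · rw [h]
          exact hxR'
        · exact (hpR w h hwb).trans (by norm_num)
      by_cases hyx : y = x
      · have hzx : z ≠ x := fun e => hyz (hyx.trans e.symm)
        have b2 := hbnd z hz.1 hz.2 hzx
        rw [hyx] at hkyz
        omega
      · have b1 := hbnd y hy.1 hy.2 hyx
        by_cases hzx : z = x
        · rw [hzx] at hkyz
          omega
        · have b2 := hbnd z hz.1 hz.2 hzx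
          omega
    · have a1 := hN p' hp' hpb'
      omega

theorem false : False := by
  by_cases h1 : (nb Gᶜ P x).card ≤ 1
  · exact s.caseB h1
  by_cases h2 : (nb Gᶜ P x').card ≤ 1
  · exact s.symm.caseB h2
  exact s.caseA (by omega) (by omega)

end SX

/-- the consequences for a base -/
theorem Base.bp {k : ℕ} {X P : Finset V} {c x x' : V} (B : Base G k X P c x x')
    (M : MC G k X) : BP G k X P x x' := by
  have htau : TauGe G (hb X P x x') k := by
    by_contra h
    obtain ⟨R, m, s⟩ := B.exists_sx M h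
    exact s.false
  obtain ⟨u, hu, u', hu', huu, h1, h2⟩ := B.pick M
  have h3 := B.bud M htau hu hu' huu h1 h2
  have i4 := Int.natCast_nonneg (exs G k X ((P.erase u).erase u'))
  exact ⟨B.alH M, htau, B.ps0 M, by linarith, B.ntx M, B.ntx' M, B.bst M⟩

end Pool.Agent.TwoDens.TK
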