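import Pool.Agent.TKE.XF

/-!
Two bases sharing exactly one outside neighbour: first part (paths with three edges).
-/

open Finset

namespace Pool.Agent.TwoDens.TK

open Pool.Agent.TwoDens Pool.Agent.TwoDens.RK Pool.Agent.TwoDens.DD

variable {V : Type*} [DecidableEq V] {G : SimpleGraph V} [DecidableRel G.Adj]

/-- the block belonging to `x`: a clique `insert t R` with `k - 1` vertices -/
structure Blk (G : SimpleGraph V) [DecidableRel G.Adj] (k : ℕ) (H : Finset V) (x t r : V)
    (R : Finset V) : Prop where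
  htH : t ∈ H
  hN : nb G H x = insert r R
  hrR : r ∉ R
  hRc : R.card + 2 = k
  htN : t ∉ nb G H x
  tr : Tr G H (insert t (nb G H x))
  clq : Clq G (insert t R)
  dg : ∀ v ∈ insert t R, (nb G H v).card + 1 = k
  ms : 7 ≤ (nb Gᶜ R r).card

theorem Fr.blk {k : ℕ} {X P : Finset V} (F : Fr G k X P) {c x x' : V} (B : Base G k X P c x x')
    (hps : ps G k (hb X P x x') = 0) (hf : (nb G (hb X P x x') x').card + 1 = k)
    {u t : V} (hu : u ∈ P) (hxu : ¬ G.Adj x' u) (hNu : nb G (hb X P x x') u = {t}) :
    ∃ r R, Blk G k (hb X P x x') x' t r R := by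
  obtain ⟨htH, htn, r, hr, hS, hms⟩ := F.block B hf hu hxu hNu
  have htr : t ≠ r := fun e => htn (e ▸ hr)
  have hTe : (insert t (nb G (hb X P x x') x')).erase r =
      insert t ((nb G (hb X P x x') x').erase r) := Finset.erase_insert_of_ne htr
  have h5 : 5 ≤ (nb Gᶜ (insert t (nb G (hb X P x x') x')) r).card := by
    have h6 : nb Gᶜ ((nb G (hb X P x x') x').erase r) r ⊆
        nb Gᶜ (insert t (nb G (hb X P x x') x')) r :=
      Finset.filter_subset_filter _ ((Finset.erase_subset _ _).trans (Finset.subset_insert _ _))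
    have h7 := Finset.card_le_card h6
    omega
  have hd := F.mc.star0 hb_sub B.hbne (by rw [hps]; norm_num) hS h5
  have hcl := hS.clq
  rw [hTe] at hd hcl
  have htr2 := F.tr_xu B.symm hu hxu
  rw [hb_comm X P x' x, hNu, Finset.union_comm, ← Finset.insert_eq] at htr2
  refine ⟨r, (nb G (hb X P x x') x').erase r, htH, (Finset.insert_erase hr).symm,
    Finset.notMem_erase _ _, ?_, htn, htr2, hcl, hd, hms⟩
  have : ((nb G (hb X P x x') x').erase r).card + 1 = (nb G (hb X P x x') x').card :=
    Finset.card_erase_add_one hr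
  omega

namespace Blk
variable {k : ℕ} {H R : Finset V} {x t r : V} (b : Blk G k H x t r R)
include b

theorem tR : t ∉ R := fun e => b.htN (by rw [b.hN]; exact mem_insert_of_mem e)

theorem xR {w : V} (hw : w ∈ R) : G.Adj x w :=
  (mem_nb.1 (by rw [b.hN]; exact mem_insert_of_mem hw : w ∈ nb G H x)).2

theorem RH : R ⊆ H := fun w hw =>
  (mem_nb.1 (by rw [b.hN]; exact mem_insert_of_mem hw : w ∈ nb G H x)).1

theorem qH : insert t R ⊆ H := Finset.insert_subset b.htH b.RH

theorem qc : (insert t R).card + 1 = k := by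
  rw [Finset.card_insert_of_notMem b.tR]
  have := b.hRc
  omega

theorem rH : r ∈ H := (mem_nb.1 (by rw [b.hN]; exact mem_insert_self _ _ : r ∈ nb G H x)).1

theorem ax {w : V} (hw : w ∈ H) (h : G.Adj x w) : w = r ∨ w ∈ R := by
  have h1 : w ∈ nb G H x := mem_nb.2 ⟨hw, h⟩
  rw [b.hN, mem_insert] at h1
  exact h1

theorem trn : t ≠ r := fun e => b.htN (by rw [b.hN, e]; exact mem_insert_self _ _)

end Blk

/-- two blocks of the same `H` are disjoint -/
theorem blk_disj {k : ℕ} {X H R R' : Finset V} {x t r x' t' r' : V} (M : MC G k X)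
    (hH : H ⊆ X) (hx : x ∈ X) (hx' : x' ∈ X) (hxx : x ≠ x') (hxH : x ∉ H) (hxH' : x' ∉ H)
    (b : Blk G k H x t r R) (b' : Blk G k H x' t' r' R') :
    Disjoint (insert t R) (insert t' R') := by
  have hk := M.hk
  rw [Finset.disjoint_left]
  intro w hw hw'
  have h1 := b.dg w hw
  have hsub : (insert t R ∪ insert t' R').erase w ⊆ nb G H w := by
    intro v hv
    rw [mem_erase, mem_union] at hv
    rcases hv.2 with h2 | h2
    · exact mem_nb.2 ⟨b.qH h2, b.clq w hw v h2 (Ne.symm hv.1)⟩
    · exact mem_nb.2 ⟨b'.qH h2, b'.clq w hw' v h2 (Ne.symm hv.1)⟩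
  have h2 := Finset.card_le_card hsub
  rw [Finset.card_erase_of_mem (mem_union_left _ hw)] at h2
  have h3 := Finset.card_union_add_card_inter (insert t R) (insert t' R')
  have h4 := b.qc
  have h5 := b'.qc
  have h6 := M.near2 (b.qH.trans hH) b.clq b.qc hx hx' hxx (fun e => hxH (b.qH e))
    (fun e => hxH' (b.qH e))
  have h7 : (nb Gᶜ (insert t R) x).card ≤ 1 := by
    refine nbc_one (s := t) ?_
    intro v hv hvt
    rw [mem_insert] at hv
    exact b.xR (hv.resolve_left hvt)
  have h8 : nb Gᶜ (insert t R) x' ⊆ insert t' (insert t R \ insert t' R') := by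
    intro v hv
    have h9 := mem_nb.1 hv
    have h10 := (SimpleGraph.compl_adj _ _ _).1 h9.2
    rw [mem_insert, mem_sdiff]
    by_cases e : v = t'
    · exact Or.inl e
    · refine Or.inr ⟨h9.1, ?_⟩
      intro h11
      rw [mem_insert] at h11
      exact h10.2 (b'.xR (h11.resolve_left e))
  have h9 := Finset.card_le_card h8
  have h10 := Finset.card_insert_le t' (insert t R \ insert t' R')
  have h11 : (insert t R \ insert t' R').card + (insert t R ∩ insert t' R').card =
      (insert t R).card := Finset.card_sdiff_add_card_inter _ _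
  omega

/-- if `x` is adjacent to `t'`: Lemma W -/
theorem blk_cross {k : ℕ} {X H R R' : Finset V} {x t r x' t' r' : V} (M : MC G k X)
    (hH : H ⊆ X) (hne : H ≠ X) (hps : ps G k H = 0) (hx' : x' ∈ X)
    (hxH' : x' ∉ H) (b : Blk G k H x t r R) (b' : Blk G k H x' t' r' R')
    (hd : Disjoint (insert t R) (insert t' R')) : ¬ G.Adj x t' := by
  intro h
  have hk := M.hk
  have h1 := b.ax b'.htH h
  have h2 : t' = r := by
    rcases h1 with h1 | h1
    · exact h1
    · exact absurd (mem_insert_self _ _) ((Finset.disjoint_left.1 hd) (mem_insert_of_mem h1))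
  obtain ⟨w, hw⟩ : R'.Nonempty := Finset.card_pos.1 (by have := b'.hRc; omega)
  refine M.lemW hH hne (by rw [hps]; norm_num) (M.tau0 hH hne (by rw [hps]; norm_num))
    (R := insert t R) (R' := insert t' R') (r := t') (w := w) (z := x') b.qH b.qc b'.htH ?_ ?_
    b'.qH b'.qc b'.clq (mem_insert_self _ _) hd (mem_insert_of_mem hw)
    (fun e => b'.tR (e ▸ hw)) (b'.dg w (mem_insert_of_mem hw)) hx' hxH' ?_
  · exact fun e => (Finset.disjoint_left.1 hd) e (mem_insert_self _ _)
  · have h3 := b.tr
    rw [b.hN, Finset.insert_comm, ← h2] at h3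
    exact h3
  · rw [Finset.erase_insert b'.tR]
    have h3 : R' ⊆ nb G R' x' := fun v hv => mem_nb.2 ⟨hv, b'.xR hv⟩
    have h4 := Finset.card_le_card h3
    have := b'.hRc
    omega

theorem Fr.ta {k : ℕ} {X P : Finset V} (F : Fr G k X P) {c u u' x x' t t' : V}
    (B : Base G k X P c x x') (Bu : Base G k X P u x' t) (Bu' : Base G k X P u' x t')
    (htx : t ≠ x) (htx' : t' ≠ x') : False := by
  have hk := F.mc.hk
  have hk' : (20 : ℤ) ≤ k := by exact_mod_cast hk
  have hxX := mem_sdiff.1 B.hx
  have hxX' := mem_sdiff.1 B.hx'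
  have htX := mem_sdiff.1 Bu.hx'
  have htX' := mem_sdiff.1 Bu'.hx'
  have n1 : ¬ G.Adj u x := Bu.na B.hx B.hne (Ne.symm htx)
  have n2 : ¬ G.Adj u' x' := Bu'.na B.hx' B.hne.symm (Ne.symm htx')
  have huu : u ≠ u' := fun e => n2 (e ▸ Bu.ax)
  have h5 := F.seven B Bu.hc Bu'.hc huu
  have e1 : (ad G u x : ℤ) = 0 := by rw [ad_zero n1]; rfl
  have e2' : (ad G u x' : ℤ) = 1 := by rw [ad_one Bu.ax]; rfl
  have e3 : (ad G u' x : ℤ) = 1 := by rw [ad_one Bu'.ax]; rfl
  have e4 : (ad G u' x' : ℤ) = 0 := by rw [ad_zero n2]; rfl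
  rw [e1, e2', e3, e4] at h5
  have h10 := F.card_xu' B Bu.hc (fun e => n1 e.symm)
  have h11 := F.card_xu' B.symm Bu'.hc (fun e => n2 e.symm)
  rw [hb_comm X P x' x] at h11
  have h10' : (k : ℤ) ≤ (nb G (hb X P x x') x).card + (nb G (hb X P x x') u).card := by
    exact_mod_cast h10
  have h11' : (k : ℤ) ≤ (nb G (hb X P x x') x').card + (nb G (hb X P x x') u').card := by
    exact_mod_cast h11
  have h12' := (F.bp _ _ _ B).ps0
  have h13 := F.mc.ps_le
  have a3 := Int.natCast_nonneg (ad G x x')
  have a4 := Int.natCast_nonneg (exs G k X ((P.erase u).erase u'))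
  have r1 : (ad G x x' : ℤ) = 0 := by linarith
  have r2 : ps G k (hb X P x x') = 0 := by linarith
  have r3 : ((nb G (hb X P x x') x).card : ℤ) + (nb G (hb X P x x') u).card = k := by linarith
  have r4 : ((nb G (hb X P x x') x').card : ℤ) + (nb G (hb X P x x') u').card = k := by linarith
  have r3' : (nb G (hb X P x x') x).card + (nb G (hb X P x x') u).card = k := by exact_mod_cast r3
  have r4' : (nb G (hb X P x x') x').card + (nb G (hb X P x x') u').card = k := by
    exact_mod_cast r4
  have nxx : ¬ G.Adj x x' := by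
    intro h
    rw [ad_one h] at r1
    norm_num at r1
  have hNu : nb G (hb X P x x') u = {t} := by
    rw [nb_hb, Bu.hout]
    ext v
    simp only [mem_sdiff, mem_insert, mem_singleton]
    constructor
    · rintro ⟨h | h, h'⟩
      · exact absurd (Or.inr h) h'
      · exact h
    · rintro rfl
      exact ⟨Or.inr rfl, fun h => h.elim htx (fun h => Bu.hne h.symm)⟩
  have hNu' : nb G (hb X P x x') u' = {t'} := by
    rw [nb_hb, Bu'.hout]
    ext v
    simp only [mem_sdiff, mem_insert, mem_singleton]
    constructor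
    · rintro ⟨h | h, h'⟩
      · exact absurd (Or.inl h) h'
      · exact h
    · rintro rfl
      exact ⟨Or.inr rfl, fun h => h.elim (fun h => Bu'.hne h.symm) htx'⟩
  rw [hNu, Finset.card_singleton] at r3'
  rw [hNu', Finset.card_singleton] at r4'
  obtain ⟨r, R, b⟩ := F.blk B.symm (by rw [hb_comm]; exact r2) (by rw [hb_comm]; exact r3') Bu.hc
    (fun e => n1 e.symm) (by rw [hb_comm]; exact hNu)
  obtain ⟨r', R', b'⟩ := F.blk B r2 r4' Bu'.hc (fun e => n2 e.symm) hNu'
  rw [hb_comm X P x' x] at b
  obtain ⟨H, hH⟩ : ∃ H, H = hb X P x x' := ⟨_, rfl⟩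
  have hHX : H ⊆ X := by rw [hH]; exact hb_sub
  have hHne : H ≠ X := by rw [hH]; exact B.hbne
  rw [← hH] at b b' r2
  have hxH : x ∉ H := by rw [hH, mem_hb]; exact fun e => e.2.2.1 rfl
  have hxH' : x' ∉ H := by rw [hH, mem_hb]; exact fun e => e.2.2.2 rfl
  have hd := blk_disj F.mc hHX hxX.1 hxX'.1 B.hne hxH hxH' b b'
  have nxt' := blk_cross F.mc hHX hHne r2 hxX'.1 hxH' b b' hd
  have nx't := blk_cross F.mc hHX hHne r2 hxX.1 hxH b' b hd.symm
  have nxt : ¬ G.Adj x t := fun e => b.htN (mem_nb.2 ⟨b.htH, e⟩)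
  have nx't' : ¬ G.Adj x' t' := fun e => b'.htN (mem_nb.2 ⟨b'.htH, e⟩)
  have htt : t ≠ t' := fun e => (Finset.disjoint_left.1 hd) (mem_insert_self t R)
    (e ▸ mem_insert_self t' R')
  have halH : al G H + 1 = al G X := by rw [hH]; exact (F.bp _ _ _ B).alH
  have hnbt : (nb G H t \ insert t R).card ≤ 1 := by
    have h1 : insert t R ∪ nb G H t = insert t (nb G H t) := by
      ext v
      rw [mem_union, mem_insert, mem_insert]
      constructor
      · rintro ((h | h) | h)
        · exact Or.inl h
        · by_cases e : v = t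
          · exact Or.inl e
          · exact Or.inr (mem_nb.2 ⟨b.RH h, b.clq t (mem_insert_self _ _) v
              (mem_insert_of_mem h) (Ne.symm e)⟩)
        · exact Or.inr h
      · rintro (h | h)
        · exact Or.inl (Or.inl h)
        · exact Or.inr h
    have h2 : (nb G H t \ insert t R).card + (insert t R).card =
        (insert t (nb G H t)).card := by
      rw [← h1, Finset.card_sdiff_add_card, Finset.union_comm]
    have h3 := Finset.card_insert_le t (nb G H t)
    have h4 := b.dg t (mem_insert_self _ _)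
    have h5 := b.qc
    omega
  have hnbt' : (nb G H t' \ insert t' R').card ≤ 1 := by
    have h1 : insert t' R' ∪ nb G H t' = insert t' (nb G H t') := by
      ext v
      rw [mem_union, mem_insert, mem_insert]
      constructor
      · rintro ((h | h) | h)
        · exact Or.inl h
        · by_cases e : v = t'
          · exact Or.inl e
          · exact Or.inr (mem_nb.2 ⟨b'.RH h, b'.clq t' (mem_insert_self _ _) v
              (mem_insert_of_mem h) (Ne.symm e)⟩)
        · exact Or.inr h
      · rintro (h | h)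
        · exact Or.inl (Or.inl h)
        · exact Or.inr h
    have h2 : (nb G H t' \ insert t' R').card + (insert t' R').card =
        (insert t' (nb G H t')).card := by
      rw [← h1, Finset.card_sdiff_add_card, Finset.union_comm]
    have h3 := Finset.card_insert_le t' (nb G H t')
    have h4 := b'.dg t' (mem_insert_self _ _)
    have h5 := b'.qc
    omega
  by_cases att : G.Adj t t'
  · -- Lemma W for the base `u`
    have hnbt2 : nb G H t = insert t' R := by
      symm
      refine Finset.eq_of_subset_of_card_le ?_ ?_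
      · intro v hv
        rw [mem_insert] at hv
        rcases hv with rfl | hv
        · exact mem_nb.2 ⟨b'.htH, att⟩
        · exact mem_nb.2 ⟨b.RH hv, b.clq t (mem_insert_self _ _) v (mem_insert_of_mem hv)
            (fun e => b.tR (e ▸ hv))⟩
      · rw [Finset.card_insert_of_notMem (fun e => (Finset.disjoint_left.1 hd)
          (mem_insert_of_mem e) (mem_insert_self _ _))]
        have h4 := b.dg t (mem_insert_self _ _)
        have h5 := b.hRc
        omega
    obtain ⟨Hu, hHu⟩ : ∃ H, H = hb X P x' t := ⟨_, rfl⟩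
    have hmemU : ∀ {v : V}, v ∈ Hu ↔ v ∈ X ∧ v ∉ P ∧ v ≠ x' ∧ v ≠ t := by
      intro v
      rw [hHu]
      exact mem_hb
    have hmemH : ∀ {v : V}, v ∈ H ↔ v ∈ X ∧ v ∉ P ∧ v ≠ x ∧ v ≠ x' := by
      intro v
      rw [hH]
      exact mem_hb
    have hHUX : Hu ⊆ X := by rw [hHu]; exact hb_sub
    have hHUne : Hu ≠ X := by rw [hHu]; exact Bu.hbne
    have hbu1 := (F.bp _ _ _ Bu).alH
    have hbu2 := (F.bp _ _ _ Bu).ps4
    have hbu3 := (F.bp _ _ _ Bu).tau
    rw [← hHu] at hbu1 hbu2 hbu3
    have hHtoU : ∀ v ∈ H, v ≠ t → v ∈ Hu := by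
      intro v hv hvt
      have := hmemH.1 hv
      exact hmemU.2 ⟨this.1, this.2.1, this.2.2.2, hvt⟩
    have hxU : x ∈ Hu := hmemU.2 ⟨hxX.1, hxX.2, B.hne, Ne.symm htx⟩
    have ncT : ¬ G.Adj c t := B.na Bu.hx' htx Bu.hne.symm
    have hTr : Tr G Hu (insert t' (insert x R)) := by
      have h1 := Base.tr2 (G := G) (X := X) (P := P) (x := x') (x' := t) (u := t) (v := c)
        (by rw [← hHu]; exact hbu1) htX.1 (F.hP B.hc)
        (by rw [mem_hb]; exact fun e => e.2.2.2 rfl)
        (by rw [mem_hb]; exact fun e => e.2.1 B.hc) (fun e => htX.2 (e ▸ B.hc))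
        (fun e => ncT e.symm)
      rw [← hHu] at h1
      refine tr_mono h1 ?_
      intro v hv
      rw [mem_inter, mem_union, mem_nb, mem_nb] at hv
      rw [mem_insert, mem_insert]
      rcases hv.1 with h2 | h2
      · by_cases e : v = x
        · exact Or.inr (Or.inl e)
        · have h3 := hmemU.1 h2.1
          have h4 : v ∈ nb G H t := mem_nb.2 ⟨hmemH.2 ⟨h3.1, h3.2.1, e, h3.2.2.1⟩, h2.2⟩
          rw [hnbt2, mem_insert] at h4
          rcases h4 with h4 | h4
          · exact Or.inl h4
          · exact Or.inr (Or.inr h4)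
      · have h3 := hmemU.1 h2.1
        have h4 : v ∈ nb G (X \ P) c := mem_nb.2 ⟨mem_sdiff.2 ⟨h3.1, h3.2.1⟩, h2.2⟩
        rw [B.hout, mem_insert, mem_singleton] at h4
        rcases h4 with h4 | h4
        · exact Or.inr (Or.inl h4)
        · exact absurd h4 h3.2.2.1
    have hxR : x ∉ R := fun e => hxH (b.RH e)
    have ht'R : t' ∉ R := fun e => (Finset.disjoint_left.1 hd)
          (mem_insert_of_mem e) (mem_insert_self _ _)
    obtain ⟨w, hw⟩ : (R'.erase r).Nonempty := Finset.card_pos.1 (by
      have := Finset.pred_card_le_card_erase (s := R') (a := r)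
      have := b'.hRc
      omega)
    rw [mem_erase] at hw
    have hwQ : w ∉ insert t R := fun e => (Finset.disjoint_left.1 hd) e (mem_insert_of_mem hw.2)
    have nwx : ¬ G.Adj w x := by
      intro e
      rcases b.ax (b'.RH hw.2) e.symm with e' | e'
      · exact hw.1 e'
      · exact hwQ (mem_insert_of_mem e')
    have nwt : ¬ G.Adj w t := by
      intro e
      have h4 : w ∈ nb G H t := mem_nb.2 ⟨b'.RH hw.2, e.symm⟩
      rw [hnbt2, mem_insert] at h4
      rcases h4 with h4 | h4
      · exact b'.tR (h4 ▸ hw.2)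
      · exact hwQ (mem_insert_of_mem h4)
    have hwd : (nb G Hu w).card + 1 = k := by
      rw [← b'.dg w (mem_insert_of_mem hw.2)]
      congr 2
      ext v
      rw [mem_nb, mem_nb, hmemU, hmemH]
      constructor
      · rintro ⟨⟨h1, h2, h3, h4⟩, h6⟩
        exact ⟨⟨h1, h2, fun e => nwx (e ▸ h6), h3⟩, h6⟩
      · rintro ⟨⟨h1, h2, h3, h4⟩, h6⟩
        exact ⟨⟨h1, h2, h4, fun e => nwt (e ▸ h6)⟩, h6⟩
    refine F.mc.lemW hHUX hHUne hbu2 hbu3 (R := insert x R) (R' := insert t' R')
      (r := t') (w := w) (z := x') ?_ ?_ (hHtoU t' b'.htH (Ne.symm htt)) ?_ hTr ?_ b'.qc b'.clq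
      (mem_insert_self _ _) ?_ (mem_insert_of_mem hw.2) (fun e => b'.tR (e ▸ hw.2)) hwd hxX'.1
      (fun e => (hmemU.1 e).2.2.1 rfl) ?_
    · refine Finset.insert_subset hxU ?_
      intro v hv
      exact hHtoU v (b.RH hv) (fun e => b.tR (e ▸ hv))
    · rw [Finset.card_insert_of_notMem hxR]
      have := b.hRc
      omega
    · rw [mem_insert]
      rintro (e | e)
      · exact hxH (e ▸ b'.htH)
      · exact ht'R e
    · intro v hv
      refine hHtoU v (b'.qH hv) ?_
      rintro rfl
      exact (Finset.disjoint_left.1 hd) (mem_insert_self _ _) hv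
    · rw [Finset.disjoint_left]
      intro v hv hv'
      rw [mem_insert] at hv
      rcases hv with rfl | hv
      · exact hxH (b'.qH hv')
      · exact (Finset.disjoint_left.1 hd) (mem_insert_of_mem hv) hv'
    · rw [Finset.erase_insert b'.tR]
      have h3 : R' ⊆ nb G R' x' := fun v hv => mem_nb.2 ⟨hv, b'.xR hv⟩
      have h4 := Finset.card_le_card h3
      have := b'.hRc
      omega
  · -- the exchange
    obtain ⟨S, hS⟩ : ∃ S, S = (insert t (nb G H x) ∪ insert t' (nb G H x')) ∪
      ((nb G H t \ insert t R) ∪ (nb G H t' \ insert t' R')) := ⟨_, rfl⟩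
    have hSH : S ⊆ H := by
      rw [hS]
      refine Finset.union_subset (Finset.union_subset ?_ ?_) (Finset.union_subset ?_ ?_)
      · exact Finset.insert_subset b.htH (nb_sub _ _)
      · exact Finset.insert_subset b'.htH (nb_sub _ _)
      · exact Finset.sdiff_subset.trans (nb_sub _ _)
      · exact Finset.sdiff_subset.trans (nb_sub _ _)
    have hScard : S.card ≤ 2 * k + 2 := by
      have h1 := Finset.card_union_le (insert t (nb G H x) ∪ insert t' (nb G H x'))
        ((nb G H t \ insert t R) ∪ (nb G H t' \ insert t' R'))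
      have h2 := Finset.card_union_le (insert t (nb G H x)) (insert t' (nb G H x'))
      have h3 := Finset.card_union_le (nb G H t \ insert t R) (nb G H t' \ insert t' R')
      have h4 := Finset.card_insert_le t (nb G H x)
      have h5 := Finset.card_insert_le t' (nb G H x')
      rw [← hS] at h1
      rw [← hH] at r3' r4'
      omega
    have hJi : G.IsIndepSet (({x, x', t, t'} : Finset V) : Set V) := by
      refine indep_insert (indep_triple nx't nx't' att) ?_
      intro v hv
      rw [mem_insert, mem_insert, mem_singleton] at hv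
      rcases hv with rfl | rfl | rfl
      · exact nxx
      · exact nxt
      · exact nxt'
    have hJc : ({x, x', t, t'} : Finset V).card = 4 := by
      have a1 : x ≠ t := Ne.symm htx
      have a2 : x ≠ t' := fun e => hxH (e ▸ b'.htH)
      have a3 : x' ≠ t := fun e => hxH' (e ▸ b.htH)
      have a4 : x' ≠ t' := Ne.symm htx'
      rw [Finset.card_insert_of_notMem (by simp [B.hne, a1, a2]),
        Finset.card_insert_of_notMem (by simp [a3, a4]), Finset.card_pair htt]
    obtain ⟨I, hI, hi, hc⟩ := exists_al (G := G) (H \ S)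
    have hIH : I ⊆ H := hI.trans Finset.sdiff_subset
    have hIS : ∀ y ∈ I, y ∉ S := fun y hy => (mem_sdiff.1 (hI hy)).2
    have h1 := le_al (G := G) (X := X) (I := ({x, x', t, t'} : Finset V) ∪ I) (by
      refine Finset.union_subset ?_ (hIH.trans hHX)
      intro z hz
      rw [mem_insert, mem_insert, mem_insert, mem_singleton] at hz
      rcases hz with rfl | rfl | rfl | rfl
      · exact hxX.1
      · exact hxX'.1
      · exact htX.1
      · exact htX'.1) (indep_union hJi hi (by
      intro v hv y hy hvy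
      have hyS := hIS y hy
      rw [hS, mem_union, mem_union, mem_union, mem_sdiff, mem_sdiff] at hyS
      rw [mem_insert, mem_insert, mem_insert, mem_singleton] at hv
      rcases hv with rfl | rfl | rfl | rfl
      · exact hyS (Or.inl (Or.inl (mem_insert_of_mem (mem_nb.2 ⟨hIH hy, hvy⟩))))
      · exact hyS (Or.inl (Or.inr (mem_insert_of_mem (mem_nb.2 ⟨hIH hy, hvy⟩))))
      · by_cases e : y ∈ insert v R
        · rw [mem_insert] at e
          rcases e with e | e
          · exact G.loopless.irrefl y (e ▸ hvy)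
          · exact hyS (Or.inl (Or.inl (mem_insert_of_mem (mem_nb.2 ⟨hIH hy, b.xR e⟩))))
        · exact hyS (Or.inr (Or.inl ⟨mem_nb.2 ⟨hIH hy, hvy⟩, e⟩))
      · by_cases e : y ∈ insert v R'
        · rw [mem_insert] at e
          rcases e with e | e
          · exact G.loopless.irrefl y (e ▸ hvy)
          · exact hyS (Or.inl (Or.inr (mem_insert_of_mem (mem_nb.2 ⟨hIH hy, b'.xR e⟩))))
        · exact hyS (Or.inr (Or.inr ⟨mem_nb.2 ⟨hIH hy, hvy⟩, e⟩))))
    rw [Finset.card_union_of_disjoint, hJc] at h1
    · have h2 : al G (H \ S) + 3 ≤ al G H := by omega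
      have h3 := F.mc.drop hHX hHne hSH (j := 3) h2
      have h4 : (S.card : ℤ) ≤ 2 * k + 2 := by exact_mod_cast hScard
      have h8 : (0 : ℤ) ≤ 4 * (k : ℤ) - 2 := by linarith
      have h9 := mul_le_mul_of_nonneg_left h4 h8
      rw [r2] at h3
      push_cast at h3
      nlinarith
    · rw [Finset.disjoint_left]
      intro z hz hz'
      have hzH := hIH hz'
      have hzS := hIS z hz'
      rw [mem_insert, mem_insert, mem_insert, mem_singleton] at hz
      rcases hz with rfl | rfl | rfl | rfl
      · exact hxH hzH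
      · exact hxH' hzH
      · exact hzS (by rw [hS]; exact mem_union_left _ (mem_union_left _ (mem_insert_self _ _)))
      · exact hzS (by rw [hS]; exact mem_union_left _ (mem_union_right _ (mem_insert_self _ _)))

end Pool.Agent.TwoDens.TK
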