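import Pool.Agent.TKE.TA

/-!
Two bases share no or both outside neighbours.
-/

open Finset

namespace Pool.Agent.TwoDens.TK

open Pool.Agent.TwoDens Pool.Agent.TwoDens.RK Pool.Agent.TwoDens.DD

variable {V : Type*} [DecidableEq V] {G : SimpleGraph V} [DecidableRel G.Adj]

namespace Fr
variable {k : ℕ} {X P : Finset V} (F : Fr G k X P)
include F

/-- Lemma Z -/
theorem lemZ {c x x' : V} (B : Base G k X P c x x') (hf : (nb G (hb X P x x') x').card + 1 = k)
    {u t v : V} (hu : u ∈ P) (hxu : ¬ G.Adj x' u) (hNu : nb G (hb X P x x') u = {t})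
    (hv : v ∈ P) (hxv : ¬ G.Adj x' v) (hNv : (nb G (hb X P x x') v).card ≤ 2) :
    G.Adj v t := by
  have hk := F.mc.hk
  obtain ⟨htH, htn, r, hr, hS, hms⟩ := F.block B hf hu hxu hNu
  have hbp := F.bp _ _ _ B
  have htv := F.tr_xu B.symm hv hxv
  rw [hb_comm X P x' x] at htv
  obtain ⟨H, hH⟩ : ∃ H, H = hb X P x x' := ⟨_, rfl⟩
  have hHX : H ⊆ X := by rw [hH]; exact hb_sub
  have hHne : H ≠ X := by rw [hH]; exact B.hbne
  have hps4 := hbp.ps4
  have htau := hbp.tau
  rw [← hH] at htH htn hr hS hms hNv htv hps4 htau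
  obtain ⟨T, hT⟩ : ∃ T, T = insert t (nb G H x') := ⟨_, rfl⟩
  rw [← hT] at hS
  have h5 : 5 ≤ (nb Gᶜ T r).card := by
    have h6 : nb Gᶜ ((nb G H x').erase r) r ⊆ nb Gᶜ T r :=
      Finset.filter_subset_filter _ ((Finset.erase_subset _ _).trans
        (by rw [hT]; exact Finset.subset_insert _ _))
    have h7 := Finset.card_le_card h6
    omega
  obtain ⟨s1, s2⟩ := F.mc.star5 hHX hHne hps4 hS h5 htau
  have hpsT := hS.psT
  have hY2X : H \ T ⊆ X := Finset.sdiff_subset.trans hHX
  have hY2ne : H \ T ≠ X := by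
    intro e
    exact hHne (Finset.Subset.antisymm hHX (e ▸ Finset.sdiff_subset))
  have hk' : (20 : ℤ) ≤ k := by exact_mod_cast hk
  have s1' : (k : ℤ) ≤ (nb G H r \ T).card + 2 := by exact_mod_cast s1
  have hE0 := Int.natCast_nonneg (exs G (k - 1) H (T.erase r))
  have hps2 : ps G k (H \ T) ≤ 6 := by linarith
  have htau2 := F.mc.tau1 hY2X hY2ne (by linarith)
  have htT : t ∈ T := by rw [hT]; exact mem_insert_self _ _
  have htr : t ≠ r := fun e => htn (e ▸ hr)
  have hE3 : exs G (k - 1) H (T.erase r) ≤ 3 := by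
    have : (exs G (k - 1) H (T.erase r) : ℤ) ≤ 3 := by linarith
    exact_mod_cast this
  have hdt := exs_erase (G := G) (k := k - 1) (X := H) (S := T.erase r) (u := t)
    (mem_erase.2 ⟨htr, htT⟩)
  have hsp := deg_split (G := G) hS.hT htT
  rw [hS.hc] at hsp
  have hm1 : (nb Gᶜ T t).card ≤ 1 := by
    rw [Finset.card_le_one]
    have : ∀ w ∈ nb Gᶜ T t, w = r := by
      intro w hw
      have h1 := mem_nb.1 hw
      have h2 := (SimpleGraph.compl_adj _ _ _).1 h1.2
      by_contra e
      exact h2.2 (hS.clq t (mem_erase.2 ⟨htr, htT⟩) w (mem_erase.2 ⟨e, h1.1⟩) h2.1)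
    intro w hw z hz
    rw [this w hw, this z hz]
  have hout : (nb G H t \ T).card ≤ 4 := by omega
  by_contra hcon
  have htnv : t ∉ nb G H v := fun e => hcon (mem_nb.1 e).2
  -- a maximum independent set of `H \ T`
  have hntr : ¬ Tr G (H \ T) ((nb G H v ∪ (nb G H t \ T)) ∩ (H \ T)) := by
    intro h
    have h1 := htau2 _ Finset.inter_subset_right h
    have h2 : ((nb G H v ∪ (nb G H t \ T)) ∩ (H \ T)).card ≤
        (nb G H v ∪ (nb G H t \ T)).card := Finset.card_le_card Finset.inter_subset_left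
    have h3 := Finset.card_union_le (nb G H v) (nb G H t \ T)
    omega
  obtain ⟨I, hI, hi, hd, hc⟩ := not_tr hntr
  have hIH : I ⊆ H := hI.trans Finset.sdiff_subset
  have htI : t ∉ I := fun e => (mem_sdiff.1 (hI e)).2 htT
  have hlt := htv.lt (I := insert t I) (Finset.insert_subset htH hIH) (indep_insert hi (by
    intro y hy hty
    have hy' := mem_sdiff.1 (hI hy)
    refine (Finset.disjoint_left.1 hd) hy (mem_inter.2 ⟨mem_union_right _ ?_, hI hy⟩)
    exact mem_sdiff.2 ⟨mem_nb.2 ⟨hy'.1, hty⟩, hy'.2⟩)) (by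
    rw [Finset.disjoint_left]
    intro y hy hy'
    rw [mem_insert] at hy
    rw [mem_union] at hy'
    rcases hy with rfl | hy
    · rcases hy' with h | h
      · exact htn h
      · exact htnv h
    · rcases hy' with h | h
      · refine (mem_sdiff.1 (hI hy)).2 ?_
        rw [hT]
        exact mem_insert_of_mem h
      · exact (Finset.disjoint_left.1 hd) hy (mem_inter.2 ⟨mem_union_left _ h, hI hy⟩))
  rw [Finset.card_insert_of_notMem htI, hc] at hlt
  have := hS.alT
  omega

/-- two bases never share exactly one outside neighbour -/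
theorem tb {c u' x x' t' : V} (B : Base G k X P c x x') (Bu' : Base G k X P u' x t')
    (ht : t' ≠ x') : False := by
  have hk := F.mc.hk
  have hxX := mem_sdiff.1 B.hx
  have hxX' := mem_sdiff.1 B.hx'
  obtain ⟨u, hu, hud, hxu⟩ := F.ns B.hx
  have nu' : ¬ G.Adj u' x' := Bu'.na B.hx' B.hne.symm (Ne.symm ht)
  have hux' : ¬ G.Adj x' u := by
    intro e
    obtain ⟨t, Bt⟩ := base_mk1 F.hP F.hPc F.hPq hu hud B.hx' e.symm
    exact F.ta B Bt Bu' (fun e' => hxu (e' ▸ Bt.ax'.symm)) ht
  have huu : u ≠ u' := fun e => hxu (e ▸ Bu'.ax.symm)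
  have h5 := F.seven B hu Bu'.hc huu
  have e1 : ad G u x = 0 := ad_zero fun e => hxu e.symm
  have e2' : ad G u x' = 0 := ad_zero fun e => hux' e.symm
  have e3 : ad G u' x = 1 := ad_one Bu'.ax
  have e4 : ad G u' x' = 0 := ad_zero nu'
  have n1 := F.nbH B hu
  have n2 := F.nbH B Bu'.hc
  rw [hud, e1, e2'] at n1
  rw [Bu'.deg, e3, e4] at n2
  rw [e1, e2', e3, e4] at h5
  have h10 := F.card_xu' B hu hxu
  have h11 := F.card_xu' B.symm Bu'.hc (fun e => nu' e.symm)
  rw [hb_comm X P x' x] at h11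
  have h10' : (k : ℤ) ≤ (nb G (hb X P x x') x).card + (nb G (hb X P x x') u).card := by
    exact_mod_cast h10
  have h11' : (k : ℤ) ≤ (nb G (hb X P x x') x').card + (nb G (hb X P x x') u').card := by
    exact_mod_cast h11
  have h12' := (F.bp _ _ _ B).ps0
  have h13 := F.mc.ps_le
  have a3 := Int.natCast_nonneg (ad G x x')
  have a4 := Int.natCast_nonneg (exs G k X ((P.erase u).erase u'))
  have key : k + 1 ≤ (nb G (hb X P x x') x).card + (nb G (hb X P x x') u).card + ad G x x' := by
    rcases Nat.eq_zero_or_pos (ad G x x') with z | z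
    · by_contra hcon
      refine F.lemG B (fun e => by rw [ad_one e] at z; omega) hu hxu hux' ?_
      exact (Finset.card_union_le _ _).trans (by omega)
    · omega
  have key' : (k : ℤ) + 1 ≤ (nb G (hb X P x x') x).card + (nb G (hb X P x x') u).card +
      ad G x x' := by exact_mod_cast key
  push_cast at h5
  have r4 : ((nb G (hb X P x x') x').card : ℤ) + (nb G (hb X P x x') u').card = k := by linarith
  have r4' : (nb G (hb X P x x') x').card + (nb G (hb X P x x') u').card = k := by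
    exact_mod_cast r4
  have hNu' : nb G (hb X P x x') u' = {t'} := by
    rw [nb_hb, Bu'.hout]
    ext v
    simp only [mem_sdiff, mem_insert, mem_singleton]
    constructor
    · rintro ⟨h | h, h'⟩
      · exact absurd (Or.inl h) h'
      · exact h
    · rintro rfl
      exact ⟨Or.inr rfl, fun h => h.elim (fun h => Bu'.hne h.symm) ht⟩
  have hz := F.lemZ B (by omega) Bu'.hc (fun e => nu' e.symm) hNu' hu hux' (by omega)
  obtain ⟨y, By⟩ := base_mk1 F.hP F.hPc F.hPq hu hud Bu'.hx' hz
  exact F.ta Bu' By B (fun e => hxu (e ▸ By.ax'.symm)) (Ne.symm ht)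

/-- for a vertex of degree `k` the adjacencies to `x` and `x'` agree -/
theorem iff {c x x' : V} (B : Base G k X P c x x') {u : V} (hu : u ∈ P)
    (hd : (nb G X u).card = k) : G.Adj u x ↔ G.Adj u x' := by
  have key : ∀ {y y' : V}, Base G k X P c y y' → G.Adj u y → G.Adj u y' := by
    intro y y' By h
    obtain ⟨t, Bt⟩ := base_mk1 F.hP F.hPc F.hPq hu hd By.hx h
    by_cases e : t = y'
    · exact e ▸ Bt.ax'
    · exact (F.tb By Bt e).elim
  exact ⟨key B, key B.symm⟩

end Fr

end Pool.Agent.TwoDens.TK
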