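import Pool.Agent.TKE.LemG

/-!
Case II with one vertex missing: the structure.
-/

open Finset

namespace Pool.Agent.TwoDens.TK

open Pool.Agent.TwoDens Pool.Agent.TwoDens.RK Pool.Agent.TwoDens.DD

variable {V : Type*} [DecidableEq V] {G : SimpleGraph V} [DecidableRel G.Adj]

/-- the half of the structure belonging to `p` -/
structure XH (G : SimpleGraph V) [DecidableRel G.Adj] (k : ℕ) (X B : Finset V) (a b p t : V)
    (R : Finset V) (rp : V) : Prop where
  hp : p ∈ X \ B
  hcp : ∃ c ∈ B, c ≠ a ∧ c ≠ b ∧ nb G (X \ B) c = {p}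
  hN : nb G (X \ B) p = insert rp R
  hr : rp ∉ R
  ms : 7 ≤ (nb Gᶜ R rp).card
  hps : ps G k ((X \ B).erase p) = 0
  hal : al G ((X \ B).erase p) + 1 = al G X
  dR : ∀ w ∈ insert t R, (nb G ((X \ B).erase p) w).card + 1 = k

/-- the structure in Case II -/
structure XC (G : SimpleGraph V) [DecidableRel G.Adj] (k : ℕ) (X B : Finset V) (a b p t : V)
    (R : Finset V) (rp rt : V) : Prop where
  mc : MC G k X
  hB : B ⊆ X
  hBc : B.card = k
  ha : a ∈ B
  hb : b ∈ B
  hab : a ≠ b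
  nab : ¬ G.Adj a b
  hqa : Clq G (B.erase a)
  hqb : Clq G (B.erase b)
  hpt : p ≠ t
  npt : ¬ G.Adj p t
  hpar : ∀ c ∈ B, c ≠ a → c ≠ b → nb G (X \ B) c = {p} ∨ nb G (X \ B) c = {t}
  hR : R ⊆ X \ B
  hRc : R.card + 2 = k
  hRq : Clq G R
  xp : XH G k X B a b p t R rp
  xt : XH G k X B a b t p R rt
  hg : (nb G (X \ B) a).card + (nb G (X \ B) b).card = k + 1
  hdis : Disjoint (nb G (X \ B) a) (nb G (X \ B) b)

theorem XC.swapab {k : ℕ} {X B R : Finset V} {a b p t rp rt : V}
    (h : XC G k X B a b p t R rp rt) : XC G k X B b a p t R rp rt where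
  mc := h.mc
  hB := h.hB
  hBc := h.hBc
  ha := h.hb
  hb := h.ha
  hab := h.hab.symm
  nab := fun h' => h.nab h'.symm
  hqa := h.hqb
  hqb := h.hqa
  hpt := h.hpt
  npt := h.npt
  hpar := fun c hc h1 h2 => h.hpar c hc h2 h1
  hR := h.hR
  hRc := h.hRc
  hRq := h.hRq
  xp := { h.xp with
    hcp := by
      obtain ⟨c, hc, h1, h2, h3⟩ := h.xp.hcp
      exact ⟨c, hc, h2, h1, h3⟩ }
  xt := { h.xt with
    hcp := by
      obtain ⟨c, hc, h1, h2, h3⟩ := h.xt.hcp
      exact ⟨c, hc, h2, h1, h3⟩ }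
  hg := by rw [add_comm]; exact h.hg
  hdis := h.hdis.symm

theorem XC.swappt {k : ℕ} {X B R : Finset V} {a b p t rp rt : V}
    (h : XC G k X B a b p t R rp rt) : XC G k X B a b t p R rt rp where
  mc := h.mc
  hB := h.hB
  hBc := h.hBc
  ha := h.ha
  hb := h.hb
  hab := h.hab
  nab := h.nab
  hqa := h.hqa
  hqb := h.hqb
  hpt := h.hpt.symm
  npt := fun h' => h.npt h'.symm
  hpar := fun c hc h1 h2 => (h.hpar c hc h1 h2).symm
  hR := h.hR
  hRc := h.hRc
  hRq := h.hRq
  xp := h.xt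
  xt := h.xp
  hg := h.hg
  hdis := h.hdis

theorem insert_hb {X P : Finset V} {a p : V} :
    (X \ insert a P).erase p = hb X P a p := by
  ext v
  rw [mem_erase, mem_sdiff, mem_insert, mem_hb]
  tauto

namespace Fr
variable {k : ℕ} {X P : Finset V} (F : Fr G k X P)
include F

/-- numerical consequences of Case II for one base -/
theorem c2num {a b : V} (ha : a ∈ X \ P) (hb : b ∈ P) (nab : ¬ G.Adj a b)
    (hall : ∀ v ∈ P, v ≠ b → G.Adj a v) {c p : V} (B : Base G k X P c a p) :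
    (∀ v ∈ P, v ≠ b → (nb G X v).card = k) ∧ ps G k (TK.hb X P a p) = 0 ∧
    (nb G (TK.hb X P a p) p).card + 1 = k ∧
    (nb G (X \ P) a).card + (nb G (X \ P) b).card = k + 1 ∧
    Disjoint (nb G (X \ P) a) (nb G (X \ P) b) ∧
    ∃ u ∈ P, u ≠ b ∧ ¬ G.Adj p u ∧ (nb G X u).card = k := by
  have hk := F.mc.hk
  have ha' := mem_sdiff.1 ha
  have hp' := mem_sdiff.1 B.hx'
  have h3 := F.missPx B
  have h4 : (nb Gᶜ P a).card ≤ 1 := by
    rw [Finset.card_le_one]
    have : ∀ w ∈ nb Gᶜ P a, w = b := by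
      intro w hw
      rw [F.mem_nbc ha'.2] at hw
      by_contra h
      exact hw.2 (hall w hw.1 h)
    intro w hw z hz
    rw [this w hw, this z hz]
  obtain ⟨u', hu', hne, hdk⟩ := F.exists_degk (S := nb Gᶜ P p) (nb_sub _ _) (by omega) b
  rw [F.mem_nbc hp'.2] at hu'
  have hu'a := hall u' hu'.1 hne
  have h5 := F.seven B hb hu'.1 (Ne.symm hne)
  have h7 : (ad G b a : ℤ) = 0 := by rw [ad_zero (fun h => nab h.symm)]; rfl
  have h8 : (ad G u' a : ℤ) = 1 := by rw [ad_one hu'a.symm]; rfl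
  have h9 : (ad G u' p : ℤ) = 0 := by rw [ad_zero (fun h => hu'.2 h.symm)]; rfl
  have h10 := F.card_xu' B hb nab
  have h11 := F.card_xu' B.symm hu'.1 hu'.2
  rw [hb_comm X P p a] at h11
  have h10' : (k : ℤ) ≤ (nb G (TK.hb X P a p) a).card + (nb G (TK.hb X P a p) b).card := by
    exact_mod_cast h10
  have h11' : (k : ℤ) ≤ (nb G (TK.hb X P a p) p).card + (nb G (TK.hb X P a p) u').card := by
    exact_mod_cast h11
  have h12' := (F.bp _ _ _ B).ps0
  have h13 := F.mc.ps_le
  have a1 := Int.natCast_nonneg (ad G b p)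
  have a3 := Int.natCast_nonneg (ad G a p)
  have a4 := Int.natCast_nonneg (exs G k X ((P.erase b).erase u'))
  rw [h7, h8, h9] at h5
  have hNu' := F.nbH B hu'.1
  have c1 : ad G u' a = 1 := ad_one hu'a.symm
  have c2 : ad G u' p = 0 := ad_zero (fun h => hu'.2 h.symm)
  rw [hdk, c1, c2] at hNu'
  have hNu2 : (nb G (TK.hb X P a p) u').card = 1 := by omega
  -- lemma G
  have hG : ad G a p = 0 → ad G b p = 0 →
      k + 1 ≤ (nb G (TK.hb X P a p) a ∪ nb G (TK.hb X P a p) b).card := by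
    intro z1 z2
    by_contra hcon
    have n1 : ¬ G.Adj a p := fun h => by rw [ad_one h] at z1; omega
    have n2 : ¬ G.Adj b p := fun h => by rw [ad_one h] at z2; omega
    exact F.lemG B n1 hb nab (fun h => n2 h.symm) (by omega)
  have key : 1 ≤ (nb G (TK.hb X P a p) a).card + (nb G (TK.hb X P a p) b).card - k +
      ad G a p + ad G b p := by
    rcases Nat.eq_zero_or_pos (ad G a p) with z1 | z1
    · rcases Nat.eq_zero_or_pos (ad G b p) with z2 | z2
      · have := hG z1 z2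
        have := Finset.card_union_le (nb G (TK.hb X P a p) a) (nb G (TK.hb X P a p) b)
        omega
      · omega
    · omega
  have key' : (1 : ℤ) ≤ (nb G (TK.hb X P a p) a).card + (nb G (TK.hb X P a p) b).card - k +
      ad G a p + ad G b p := by
    have : k + 1 ≤ (nb G (TK.hb X P a p) a).card + (nb G (TK.hb X P a p) b).card +
      ad G a p + ad G b p := by omega
    have : (k : ℤ) + 1 ≤ (nb G (TK.hb X P a p) a).card + (nb G (TK.hb X P a p) b).card +
      ad G a p + ad G b p := by exact_mod_cast this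
    linarith
  have r1 : (exs G k X ((P.erase b).erase u') : ℤ) = 0 := by linarith
  have r2 : ps G k (TK.hb X P a p) = 0 := by linarith
  have r3 : ((nb G (TK.hb X P a p) p).card : ℤ) + (nb G (TK.hb X P a p) u').card = k := by linarith
  have r4 : ((nb G (TK.hb X P a p) a).card : ℤ) + (nb G (TK.hb X P a p) b).card +
      ad G a p + ad G b p = k + 1 := by linarith
  have r1' : exs G k X ((P.erase b).erase u') = 0 := by exact_mod_cast r1
  have r3' : (nb G (TK.hb X P a p) p).card + (nb G (TK.hb X P a p) u').card = k := by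
    exact_mod_cast r3
  have r4' : (nb G (TK.hb X P a p) a).card + (nb G (TK.hb X P a p) b).card +
      ad G a p + ad G b p = k + 1 := by exact_mod_cast r4
  have g1 := card_nb_hb (G := G) B.hx B.hx' B.hne a
  have g2 := card_nb_hb (G := G) B.hx B.hx' B.hne b
  rw [if_neg (G.loopless.irrefl a)] at g1
  rw [if_neg (fun h => nab h.symm)] at g2
  have g1' : (if G.Adj a p then 1 else 0 : ℕ) = ad G a p := rfl
  have g2' : (if G.Adj b p then 1 else 0 : ℕ) = ad G b p := rfl
  rw [g1'] at g1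
  rw [g2'] at g2
  have hsum : (nb G (X \ P) a).card + (nb G (X \ P) b).card = k + 1 := by omega
  refine ⟨?_, r2, by omega, hsum, ?_, u', hu'.1, hne, hu'.2, hdk⟩
  · intro v hv hvb
    by_cases hvu : v = u'
    · rw [hvu]; exact hdk
    · have h14 := F.deg_ge (F.hP hv)
      have h15 := exs_erase (G := G) (k := k) (X := X) (S := (P.erase b).erase u') (u := v)
        (mem_erase.2 ⟨hvu, mem_erase.2 ⟨hvb, hv⟩⟩)
      omega
  · rw [Finset.disjoint_left]
    intro y hy hy'
    have h14 := F.card_xu B hb nab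
    have hui := Finset.card_union_add_card_inter (nb G (X \ P) a) (nb G (X \ P) b)
    have hin : 1 ≤ (nb G (X \ P) a ∩ nb G (X \ P) b).card :=
      Finset.card_pos.2 ⟨y, mem_inter.2 ⟨hy, hy'⟩⟩
    have hsub : nb G (TK.hb X P a p) a ∪ nb G (TK.hb X P a p) b ⊆
        (nb G (X \ P) a ∪ nb G (X \ P) b).erase p := by
      intro w hw
      rw [mem_union, mem_nb, mem_nb, mem_hb] at hw
      rw [mem_erase, mem_union, mem_nb, mem_nb, mem_sdiff]
      rcases hw with hw | hw
      · exact ⟨hw.1.2.2.2, Or.inl ⟨⟨hw.1.1, hw.1.2.1⟩, hw.2⟩⟩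
      · exact ⟨hw.1.2.2.2, Or.inr ⟨⟨hw.1.1, hw.1.2.1⟩, hw.2⟩⟩
    have h16 := Finset.card_le_card hsub
    by_cases hpm : p ∈ nb G (X \ P) a ∪ nb G (X \ P) b
    · rw [Finset.card_erase_of_mem hpm] at h16
      omega
    · have z1 : ad G a p = 0 := ad_zero fun h => hpm (mem_union_left _ (mem_nb.2 ⟨B.hx', h⟩))
      have z2 : ad G b p = 0 := ad_zero fun h => hpm (mem_union_right _ (mem_nb.2 ⟨B.hx', h⟩))
      have := hG z1 z2
      have := Finset.card_erase_le (s := nb G (X \ P) a ∪ nb G (X \ P) b) (a := p)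
      omega

end Fr

end Pool.Agent.TwoDens.TK
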