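import Pool.Agent.TKE.XC

/-!
Case II with one vertex missing: existence of the structure.
-/

open Finset

namespace Pool.Agent.TwoDens.TK

open Pool.Agent.TwoDens Pool.Agent.TwoDens.RK Pool.Agent.TwoDens.DD

variable {V : Type*} [DecidableEq V] {G : SimpleGraph V} [DecidableRel G.Adj]

theorem nbc_zero {Q : Finset V} {v : V} (h : ∀ w ∈ Q, G.Adj v w) : (nb Gᶜ Q v).card = 0 := by
  rw [Finset.card_eq_zero, Finset.eq_empty_iff_forall_notMem]
  intro w hw
  have h1 := mem_nb.1 hw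
  exact ((SimpleGraph.compl_adj _ _ _).1 h1.2).2 (h w h1.1)

theorem nbc_one {Q : Finset V} {v s : V} (h : ∀ w ∈ Q, w ≠ s → G.Adj v w) :
    (nb Gᶜ Q v).card ≤ 1 := by
  rw [Finset.card_le_one]
  have : ∀ w ∈ nb Gᶜ Q v, w = s := by
    intro w hw
    have h1 := mem_nb.1 hw
    by_contra hws
    exact ((SimpleGraph.compl_adj _ _ _).1 h1.2).2 (h w h1.1 hws)
  intro w hw z hz
  rw [this w hw, this z hz]

namespace Fr
variable {k : ℕ} {X P : Finset V} (F : Fr G k X P)
include F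

theorem c2x {a b : V} (ha : a ∈ X \ P) (hb : b ∈ P) (nab : ¬ G.Adj a b)
    (hall : ∀ v ∈ P, v ≠ b → G.Adj a v) :
    ∃ p t R rp rt, XC G k X (insert a P) a b p t R rp rt := by
  have hk := F.mc.hk
  have hPc := F.hPc
  have ha' := mem_sdiff.1 ha
  obtain ⟨c, hc, hcb, hcd⟩ := F.exists_degk (S := P) (Finset.Subset.refl _) (by omega) b
  obtain ⟨p, B⟩ := base_mk1 F.hP F.hPc F.hPq hc hcd ha (hall c hc hcb).symm
  obtain ⟨hdeg, hps, hNpc, hg, hdis, u, hu, hub, hpu, hud⟩ := F.c2num ha hb nab hall B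
  obtain ⟨t, Bt⟩ := base_mk1 F.hP F.hPc F.hPq hu hud ha (hall u hu hub).symm
  obtain ⟨_, hpst, hNtc, _, _, _⟩ := F.c2num ha hb nab hall Bt
  have htp : t ≠ p := fun h => hpu (h ▸ Bt.ax'.symm)
  -- the outside
  obtain ⟨Q, hQ⟩ : ∃ Q, Q = X \ insert a P := ⟨_, rfl⟩
  have hQp : Q.erase p = TK.hb X P a p := by rw [hQ]; exact insert_hb
  have hQt : Q.erase t = TK.hb X P a t := by rw [hQ]; exact insert_hb
  have hQX : Q ⊆ X := by rw [hQ]; exact Finset.sdiff_subset
  have hpQ : p ∈ Q := by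
    have := mem_sdiff.1 B.hx'
    rw [hQ, mem_sdiff, mem_insert]
    exact ⟨this.1, fun h => h.elim (fun h => B.hne h.symm) this.2⟩
  have htQ : t ∈ Q := by
    have := mem_sdiff.1 Bt.hx'
    rw [hQ, mem_sdiff, mem_insert]
    exact ⟨this.1, fun h => h.elim (fun h => Bt.hne h.symm) this.2⟩
  have hnbE : ∀ v : V, nb G (Q.erase v) v = nb G Q v := by
    intro v
    ext w
    rw [mem_nb, mem_nb, mem_erase]
    constructor
    · rintro ⟨⟨_, h2⟩, h3⟩
      exact ⟨h2, h3⟩
    · rintro ⟨h2, h3⟩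
      exact ⟨⟨fun h => G.loopless.irrefl v (h ▸ h3), h2⟩, h3⟩
  have hnbp : nb G (TK.hb X P a p) p = nb G Q p := by rw [← hQp]; exact hnbE p
  have hnbt : nb G (TK.hb X P a t) t = nb G Q t := by rw [← hQt]; exact hnbE t
  -- neighbours of children
  have hchild : ∀ v s : V, Base G k X P v a s → s ∈ Q ∧ nb G Q v = {s} := by
    intro v s Bs
    have h1 := mem_sdiff.1 Bs.hx'
    have h2 : s ∈ Q := by
      rw [hQ, mem_sdiff, mem_insert]
      exact ⟨h1.1, fun h => h.elim (fun h => Bs.hne h.symm) h1.2⟩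
    refine ⟨h2, ?_⟩
    ext w
    rw [mem_nb, mem_singleton]
    constructor
    · rintro ⟨h3, h4⟩
      rw [hQ, mem_sdiff, mem_insert] at h3
      have h5 : w ∈ nb G (X \ P) v := mem_nb.2 ⟨mem_sdiff.2 ⟨h3.1, fun h => h3.2 (Or.inr h)⟩, h4⟩
      rw [Bs.hout, mem_insert, mem_singleton] at h5
      rcases h5 with h5 | h5
      · exact absurd (Or.inl h5) h3.2
      · exact h5
    · rintro rfl
      exact ⟨h2, Bs.ax'⟩
  have hchild2 : ∀ v s q : V, Base G k X P v a s → s ≠ q → Base G k X P c a q ∨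
      Base G k X P u a q → nb G (TK.hb X P a q) v = {s} := by
    intro v s q Bs hsq _
    have h1 := hchild v s Bs
    have h2 : TK.hb X P a q = Q.erase q := by rw [hQ]; exact insert_hb.symm
    rw [h2]
    ext w
    rw [mem_nb, mem_erase, mem_singleton]
    constructor
    · rintro ⟨⟨_, h4⟩, h5⟩
      have h6 : w ∈ nb G Q v := mem_nb.2 ⟨h4, h5⟩
      rw [h1.2, mem_singleton] at h6
      exact h6
    · rintro rfl
      exact ⟨⟨hsq, h1.1⟩, Bs.ax'⟩
  have hnadj : ∀ v s q : V, Base G k X P v a s → q ∈ Q → s ≠ q → ¬ G.Adj q v := by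
    intro v s q Bs hq hsq h
    have h1 := hchild v s Bs
    have h6 : q ∈ nb G Q v := mem_nb.2 ⟨hq, h.symm⟩
    rw [h1.2, mem_singleton] at h6
    exact hsq h6.symm
  -- the blocks
  obtain ⟨htH, htn, r, hrN, hS, hms⟩ := F.block B hNpc hu hpu
    (hchild2 u t p Bt htp (Or.inl B))
  obtain ⟨hpH, hpn, r', hrN', hS', hms'⟩ := F.block Bt hNtc hc
    (hnadj c p t B htQ htp.symm) (hchild2 c p t B htp.symm (Or.inr Bt))
  rw [hnbp] at htn hrN hS hms hNpc
  rw [hnbt] at hpn hrN' hS' hms' hNtc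
  obtain ⟨R, hR⟩ : ∃ R, R = (nb G Q p).erase r := ⟨_, rfl⟩
  obtain ⟨R', hR'⟩ : ∃ R', R' = (nb G Q t).erase r' := ⟨_, rfl⟩
  have hrR : r ∉ R := by rw [hR]; exact Finset.notMem_erase _ _
  have hRc : R.card + 2 = k := by
    have : R.card + 1 = (nb G Q p).card := by rw [hR]; exact Finset.card_erase_add_one hrN
    omega
  have hRc' : R'.card + 2 = k := by
    have : R'.card + 1 = (nb G Q t).card := by rw [hR']; exact Finset.card_erase_add_one hrN'
    omega
  have htr : t ≠ r := fun h => htn (h ▸ hrN)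
  have hpr' : p ≠ r' := fun h => hpn (h ▸ hrN')
  have hRQ : R ⊆ Q := by rw [hR]; exact (Finset.erase_subset _ _).trans (nb_sub _ _)
  have hRsub : R ⊆ nb G Q t := by
    intro w hw
    refine mem_nb.2 ⟨hRQ hw, ?_⟩
    rw [hR, mem_erase] at hw
    exact hS.clq t (mem_erase.2 ⟨htr, mem_insert_self _ _⟩) w
      (mem_erase.2 ⟨hw.1, mem_insert_of_mem hw.2⟩) (fun h => htn (h ▸ hw.2))
  have hRsub' : R' ⊆ nb G Q p := by
    intro w hw
    rw [hR', mem_erase] at hw
    refine mem_nb.2 ⟨(mem_nb.1 hw.2).1, ?_⟩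
    exact hS'.clq p (mem_erase.2 ⟨hpr', mem_insert_self _ _⟩) w
      (mem_erase.2 ⟨hw.1, mem_insert_of_mem hw.2⟩) (fun h => hpn (h ▸ hw.2))
  -- a clique inside `N_p` which omits another vertex is impossible
  have hcent : ∀ r'' s, s ∉ nb G Q p → r'' ∈ nb G Q p →
      Clq G ((insert s (nb G Q p)).erase r'') → r'' = r := by
    intro r'' s hs hr'' hcq
    by_contra hne
    have h1 : (nb Gᶜ R r).card ≤ 1 := by
      refine nbc_one (s := r'') ?_
      intro w hw hwr
      rw [hR, mem_erase] at hw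
      exact hcq r (mem_erase.2 ⟨Ne.symm hne, mem_insert_of_mem hrN⟩) w
        (mem_erase.2 ⟨hwr, mem_insert_of_mem hw.2⟩) (Ne.symm hw.1)
    rw [← hR] at hms
    omega
  have hr'R : r' ∉ R := by
    intro hr'R
    have h1 : nb G Q t ⊆ nb G Q p := by
      intro w hw
      by_cases e : w = r'
      · rw [e]
        rw [hR, mem_erase] at hr'R
        exact hr'R.2
      · exact hRsub' (by rw [hR']; exact mem_erase.2 ⟨e, hw⟩)
    have h2 : nb G Q t = nb G Q p := Finset.eq_of_subset_of_card_le h1 (by omega)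
    have h3 : (nb Gᶜ R r).card ≤ 1 := by
      refine nbc_one (s := r') ?_
      intro w hw hwr
      rw [hR, mem_erase] at hw
      refine hS'.clq r (mem_erase.2 ⟨fun h => hrR (h ▸ hr'R), mem_insert_of_mem (h2 ▸ hrN)⟩) w
        (mem_erase.2 ⟨hwr, mem_insert_of_mem (h2 ▸ hw.2)⟩) (Ne.symm hw.1)
    rw [← hR] at hms
    omega
  have hRR : R = R' := by
    refine Finset.eq_of_subset_of_card_le ?_ (by omega)
    intro w hw
    rw [hR', mem_erase]
    exact ⟨fun h => hr'R (h ▸ hw), hRsub hw⟩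
  -- degrees
  have hq5 : 5 ≤ (nb Gᶜ (insert t (nb G Q p)) r).card := by
    have h1 : nb Gᶜ R r ⊆ nb Gᶜ (insert t (nb G Q p)) r :=
      Finset.filter_subset_filter _ (by
        rw [hR]
        exact (Finset.erase_subset _ _).trans (Finset.subset_insert _ _))
    have h2 := Finset.card_le_card h1
    rw [← hR] at hms
    omega
  have hq5' : 5 ≤ (nb Gᶜ (insert p (nb G Q t)) r').card := by
    have h1 : nb Gᶜ R' r' ⊆ nb Gᶜ (insert p (nb G Q t)) r' :=
      Finset.filter_subset_filter _ (by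
        rw [hR']
        exact (Finset.erase_subset _ _).trans (Finset.subset_insert _ _))
    have h2 := Finset.card_le_card h1
    rw [← hR'] at hms'
    omega
  have hd0 := F.mc.star0 hb_sub B.hbne (by rw [hps]; norm_num) hS hq5
  have hd0' := F.mc.star0 hb_sub Bt.hbne (by rw [hpst]; norm_num) hS' hq5'
  have hTe : (insert t (nb G Q p)).erase r = insert t R := by
    rw [hR, Finset.erase_insert_of_ne htr]
  have hTe' : (insert p (nb G Q t)).erase r' = insert p R' := by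
    rw [hR', Finset.erase_insert_of_ne hpr']
  rw [hTe] at hd0
  rw [hTe', ← hRR] at hd0'
  have hRq : Clq G R := by
    intro x hx y hy hxy
    rw [hR, mem_erase] at hx hy
    exact hS.clq x (mem_erase.2 ⟨hx.1, mem_insert_of_mem hx.2⟩) y
      (mem_erase.2 ⟨hy.1, mem_insert_of_mem hy.2⟩) hxy
  have hpR : p ∉ R := by
    rw [hR]
    exact fun h => self_notMem (mem_erase.1 h).2
  have htR : t ∉ R := by
    rw [hR]
    exact fun h => htn (mem_erase.1 h).2
  have hwp : ∀ w ∈ R, G.Adj p w := by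
    intro w hw
    rw [hR, mem_erase] at hw
    exact (mem_nb.1 hw.2).2
  have hwt : ∀ w ∈ R, G.Adj t w := fun w hw => (mem_nb.1 (hRsub hw)).2
  refine ⟨p, t, R, r, r', F.mc, Finset.insert_subset ha'.1 F.hP, ?_, mem_insert_self _ _,
    mem_insert_of_mem hb, fun h => ha'.2 (h ▸ hb), nab, ?_, ?_, htp.symm, ?_, ?_, ?_, hRc, hRq,
    ?_, ?_, ?_, ?_⟩
  · rw [Finset.card_insert_of_notMem ha'.2]
    omega
  · rw [Finset.erase_insert ha'.2]
    exact F.hPq
  · intro x hx y hy hxy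
    rw [mem_erase, mem_insert] at hx hy
    rcases hx.2 with rfl | hx2 <;> rcases hy.2 with rfl | hy2
    · exact absurd rfl hxy
    · exact hall y hy2 hy.1
    · exact (hall x hx2 hx.1).symm
    · exact F.hPq x hx2 y hy2 hxy
  · intro h
    exact htn (mem_nb.2 ⟨htQ, h⟩)
  · intro c' hc' hca hcb'
    rw [mem_insert] at hc'
    rcases hc' with h | hc'
    · exact absurd h hca
    obtain ⟨s, Bs⟩ := base_mk1 F.hP F.hPc F.hPq hc' (hdeg c' hc' hcb') ha
      (hall c' hc' hcb').symm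
    have hs := hchild c' s Bs
    rw [← hQ]
    by_cases e1 : s = p
    · left
      rw [hs.2, e1]
    by_cases e2 : s = t
    · right
      rw [hs.2, e2]
    exfalso
    obtain ⟨hsH, hsn, r'', hrN'', hS'', _⟩ := F.block B (by rw [hnbp]; exact hNpc) hc'
      (hnadj c' s p Bs hpQ e1) (hchild2 c' s p Bs e1 (Or.inl B))
    rw [hnbp] at hsn hrN'' hS''
    have e3 := hcent r'' s hsn hrN'' hS''.clq
    have hws : ∀ w ∈ R, G.Adj s w := by
      intro w hw
      have hw' := hw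
      rw [hR, mem_erase] at hw'
      refine hS''.clq s (mem_erase.2 ⟨fun h => hsn (h ▸ hrN''), mem_insert_self _ _⟩) w
        (mem_erase.2 ⟨?_, mem_insert_of_mem hw'.2⟩) (fun h => hsn (h ▸ hw'.2))
      rw [e3]
      exact hw'.1
    have hsR : s ∉ R := by
      rw [hR]
      exact fun h => hsn (mem_erase.1 h).2
    have h1 := F.mc.near3 (hRQ.trans hQX) hRq hRc (hQX hpQ) (hQX htQ) (hQX hs.1) htp.symm
      (Ne.symm e1) (Ne.symm e2) hpR htR hsR
    rw [nbc_zero hwp, nbc_zero hwt, nbc_zero hws] at h1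
    omega
  · rw [← hQ]; exact hRQ
  · -- the half of `p`
    refine ⟨by rw [← hQ]; exact hpQ, ⟨c, mem_insert_of_mem hc, ?_, hcb, ?_⟩, ?_, hrR, ?_, ?_, ?_, ?_⟩
    · exact fun h => ha'.2 (h ▸ hc)
    · rw [← hQ]; exact (hchild c p B).2
    · rw [← hQ, hR, Finset.insert_erase hrN]
    · rw [hR]; exact hms
    · rw [← hQ, hQp]; exact hps
    · rw [← hQ, hQp]; exact (F.bp _ _ _ B).alH
    · rw [← hQ, hQp]; exact hd0
  · refine ⟨by rw [← hQ]; exact htQ, ⟨u, mem_insert_of_mem hu, ?_, hub, ?_⟩, ?_, ?_, ?_, ?_, ?_, ?_⟩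
    · exact fun h => ha'.2 (h ▸ hu)
    · rw [← hQ]; exact (hchild u t Bt).2
    · rw [← hQ, hRR, hR', Finset.insert_erase hrN']
    · exact hr'R
    · rw [hRR, hR']; exact hms'
    · rw [← hQ, hQt]; exact hpst
    · rw [← hQ, hQt]; exact (F.bp _ _ _ Bt).alH
    · rw [← hQ, hQt]; exact hd0'
  · have h1 : nb G (X \ insert a P) a = nb G (X \ P) a := by
      ext w
      rw [mem_nb, mem_nb, mem_sdiff, mem_sdiff, mem_insert]
      constructor
      · rintro ⟨⟨h2, h3⟩, h4⟩
        exact ⟨⟨h2, fun h => h3 (Or.inr h)⟩, h4⟩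
      · rintro ⟨⟨h2, h3⟩, h4⟩
        exact ⟨⟨h2, fun h => h.elim (fun h => G.loopless.irrefl a (h ▸ h4)) h3⟩, h4⟩
    have h1' : nb G (X \ insert a P) b = nb G (X \ P) b := by
      ext w
      rw [mem_nb, mem_nb, mem_sdiff, mem_sdiff, mem_insert]
      constructor
      · rintro ⟨⟨h2, h3⟩, h4⟩
        exact ⟨⟨h2, fun h => h3 (Or.inr h)⟩, h4⟩
      · rintro ⟨⟨h2, h3⟩, h4⟩
        exact ⟨⟨h2, fun h => h.elim (fun h => nab (h ▸ h4.symm)) h3⟩, h4⟩
    rw [h1, h1']
    exact hg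
  · refine Finset.disjoint_of_subset_left ?_ (Finset.disjoint_of_subset_right ?_ hdis)
    · exact Finset.filter_subset_filter _
        (Finset.sdiff_subset_sdiff (Finset.Subset.refl _) (Finset.subset_insert _ _))
    · exact Finset.filter_subset_filter _
        (Finset.sdiff_subset_sdiff (Finset.Subset.refl _) (Finset.subset_insert _ _))

end Fr

end Pool.Agent.TwoDens.TK
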