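import Pool.Agent.TKE.XD

/-!
Case II with one vertex missing: general facts and the case without edges between `a, b` and
`p, t`.
-/

open Finset

namespace Pool.Agent.TwoDens.TK

open Pool.Agent.TwoDens Pool.Agent.TwoDens.RK Pool.Agent.TwoDens.DD

variable {V : Type*} [DecidableEq V] {G : SimpleGraph V} [DecidableRel G.Adj]

namespace XC
variable {k : ℕ} {X B R : Finset V} {a b p t rp rt : V} (h : XC G k X B a b p t R rp rt)
include h

theorem pQ : p ∈ X \ B := h.xp.hp

theorem tQ : t ∈ X \ B := h.xt.hp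

theorem pR : p ∉ R := fun h1 => by
  have h2 : p ∈ nb G (X \ B) p := by rw [h.xp.hN]; exact mem_insert_of_mem h1
  exact self_notMem h2

theorem tR : t ∉ R := fun h1 => by
  have h2 : t ∈ nb G (X \ B) t := by rw [h.xt.hN]; exact mem_insert_of_mem h1
  exact self_notMem h2

theorem rpQ : rp ∈ X \ B := (mem_nb.1 (by rw [h.xp.hN]; exact mem_insert_self _ _ :
  rp ∈ nb G (X \ B) p)).1

theorem prp : p ≠ rp := fun h1 => by
  have h2 : p ∈ nb G (X \ B) p := by rw [h.xp.hN, ← h1]; exact mem_insert_self _ _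
  exact self_notMem h2

theorem trp : t ≠ rp := fun h1 => by
  have h2 : t ∈ nb G (X \ B) p := by rw [h.xp.hN, ← h1]; exact mem_insert_self _ _
  exact h.npt (mem_nb.1 h2).2

theorem hpX : (X \ B).erase p ⊆ X := (Finset.erase_subset _ _).trans Finset.sdiff_subset

theorem hpne : (X \ B).erase p ≠ X := by
  intro h1
  have h2 := h.hB h.ha
  rw [← h1, mem_erase, mem_sdiff] at h2
  exact h2.2.2 h.ha

theorem tau : TauGe G ((X \ B).erase p) k :=
  h.mc.tau0 h.hpX h.hpne (by rw [h.xp.hps]; norm_num)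

/-- membership in the set `N' ∖ p` -/
theorem trab : Tr G ((X \ B).erase p) ((nb G (X \ B) a ∪ nb G (X \ B) b).erase p) := by
  refine tr_nbr (X := X) (J := {a, b}) h.hpX ?_ ?_ (indep_pair h.nab) ?_ ?_
  · intro z hz
    rw [mem_insert, mem_singleton] at hz
    rcases hz with rfl | rfl
    · exact h.hB h.ha
    · exact h.hB h.hb
  · rw [Finset.disjoint_left]
    intro z hz hz'
    rw [mem_erase, mem_sdiff] at hz'
    rw [mem_insert, mem_singleton] at hz
    rcases hz with rfl | rfl
    · exact hz'.2.2 h.ha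
    · exact hz'.2.2 h.hb
  · rw [Finset.card_pair h.hab]
    have := h.xp.hal
    omega
  · intro z hz w hw hzw
    have hw' := mem_erase.1 hw
    rw [mem_insert, mem_singleton] at hz
    rw [mem_erase, mem_union]
    rcases hz with rfl | rfl
    · exact ⟨hw'.1, Or.inl (mem_nb.2 ⟨hw'.2, hzw⟩)⟩
    · exact ⟨hw'.1, Or.inr (mem_nb.2 ⟨hw'.2, hzw⟩)⟩

theorem trT : Tr G ((X \ B).erase p) (insert t (insert rp R)) := by
  obtain ⟨c, hc, hca, hcb, hcN⟩ := h.xt.hcp
  have hpQ := mem_sdiff.1 h.pQ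
  have hpc : p ≠ c := fun h1 => hpQ.2 (h1 ▸ hc)
  have hnpc : ¬ G.Adj p c := by
    intro h1
    have h2 : p ∈ nb G (X \ B) c := mem_nb.2 ⟨h.pQ, h1.symm⟩
    rw [hcN, mem_singleton] at h2
    exact h.hpt h2
  refine tr_nbr (X := X) (J := {p, c}) h.hpX ?_ ?_ (indep_pair hnpc) ?_ ?_
  · intro z hz
    rw [mem_insert, mem_singleton] at hz
    rcases hz with rfl | rfl
    · exact hpQ.1
    · exact h.hB hc
  · rw [Finset.disjoint_left]
    intro z hz hz'
    rw [mem_erase, mem_sdiff] at hz'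
    rw [mem_insert, mem_singleton] at hz
    rcases hz with rfl | rfl
    · exact hz'.1 rfl
    · exact hz'.2.2 hc
  · rw [Finset.card_pair hpc]
    have := h.xp.hal
    omega
  · intro z hz w hw hzw
    have hw' := mem_erase.1 hw
    rw [mem_insert, mem_singleton] at hz
    rcases hz with rfl | rfl
    · have h2 : w ∈ nb G (X \ B) z := mem_nb.2 ⟨hw'.2, hzw⟩
      rw [h.xp.hN] at h2
      exact mem_insert_of_mem h2
    · have h2 : w ∈ nb G (X \ B) z := mem_nb.2 ⟨hw'.2, hzw⟩
      rw [hcN, mem_singleton] at h2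
      rw [h2]
      exact mem_insert_self _ _

theorem tT : t ∉ insert rp R := by
  rw [mem_insert]
  rintro (h1 | h1)
  · exact h.trp h1
  · exact h.tR h1

theorem Tsub : insert t (insert rp R) ⊆ (X \ B).erase p := by
  intro w hw
  rw [mem_insert, mem_insert] at hw
  rw [mem_erase]
  rcases hw with rfl | rfl | hw
  · exact ⟨h.hpt.symm, h.tQ⟩
  · exact ⟨h.prp.symm, h.rpQ⟩
  · exact ⟨fun h1 => h.pR (h1 ▸ hw), h.hR hw⟩

theorem Tc : (insert t (insert rp R)).card = k := by
  rw [Finset.card_insert_of_notMem h.tT, Finset.card_insert_of_notMem h.xp.hr]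
  have := h.hRc
  omega

theorem starT : StarT G k ((X \ B).erase p) (insert t (insert rp R)) rp := by
  obtain ⟨r, hS⟩ := h.mc.star8 h.hpX h.hpne (by rw [h.xp.hps]; norm_num) h.tau h.Tsub h.Tc h.trT
  by_cases e : rp = r
  · rw [e] at hS ⊢
    exact hS
  · exfalso
    have h1 : (nb Gᶜ R rp).card ≤ 1 := by
      refine nbc_one (s := r) ?_
      intro w hw hwr
      exact hS.clq rp (mem_erase.2 ⟨e, mem_insert_of_mem (mem_insert_self _ _)⟩) w
        (mem_erase.2 ⟨hwr, mem_insert_of_mem (mem_insert_of_mem hw)⟩)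
        (fun h1 => h.xp.hr (h1 ▸ hw))
    have := h.xp.ms
    omega

/-- the set `Y2` -/
theorem y2 : al G (((X \ B).erase p) \ insert t (insert rp R)) + 2 = al G X ∧
    ps G k (((X \ B).erase p) \ insert t (insert rp R)) ≤ 2 := by
  have hS := h.starT
  have h1 := hS.alT
  have h2 := h.xp.hal
  have hps := h.xp.hps
  have h5 : 5 ≤ (nb Gᶜ (insert t (insert rp R)) rp).card := by
    have h6 : nb Gᶜ R rp ⊆ nb Gᶜ (insert t (insert rp R)) rp :=
      Finset.filter_subset_filter _ ((Finset.subset_insert _ _).trans (Finset.subset_insert _ _))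
    have h7 := Finset.card_le_card h6
    have := h.xp.ms
    omega
  have h6 := h.mc.star5 h.hpX h.hpne (by rw [hps]; norm_num) hS h5 h.tau
  have h7 := hS.psT
  rw [hps] at h7
  refine ⟨by omega, ?_⟩
  have h8 : (k : ℤ) ≤ (nb G ((X \ B).erase p) rp \ insert t (insert rp R)).card + 2 := by
    exact_mod_cast h6.1
  have h9 := Int.natCast_nonneg (exs G (k - 1) ((X \ B).erase p)
    ((insert t (insert rp R)).erase rp))
  linarith

theorem y2X : ((X \ B).erase p) \ insert t (insert rp R) ⊆ X :=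
  Finset.sdiff_subset.trans h.hpX

theorem y2ne : ((X \ B).erase p) \ insert t (insert rp R) ≠ X := by
  intro h1
  have h2 := h.hB h.ha
  rw [← h1, mem_sdiff, mem_erase, mem_sdiff] at h2
  exact h2.1.2.2 h.ha

theorem mem_y2 {w : V} : w ∈ ((X \ B).erase p) \ insert t (insert rp R) ↔
    w ∈ X \ B ∧ w ≠ p ∧ w ≠ t ∧ w ≠ rp ∧ w ∉ R := by
  rw [mem_sdiff, mem_erase, mem_insert, mem_insert]
  tauto

/-- an independent set of `Y2` without neighbours of an independent set `J` outside -/
theorem y2ext {I J : Finset V} (hI : I ⊆ ((X \ B).erase p) \ insert t (insert rp R))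
    (hi : G.IsIndepSet (I : Set V)) (hJ : G.IsIndepSet (J : Set V)) (hJX : J ⊆ X)
    (hd : Disjoint J I) (hn : ∀ x ∈ J, ∀ y ∈ I, ¬ G.Adj x y) :
    J.card + I.card ≤ al G (((X \ B).erase p) \ insert t (insert rp R)) + 2 := by
  rw [h.y2.1, ← Finset.card_union_of_disjoint hd]
  exact le_al (Finset.union_subset hJX (hI.trans h.y2X)) (indep_union hJ hi hn)

theorem cardN : (nb G (X \ B) a ∪ nb G (X \ B) b).card = k + 1 := by
  rw [Finset.card_union_of_disjoint h.hdis, h.hg]

/-- no edges between `a, b` and `p, t` is impossible -/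
theorem x0 (h1 : ¬ G.Adj a p) (h2 : ¬ G.Adj a t) (h3 : ¬ G.Adj b p) (h4 : ¬ G.Adj b t) :
    False := by
  have hk := h.mc.hk
  have hk' : (20 : ℤ) ≤ k := by exact_mod_cast hk
  obtain ⟨Y2, hY2⟩ : ∃ Y, Y = ((X \ B).erase p) \ insert t (insert rp R) := ⟨_, rfl⟩
  obtain ⟨S, hS⟩ : ∃ S, S = (insert rt (nb G (X \ B) a ∪ nb G (X \ B) b)) ∩ Y2 := ⟨_, rfl⟩
  have hSY : S ⊆ Y2 := by rw [hS]; exact Finset.inter_subset_right
  have haX := h.hB h.ha
  have hbX := h.hB h.hb
  have hpQ := mem_sdiff.1 h.pQ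
  have htQ := mem_sdiff.1 h.tQ
  have hap : a ≠ p := fun e => hpQ.2 (e ▸ h.ha)
  have hat : a ≠ t := fun e => htQ.2 (e ▸ h.ha)
  have hbp : b ≠ p := fun e => hpQ.2 (e ▸ h.hb)
  have hbt : b ≠ t := fun e => htQ.2 (e ▸ h.hb)
  have hJi : G.IsIndepSet (({a, b, p, t} : Finset V) : Set V) := by
    refine indep_insert (indep_triple h3 h4 h.npt) ?_
    intro x hx
    rw [mem_insert, mem_insert, mem_singleton] at hx
    rcases hx with rfl | rfl | rfl
    · exact h.nab
    · exact h1
    · exact h2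
  have hJc : ({a, b, p, t} : Finset V).card = 4 := by
    rw [Finset.card_insert_of_notMem (by simp [h.hab, hap, hat]),
      Finset.card_insert_of_notMem (by simp [hbp, hbt]), Finset.card_pair h.hpt]
  have hdrop : al G (Y2 \ S) + 2 ≤ al G Y2 := by
    obtain ⟨I, hI, hi, hc⟩ := exists_al (G := G) (Y2 \ S)
    have hIY : I ⊆ Y2 := hI.trans Finset.sdiff_subset
    have h5 := h.y2ext (I := I) (J := {a, b, p, t}) (by rw [← hY2]; exact hIY) hi hJi ?_ ?_ ?_
    · rw [hJc, ← hY2] at h5
      omega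
    · intro z hz
      rw [mem_insert, mem_insert, mem_insert, mem_singleton] at hz
      rcases hz with rfl | rfl | rfl | rfl
      · exact haX
      · exact hbX
      · exact hpQ.1
      · exact htQ.1
    · rw [Finset.disjoint_left]
      intro z hz hz'
      have h6 := hIY hz'
      rw [hY2, h.mem_y2, mem_sdiff] at h6
      rw [mem_insert, mem_insert, mem_insert, mem_singleton] at hz
      rcases hz with rfl | rfl | rfl | rfl
      · exact h6.1.2 h.ha
      · exact h6.1.2 h.hb
      · exact h6.2.1 rfl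
      · exact h6.2.2.1 rfl
    · intro x hx y hy hxy
      have h6 := hIY hy
      have h7 := (mem_sdiff.1 (hI hy)).2
      have h8 := h6
      rw [hY2, h.mem_y2] at h8
      rw [mem_insert, mem_insert, mem_insert, mem_singleton] at hx
      rw [hS, mem_inter, mem_insert, mem_union] at h7
      rcases hx with rfl | rfl | rfl | rfl
      · exact h7 ⟨Or.inr (Or.inl (mem_nb.2 ⟨h8.1, hxy⟩)), h6⟩
      · exact h7 ⟨Or.inr (Or.inr (mem_nb.2 ⟨h8.1, hxy⟩)), h6⟩
      · have h9 : y ∈ nb G (X \ B) x := mem_nb.2 ⟨h8.1, hxy⟩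
        rw [h.xp.hN, mem_insert] at h9
        rcases h9 with h9 | h9
        · exact h8.2.2.2.1 h9
        · exact h8.2.2.2.2 h9
      · have h9 : y ∈ nb G (X \ B) x := mem_nb.2 ⟨h8.1, hxy⟩
        rw [h.xt.hN, mem_insert] at h9
        rcases h9 with h9 | h9
        · exact h7 ⟨Or.inl h9, h6⟩
        · exact h8.2.2.2.2 h9
  have h5 := h.mc.drop (Y := Y2) (by rw [hY2]; exact h.y2X) (by rw [hY2]; exact h.y2ne) hSY
    (j := 2) hdrop
  have h6 : S.card ≤ k + 2 := by
    have h7 : S.card ≤ (insert rt (nb G (X \ B) a ∪ nb G (X \ B) b)).card := by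
      rw [hS]
      exact Finset.card_le_card Finset.inter_subset_left
    have h8 := Finset.card_insert_le rt (nb G (X \ B) a ∪ nb G (X \ B) b)
    have h9 := h.cardN
    omega
  have h6' : (S.card : ℤ) ≤ k + 2 := by exact_mod_cast h6
  have h7 := h.y2.2
  rw [← hY2] at h7
  have h8 : (0 : ℤ) ≤ 4 * (k : ℤ) - 2 := by linarith
  have h9 := mul_le_mul_of_nonneg_left h6' h8
  push_cast at h5
  nlinarith

/-- `R ⊆ N(a) ∪ N(b)` is impossible if `p` and `t` both have neighbours among `a, b` -/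
theorem xs (h1 : G.Adj a p) (h2 : G.Adj a t ∨ G.Adj b t)
    (hR : R ⊆ nb G (X \ B) a ∪ nb G (X \ B) b) : False := by
  have hk := h.mc.hk
  have hpQ := mem_sdiff.1 h.pQ
  have htQ := mem_sdiff.1 h.tQ
  obtain ⟨F1, hF1⟩ : ∃ F, F = insert p (insert t B) := ⟨_, rfl⟩
  have htB : t ∉ B := htQ.2
  have hpB : p ∉ insert t B := by
    rw [mem_insert]
    rintro (e | e)
    · exact h.hpt e
    · exact hpQ.2 e
  have hF1X : F1 ⊆ X := by
    rw [hF1]
    exact Finset.insert_subset hpQ.1 (Finset.insert_subset htQ.1 h.hB)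
  have hd : Disjoint F1 R := by
    rw [Finset.disjoint_left]
    intro z hz hz'
    rw [hF1, mem_insert, mem_insert] at hz
    rcases hz with rfl | rfl | hz
    · exact h.pR hz'
    · exact h.tR hz'
    · exact (mem_sdiff.1 (h.hR hz')).2 hz
  have hRX : R ⊆ X := h.hR.trans Finset.sdiff_subset
  have hF1c : F1.card = k + 2 := by
    rw [hF1, Finset.card_insert_of_notMem hpB, Finset.card_insert_of_notMem htB, h.hBc]
  have hRc := h.hRc
  have hWc : (F1 ∪ R).card = 2 * k := by
    rw [Finset.card_union_of_disjoint hd]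
    omega
  have hsp := h.mc.hS (F1 ∪ R) (Finset.union_subset hF1X hRX) (by omega)
  rw [hWc] at hsp
  have he := e2_sdiff (G := G) (Finset.subset_union_right : R ⊆ F1 ∪ R)
  have he1 : (F1 ∪ R) \ R = F1 := by
    rw [Finset.union_sdiff_right]
    exact Finset.sdiff_eq_self_of_disjoint hd
  rw [he1] at he
  have heR := clq_e2 (G := G) h.hRq
  -- each vertex of `R` has at least `k` neighbours in `F1 ∪ R`
  have hsum : k * R.card ≤ ∑ w ∈ R, (nb G (F1 ∪ R) w).card := by
    rw [mul_comm, ← smul_eq_mul, ← Finset.sum_const]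
    refine Finset.sum_le_sum fun w hw => ?_
    have hwp : G.Adj p w := (mem_nb.1 (by rw [h.xp.hN]; exact mem_insert_of_mem hw :
      w ∈ nb G (X \ B) p)).2
    have hwt : G.Adj t w := (mem_nb.1 (by rw [h.xt.hN]; exact mem_insert_of_mem hw :
      w ∈ nb G (X \ B) t)).2
    obtain ⟨z, hz, hzw⟩ : ∃ z ∈ B, G.Adj w z := by
      have h3 := hR hw
      rw [mem_union, mem_nb, mem_nb] at h3
      rcases h3 with h3 | h3
      · exact ⟨a, h.ha, h3.2.symm⟩
      · exact ⟨b, h.hb, h3.2.symm⟩
    have hsub : insert p (insert t (insert z (R.erase w))) ⊆ nb G (F1 ∪ R) w := by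
      intro v hv
      rw [mem_insert, mem_insert, mem_insert, mem_erase] at hv
      rw [mem_nb, mem_union, hF1, mem_insert, mem_insert]
      rcases hv with rfl | rfl | rfl | ⟨hv1, hv2⟩
      · exact ⟨Or.inl (Or.inl rfl), hwp.symm⟩
      · exact ⟨Or.inl (Or.inr (Or.inl rfl)), hwt.symm⟩
      · exact ⟨Or.inl (Or.inr (Or.inr hz)), hzw⟩
      · exact ⟨Or.inr hv2, h.hRq w hw v hv2 (Ne.symm hv1)⟩
    have h3 := Finset.card_le_card hsub
    rw [Finset.card_insert_of_notMem, Finset.card_insert_of_notMem,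
      Finset.card_insert_of_notMem, Finset.card_erase_of_mem hw] at h3
    · have : 1 ≤ R.card := Finset.card_pos.2 ⟨w, hw⟩
      omega
    · rw [mem_erase]
      exact fun e => (mem_sdiff.1 (h.hR e.2)).2 hz
    · rw [mem_insert, mem_erase]
      rintro (e | e)
      · exact htB (e ▸ hz)
      · exact h.tR e.2
    · rw [mem_insert, mem_insert, mem_erase]
      rintro (e | e | e)
      · exact h.hpt e
      · exact hpQ.2 (e ▸ hz)
      · exact h.pR e.2
  -- `F1`
  have e1 := e2_sdiff (G := G) (X := F1) (R := {p, t}) (by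
    rw [hF1]
    intro z hz
    rw [mem_insert, mem_singleton] at hz
    rw [mem_insert, mem_insert]
    rcases hz with rfl | rfl
    · exact Or.inl rfl
    · exact Or.inr (Or.inl rfl))
  have e2' : F1 \ {p, t} = B := by
    ext v
    rw [hF1, mem_sdiff, mem_insert, mem_insert, mem_insert, mem_singleton]
    constructor
    · rintro ⟨h3 | h3 | h3, h4⟩
      · exact absurd (Or.inl h3) h4
      · exact absurd (Or.inr h3) h4
      · exact h3
    · intro h3
      exact ⟨Or.inr (Or.inr h3), fun h4 => h4.elim (fun e => hpQ.2 (e ▸ h3)) (fun e => htB (e ▸ h3))⟩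
  rw [e2', Finset.sum_pair h.hpt] at e1
  have hnbF : ∀ v, (nb G B v).card ≤ (nb G F1 v).card := by
    intro v
    refine Finset.card_le_card (nb_mono ?_ v)
    rw [hF1]
    exact (Finset.subset_insert _ _).trans (Finset.subset_insert _ _)
  have hcount : k ≤ (nb G B p).card + (nb G B t).card := by
    unfold nb
    rw [Finset.card_filter, Finset.card_filter, ← Finset.sum_add_distrib]
    rw [← Finset.add_sum_erase _ _ h.ha, ← Finset.add_sum_erase _ _
      (mem_erase.2 ⟨h.hab.symm, h.hb⟩ : b ∈ B.erase a)]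
    have h3 : ((B.erase a).erase b).card ≤ ∑ v ∈ (B.erase a).erase b,
        ((if G.Adj p v then 1 else 0) + (if G.Adj t v then 1 else 0)) := by
      rw [Finset.card_eq_sum_ones]
      refine Finset.sum_le_sum fun v hv => ?_
      rw [mem_erase, mem_erase] at hv
      rcases h.hpar v hv.2.2 hv.2.1 hv.1 with h4 | h4
      · have h5 : G.Adj p v := (mem_nb.1 (by rw [h4]; simp : p ∈ nb G (X \ B) v)).2.symm
        rw [if_pos h5]
        omega
      · have h5 : G.Adj t v := (mem_nb.1 (by rw [h4]; simp : t ∈ nb G (X \ B) v)).2.symm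
        rw [if_pos h5]
        omega
    have h4 : ((B.erase a).erase b).card + 2 = k := by
      rw [Finset.card_erase_of_mem (mem_erase.2 ⟨h.hab.symm, h.hb⟩),
        Finset.card_erase_of_mem h.ha, h.hBc]
      omega
    rw [if_pos h1.symm]
    rcases h2 with h2 | h2
    · rw [if_pos h2.symm]
      omega
    · rw [if_pos h2.symm]
      omega
  have heB : e2 G B + e2 Gᶜ B + k = k * k := by
    have := e2_add_compl (G := G) B
    rw [h.hBc] at this
    exact this
  have heBc : e2 Gᶜ B ≤ 2 := by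
    have h3 := e2c_insert (G := G) (F := B.erase a) (v := a) (Finset.notMem_erase _ _)
    rw [Finset.insert_erase h.ha, clq_e2c h.hqa] at h3
    have h4 : (nb Gᶜ (B.erase a) a).card ≤ 1 := by
      refine nbc_one (s := b) ?_
      intro w hw hwb
      rw [mem_erase] at hw
      exact h.hqb a (mem_erase.2 ⟨h.hab, h.ha⟩) w (mem_erase.2 ⟨hwb, hw.2⟩) (Ne.symm hw.1)
    omega
  have hb1 := hnbF p
  have hb2 := hnbF t
  have hpt2 := e2_le (G := G) ({p, t} : Finset V)
  rw [Finset.card_pair h.hpt] at hpt2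
  obtain ⟨m, rfl⟩ : ∃ m, k = m + 2 := ⟨k - 2, by omega⟩
  have hRm : R.card = m := by omega
  rw [hRm] at hsum heR
  linarith

end XC

end Pool.Agent.TwoDens.TK
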