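import Pool.Agent.TKE.XE

/-!
Case II with one vertex missing: the contradiction.
-/

open Finset

namespace Pool.Agent.TwoDens.TK

open Pool.Agent.TwoDens Pool.Agent.TwoDens.RK Pool.Agent.TwoDens.DD

variable {V : Type*} [DecidableEq V] {G : SimpleGraph V} [DecidableRel G.Adj]

namespace XC
variable {k : ℕ} {X B R : Finset V} {a b p t rp rt : V} (h : XC G k X B a b p t R rp rt)
include h

/-- a clique `R1 ⊆ H_p` with `k - 1` vertices, not containing `t`, which meets `R`, contains `R` -/
theorem meet {R1 : Finset V} (hR1 : R1 ⊆ (X \ B).erase p) (hc : R1.card + 1 = k)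
    (hq : Clq G R1) (htR1 : t ∉ R1) {w : V} (hw : w ∈ R1) (hwR : w ∈ R) : R ⊆ R1 := by
  have h1 := h.xp.dR w (mem_insert_of_mem hwR)
  have hwt : G.Adj t w := (mem_nb.1 (by rw [h.xt.hN]; exact mem_insert_of_mem hwR :
      w ∈ nb G (X \ B) t)).2
  have hsub : insert t (R1.erase w) ⊆ nb G ((X \ B).erase p) w := by
    intro v hv
    rw [mem_insert, mem_erase] at hv
    rw [mem_nb]
    rcases hv with rfl | hv
    · exact ⟨mem_erase.2 ⟨h.hpt.symm, h.tQ⟩, hwt.symm⟩
    · exact ⟨hR1 hv.2, hq w hw v hv.2 (Ne.symm hv.1)⟩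
  have heq : insert t (R1.erase w) = nb G ((X \ B).erase p) w := by
    refine Finset.eq_of_subset_of_card_le hsub ?_
    rw [Finset.card_insert_of_notMem (fun e => htR1 (mem_erase.1 e).2),
      Finset.card_erase_of_mem hw]
    have : 1 ≤ R1.card := Finset.card_pos.2 ⟨w, hw⟩
    omega
  intro v hv
  by_cases hvw : v = w
  · rw [hvw]; exact hw
  · have h2 : v ∈ nb G ((X \ B).erase p) w := by
      refine mem_nb.2 ⟨?_, h.hRq w hwR v hv (Ne.symm hvw)⟩
      rw [mem_erase]
      exact ⟨fun e => h.pR (e ▸ hv), h.hR hv⟩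
    rw [← heq, mem_insert, mem_erase] at h2
    rcases h2 with h2 | h2
    · exact absurd (h2 ▸ hv) h.tR
    · exact h2.2

/-- the transversal `N' ∖ p` if `a` is adjacent to `p` -/
theorem starN (h1 : G.Adj a p) :
    ∃ r1, StarT G k ((X \ B).erase p) ((nb G (X \ B) a ∪ nb G (X \ B) b).erase p) r1 := by
  have hm : p ∈ nb G (X \ B) a ∪ nb G (X \ B) b := mem_union_left _ (mem_nb.2 ⟨h.pQ, h1⟩)
  refine h.mc.star8 h.hpX h.hpne (by rw [h.xp.hps]; norm_num) h.tau ?_ ?_ h.trab
  · exact Finset.erase_subset_erase _ (Finset.union_subset (nb_sub _ _) (nb_sub _ _))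
  · rw [Finset.card_erase_of_mem hm, h.cardN]
    omega

theorem x1 (h1 : G.Adj a p) (h2 : G.Adj a t ∨ G.Adj b t) : False := by
  have hk := h.mc.hk
  obtain ⟨T1, hT1⟩ : ∃ T, T = (nb G (X \ B) a ∪ nb G (X \ B) b).erase p := ⟨_, rfl⟩
  obtain ⟨r1, hS⟩ := h.starN h1
  rw [← hT1] at hS
  have htr := h.trab
  rw [← hT1] at htr
  have htT : t ∈ T1 := by
    rw [hT1, mem_erase, mem_union]
    refine ⟨h.hpt.symm, ?_⟩
    rcases h2 with h2 | h2
    · exact Or.inl (mem_nb.2 ⟨h.tQ, h2⟩)
    · exact Or.inr (mem_nb.2 ⟨h.tQ, h2⟩)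
  have hsubN : ∀ w ∈ T1, w ∈ nb G (X \ B) a ∪ nb G (X \ B) b := by
    intro w hw
    rw [hT1, mem_erase] at hw
    exact hw.2
  have hTc := hS.hc
  by_cases e : t = r1
  · -- the centre is `t`
    rw [← e] at hS
    obtain ⟨R1, hR1⟩ : ∃ R, R = T1.erase t := ⟨_, rfl⟩
    have hq := hS.clq
    rw [← hR1] at hq
    have hR1sub : R1 ⊆ (X \ B).erase p := by
      rw [hR1]
      exact (Finset.erase_subset _ _).trans hS.hT
    have hR1c : R1.card + 1 = k := by
      rw [hR1, Finset.card_erase_add_one htT, hTc]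
    have htR1 : t ∉ R1 := by rw [hR1]; exact Finset.notMem_erase _ _
    have hno : ∀ w ∈ R1, w ∉ R := by
      intro w hw hwR
      have h3 := h.meet hR1sub hR1c hq htR1 hw hwR
      refine h.xs h1 h2 ?_
      intro v hv
      have h4 := h3 hv
      rw [hR1, mem_erase] at h4
      exact hsubN v h4.2
    obtain ⟨w, hw⟩ : R.Nonempty := Finset.card_pos.1 (by have := h.hRc; omega)
    have hT1i : insert t R1 = T1 := by rw [hR1, Finset.insert_erase htT]
    have hpQ := mem_sdiff.1 h.pQ
    refine h.mc.lemW h.hpX h.hpne (by rw [h.xp.hps]; norm_num) h.tau (R := R1)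
      (R' := insert t R) (r := t) (w := w) (z := p) hR1sub hR1c (hS.hT htT) htR1
      (by rw [hT1i]; exact htr) ?_ ?_ ?_ (mem_insert_self _ _) ?_ (mem_insert_of_mem hw)
      (fun e' => h.tR (e' ▸ hw)) (h.xp.dR w (mem_insert_of_mem hw)) hpQ.1
      (Finset.notMem_erase _ _) ?_
    · intro v hv
      rw [mem_insert] at hv
      rw [mem_erase]
      rcases hv with rfl | hv
      · exact ⟨h.hpt.symm, h.tQ⟩
      · exact ⟨fun e' => h.pR (e' ▸ hv), h.hR hv⟩
    · rw [Finset.card_insert_of_notMem h.tR]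
      have := h.hRc
      omega
    · intro x hx y hy hxy
      have ht : ∀ v ∈ R, G.Adj t v := fun v hv =>
        (mem_nb.1 (by rw [h.xt.hN]; exact mem_insert_of_mem hv : v ∈ nb G (X \ B) t)).2
      rw [mem_insert] at hx hy
      rcases hx with rfl | hx <;> rcases hy with rfl | hy
      · exact absurd rfl hxy
      · exact ht y hy
      · exact (ht x hx).symm
      · exact h.hRq x hx y hy hxy
    · rw [Finset.disjoint_left]
      intro v hv hv'
      rw [mem_insert] at hv'
      rcases hv' with rfl | hv'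
      · exact htR1 hv
      · exact hno v hv hv'
    · rw [Finset.erase_insert h.tR]
      have h3 : R ⊆ nb G R p := by
        intro v hv
        exact mem_nb.2 ⟨hv, (mem_nb.1 (by rw [h.xp.hN]; exact mem_insert_of_mem hv :
          v ∈ nb G (X \ B) p)).2⟩
      have h4 := Finset.card_le_card h3
      have := h.hRc
      omega
  · -- the centre is another vertex
    obtain ⟨S, hSd⟩ : ∃ S, S = (T1.erase r1).erase t := ⟨_, rfl⟩
    have htS : t ∈ T1.erase r1 := mem_erase.2 ⟨e, htT⟩
    have hSc : S.card + 2 = k := by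
      have h3 : S.card + 1 = (T1.erase r1).card := by
        rw [hSd]; exact Finset.card_erase_add_one htS
      have h4 : (T1.erase r1).card + 1 = T1.card := Finset.card_erase_add_one hS.hr
      omega
    have hSN : ∀ w ∈ S, w ∈ insert rt R := by
      intro w hw
      rw [hSd, mem_erase] at hw
      rw [← h.xt.hN]
      refine mem_nb.2 ⟨?_, hS.clq t htS w hw.2 (Ne.symm hw.1)⟩
      have h3 := hS.hT (mem_erase.1 hw.2).2
      exact (mem_erase.1 h3).2
    have hrtS : rt ∉ S := by
      intro hrt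
      have h3 : S.erase rt ⊆ nb G R rt := by
        intro w hw
        rw [mem_erase] at hw
        have h4 := hSN w hw.2
        rw [mem_insert] at h4
        refine mem_nb.2 ⟨h4.resolve_left hw.1, ?_⟩
        have h5 := hw.2
        rw [hSd, mem_erase] at h5 hrt
        exact hS.clq rt hrt.2 w h5.2 (Ne.symm hw.1)
      have h4 := Finset.card_le_card h3
      rw [Finset.card_erase_of_mem hrt] at h4
      have h5 := nbc_card' (G := G) h.xt.hr
      have h6 := h.xt.ms
      have h7 := h.hRc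
      omega
    have hSR : S = R := by
      refine Finset.eq_of_subset_of_card_le ?_ (by have := h.hRc; omega)
      intro w hw
      have h4 := hSN w hw
      rw [mem_insert] at h4
      exact h4.resolve_left (fun e' => hrtS (e' ▸ hw))
    refine h.xs h1 h2 ?_
    intro v hv
    rw [← hSR, hSd, mem_erase, mem_erase] at hv
    exact hsubN v hv.2.2

theorem x2 (h1 : G.Adj a p) (h2 : ¬ G.Adj a t) (h3 : ¬ G.Adj b t) : False := by
  have hk := h.mc.hk
  have hk' : (20 : ℤ) ≤ k := by exact_mod_cast hk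
  have hpQ := mem_sdiff.1 h.pQ
  have htQ := mem_sdiff.1 h.tQ
  have haX := h.hB h.ha
  have hbX := h.hB h.hb
  have hap : a ≠ p := fun e => hpQ.2 (e ▸ h.ha)
  have hat : a ≠ t := fun e => htQ.2 (e ▸ h.ha)
  have hbp : b ≠ p := fun e => hpQ.2 (e ▸ h.hb)
  have hbt : b ≠ t := fun e => htQ.2 (e ▸ h.hb)
  have hnbp : ¬ G.Adj b p := fun e => (Finset.disjoint_left.1 h.hdis)
    (mem_nb.2 ⟨h.pQ, h1⟩) (mem_nb.2 ⟨h.pQ, e⟩)
  obtain ⟨Y2, hY2⟩ : ∃ Y, Y = ((X \ B).erase p) \ insert t (insert rp R) := ⟨_, rfl⟩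
  have hY2X : Y2 ⊆ X := by rw [hY2]; exact h.y2X
  have hY2ne : Y2 ≠ X := by rw [hY2]; exact h.y2ne
  have hps2 := h.y2.2
  have hal2 := h.y2.1
  rw [← hY2] at hps2 hal2
  have hmem : ∀ {w : V}, w ∈ Y2 ↔ w ∈ X \ B ∧ w ≠ p ∧ w ≠ t ∧ w ≠ rp ∧ w ∉ R := by
    intro w
    rw [hY2]
    exact h.mem_y2
  have htau2 := h.mc.tau1 hY2X hY2ne (by linarith)
  -- neighbours of `p` and `t` in `Y2`
  have hpY : ∀ y ∈ Y2, ¬ G.Adj p y := by
    intro y hy hpy
    have h8 := hmem.1 hy
    have h9 : y ∈ nb G (X \ B) p := mem_nb.2 ⟨h8.1, hpy⟩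
    rw [h.xp.hN, mem_insert] at h9
    rcases h9 with h9 | h9
    · exact h8.2.2.2.1 h9
    · exact h8.2.2.2.2 h9
  have htY : ∀ y ∈ Y2, G.Adj t y → y = rt := by
    intro y hy hpy
    have h8 := hmem.1 hy
    have h9 : y ∈ nb G (X \ B) t := mem_nb.2 ⟨h8.1, hpy⟩
    rw [h.xt.hN, mem_insert] at h9
    rcases h9 with h9 | h9
    · exact h9
    · exact absurd h9 h8.2.2.2.2
  -- (i)
  have hi : (nb G Y2 a ∪ nb G Y2 b).card + 2 ≥ k := by
    have htr : Tr G Y2 (insert rt (nb G Y2 a ∪ nb G Y2 b)) := by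
      refine tr_nbr (X := X) (J := {a, b, t}) hY2X ?_ ?_ (indep_triple h.nab h2 h3) ?_ ?_
      · intro z hz
        rw [mem_insert, mem_insert, mem_singleton] at hz
        rcases hz with rfl | rfl | rfl
        · exact haX
        · exact hbX
        · exact htQ.1
      · rw [Finset.disjoint_left]
        intro z hz hz'
        have h6 := hmem.1 hz'
        rw [mem_sdiff] at h6
        rw [mem_insert, mem_insert, mem_singleton] at hz
        rcases hz with rfl | rfl | rfl
        · exact h6.1.2 h.ha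
        · exact h6.1.2 h.hb
        · exact h6.2.2.1 rfl
      · rw [Finset.card_insert_of_notMem (by simp [h.hab, hat]), Finset.card_pair hbt]
        omega
      · intro z hz w hw hzw
        rw [mem_insert, mem_insert, mem_singleton] at hz
        rw [mem_insert, mem_union]
        rcases hz with rfl | rfl | rfl
        · exact Or.inr (Or.inl (mem_nb.2 ⟨hw, hzw⟩))
        · exact Or.inr (Or.inr (mem_nb.2 ⟨hw, hzw⟩))
        · exact Or.inl (htY w hw hzw)
    have htr' := tr_mono htr (Finset.Subset.refl _)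
    have h6 := htau2 _ Finset.inter_subset_right htr'
    have h7 : (insert rt (nb G Y2 a ∪ nb G Y2 b) ∩ Y2).card ≤
        (insert rt (nb G Y2 a ∪ nb G Y2 b)).card := Finset.card_le_card Finset.inter_subset_left
    have h8 := Finset.card_insert_le rt (nb G Y2 a ∪ nb G Y2 b)
    omega
  -- (ii)
  have hii : k ≤ (nb G Y2 b).card + 2 := by
    have htr : Tr G Y2 (insert rt (nb G Y2 b)) := by
      refine tr_nbr (X := X) (J := {b, p, t}) hY2X ?_ ?_ (indep_triple hnbp h3 h.npt) ?_ ?_
      · intro z hz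
        rw [mem_insert, mem_insert, mem_singleton] at hz
        rcases hz with rfl | rfl | rfl
        · exact hbX
        · exact hpQ.1
        · exact htQ.1
      · rw [Finset.disjoint_left]
        intro z hz hz'
        have h6 := hmem.1 hz'
        rw [mem_sdiff] at h6
        rw [mem_insert, mem_insert, mem_singleton] at hz
        rcases hz with rfl | rfl | rfl
        · exact h6.1.2 h.hb
        · exact h6.2.1 rfl
        · exact h6.2.2.1 rfl
      · rw [Finset.card_insert_of_notMem (by simp [hbp, hbt]), Finset.card_pair h.hpt]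
        omega
      · intro z hz w hw hzw
        rw [mem_insert, mem_insert, mem_singleton] at hz
        rw [mem_insert]
        rcases hz with rfl | rfl | rfl
        · exact Or.inr (mem_nb.2 ⟨hw, hzw⟩)
        · exact absurd hzw (hpY w hw)
        · exact Or.inl (htY w hw hzw)
    have htr' := tr_mono htr (Finset.Subset.refl _)
    have h6 := htau2 _ Finset.inter_subset_right htr'
    have h7 : (insert rt (nb G Y2 b) ∩ Y2).card ≤
        (insert rt (nb G Y2 b)).card := Finset.card_le_card Finset.inter_subset_left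
    have h8 := Finset.card_insert_le rt (nb G Y2 b)
    omega
  have hnbY : (nb G Y2 b).card ≤ (nb G (X \ B) b).card := by
    refine Finset.card_le_card (nb_mono ?_ b)
    intro w hw
    exact (hmem.1 hw).1
  have hg := h.hg
  -- degrees of `a`
  have hga : 2 ≤ (nb G (X \ B) a).card := by
    have e1 := h.mc.deg_ge a haX
    have e2' : (nb G X a).card ≤ (nb G (B.erase b) a).card + (nb G (X \ B) a).card := by
      refine le_trans (Finset.card_le_card ?_) (Finset.card_union_le _ _)
      intro w hw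
      have e3 := mem_nb.1 hw
      rw [mem_union, mem_nb, mem_nb, mem_erase, mem_sdiff]
      by_cases hwB : w ∈ B
      · exact Or.inl ⟨⟨fun e => h.nab (e ▸ e3.2), hwB⟩, e3.2⟩
      · exact Or.inr ⟨⟨e3.1, hwB⟩, e3.2⟩
    have e3 : (nb G (B.erase b) a).card + 1 ≤ (B.erase b).card := by
      have := nbc_card (G := G) (mem_erase.2 ⟨h.hab, h.ha⟩ : a ∈ B.erase b)
      omega
    have e4 : (B.erase b).card + 1 = k := by rw [Finset.card_erase_add_one h.hb, h.hBc]
    omega
  -- the transversal `T1 = N' ∖ p`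
  obtain ⟨T1, hT1⟩ : ∃ T, T = (nb G (X \ B) a ∪ nb G (X \ B) b).erase p := ⟨_, rfl⟩
  obtain ⟨r1, hS⟩ := h.starN h1
  rw [← hT1] at hS
  have htr1 := h.trab
  rw [← hT1] at htr1
  have hTc := hS.hc
  obtain ⟨R1, hR1⟩ : ∃ R, R = T1.erase r1 := ⟨_, rfl⟩
  have hq := hS.clq
  rw [← hR1] at hq
  have hT1Q : ∀ w ∈ T1, w ∈ (X \ B).erase p := fun w hw => hS.hT hw
  have hR1T : R1 ⊆ T1 := by rw [hR1]; exact Finset.erase_subset _ _
  have hR1sub : R1 ⊆ (X \ B).erase p := hR1T.trans hS.hT
  have hR1c : R1.card + 1 = k := by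
    rw [hR1, Finset.card_erase_add_one hS.hr, hTc]
  have hT1ab : ∀ w ∈ T1, G.Adj a w ∨ G.Adj b w := by
    intro w hw
    rw [hT1, mem_erase, mem_union] at hw
    rcases hw.2 with e | e
    · exact Or.inl (mem_nb.1 e).2
    · exact Or.inr (mem_nb.1 e).2
  have htT1 : t ∉ T1 := by
    intro e
    rcases hT1ab t e with e | e
    · exact h2 e
    · exact h3 e
  have htR1 : t ∉ R1 := fun e => htT1 (hR1T e)
  have hpR1 : p ∉ R1 := fun e => (mem_erase.1 (hR1sub e)).1 rfl
  have hr1 : r1 ∉ R1 := by rw [hR1]; exact Finset.notMem_erase _ _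
  -- `R1` does not meet `R`
  have hno : ∀ w ∈ R1, w ∉ R := by
    intro w hw hwR
    have h4 := h.meet hR1sub hR1c hq htR1 hw hwR
    -- then few elements of `N'` lie in `Y2`
    have h5 : (nb G Y2 a ∪ nb G Y2 b) ⊆ T1 \ R := by
      intro v hv
      rw [mem_union, mem_nb, mem_nb] at hv
      have h6 : v ∈ Y2 := by
        rcases hv with hv | hv
        · exact hv.1
        · exact hv.1
      have h7 := hmem.1 h6
      rw [mem_sdiff, hT1, mem_erase, mem_union]
      refine ⟨⟨h7.2.1, ?_⟩, h7.2.2.2.2⟩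
      rcases hv with hv | hv
      · exact Or.inl (mem_nb.2 ⟨h7.1, hv.2⟩)
      · exact Or.inr (mem_nb.2 ⟨h7.1, hv.2⟩)
    have h6 := Finset.card_le_card h5
    rw [Finset.card_sdiff_of_subset (h4.trans hR1T)] at h6
    have := h.hRc
    omega
  -- missing of `b` in `R1`
  have hbR1 : (nb Gᶜ R1 b).card ≤ 2 := by
    have h4 : nb Gᶜ R1 b ⊆ (nb G (X \ B) a).erase p := by
      intro w hw
      have h5 := mem_nb.1 hw
      have h6 := (SimpleGraph.compl_adj _ _ _).1 h5.2
      have h7 := hR1sub h5.1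
      rw [mem_erase] at h7 ⊢
      refine ⟨h7.1, mem_nb.2 ⟨h7.2, ?_⟩⟩
      exact (hT1ab w (hR1T h5.1)).resolve_right h6.2
    have h5 := Finset.card_le_card h4
    rw [Finset.card_erase_of_mem (mem_nb.2 ⟨h.pQ, h1⟩)] at h5
    omega
  have hr1X : r1 ∈ X := h.hpX (hS.hT hS.hr)
  have hr1b : r1 ≠ b := by
    intro e
    have h4 := hS.hT hS.hr
    rw [mem_erase, mem_sdiff] at h4
    exact h4.2.2 (e ▸ h.hb)
  have hbR1' : b ∉ R1 := by
    intro e
    have h4 := hR1sub e
    rw [mem_erase, mem_sdiff] at h4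
    exact h4.2.2 h.hb
  have hn2 := h.mc.near2 (hR1sub.trans h.hpX) hq hR1c hr1X hbX hr1b hr1 hbR1'
  have hq5 : 5 ≤ (nb Gᶜ T1 r1).card := by
    have h4 : nb Gᶜ R1 r1 ⊆ nb Gᶜ T1 r1 := Finset.filter_subset_filter _ hR1T
    have h5 := Finset.card_le_card h4
    omega
  have hd1 := h.mc.star0 h.hpX h.hpne (by rw [h.xp.hps]; norm_num) hS hq5
  rw [← hR1] at hd1
  -- a vertex `β` of `R1` adjacent to `a`
  obtain ⟨β, hβ, hβa⟩ : ∃ β ∈ R1, G.Adj a β := by
    by_contra hcon
    push Not at hcon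
    have h4 : Clq G (insert b R1) := by
      have h5 : ∀ w ∈ R1, G.Adj b w := fun w hw =>
        (hT1ab w (hR1T hw)).resolve_left (hcon w hw)
      intro x hx y hy hxy
      rw [mem_insert] at hx hy
      rcases hx with rfl | hx <;> rcases hy with rfl | hy
      · exact absurd rfl hxy
      · exact h5 y hy
      · exact (h5 x hx).symm
      · exact hq x hx y hy hxy
    have h5 := h.mc.clq_lt (Finset.insert_subset hbX (hR1sub.trans h.hpX)) h4
    rw [Finset.card_insert_of_notMem hbR1'] at h5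
    omega
  have hβQ := mem_erase.1 (hR1sub hβ)
  have hβb : ¬ G.Adj b β := fun e => (Finset.disjoint_left.1 h.hdis)
    (mem_nb.2 ⟨hβQ.2, hβa⟩) (mem_nb.2 ⟨hβQ.2, e⟩)
  have hβR := hno β hβ
  have hbcount : ∀ v : V, k ≤ (nb G (R1.erase v) b).card + 5 := by
    intro v
    have h4 := nbc_card' (G := G) hbR1'
    have h5 : nb G R1 b ⊆ insert v (nb G (R1.erase v) b) := by
      intro w hw
      have h6 := mem_nb.1 hw
      rw [mem_insert, mem_nb, mem_erase]
      by_cases e : w = v
      · exact Or.inl e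
      · exact Or.inr ⟨⟨e, h6.1⟩, h6.2⟩
    have h6 := Finset.card_le_card h5
    have h7 := Finset.card_insert_le v (nb G (R1.erase v) b)
    omega
  by_cases e1 : β = rp
  · -- Lemma W in `H_p`
    obtain ⟨w, hw, hwne⟩ := Finset.exists_mem_ne (by omega : 1 < R1.card) rp
    have hTT : insert rp (insert t R) = insert t (insert rp R) := Finset.insert_comm _ _ _
    refine h.mc.lemW h.hpX h.hpne (by rw [h.xp.hps]; norm_num) h.tau (R := insert t R)
      (R' := R1) (r := rp) (w := w) (z := b) ?_ ?_ (mem_erase.2 ⟨h.prp.symm, h.rpQ⟩) ?_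
      (by rw [hTT]; exact h.trT) hR1sub hR1c hq (e1 ▸ hβ) ?_ hw hwne (hd1 w hw) hbX ?_
      (hbcount rp)
    · exact ((Finset.insert_subset_insert t (Finset.subset_insert _ _)).trans h.Tsub)
    · rw [Finset.card_insert_of_notMem h.tR]
      have := h.hRc
      omega
    · rw [mem_insert]
      rintro (e | e)
      · exact h.trp e.symm
      · exact h.xp.hr e
    · rw [Finset.disjoint_left]
      intro v hv hv'
      rw [mem_insert] at hv
      rcases hv with rfl | hv
      · exact htR1 hv'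
      · exact hno v hv' hv
    · rw [mem_erase, mem_sdiff]
      exact fun e => e.2.2 h.hb
  by_cases e2 : β = rt
  · -- Lemma W in `H_t`
    have h' := h.swappt
    obtain ⟨w, hw, hwne⟩ : ∃ w ∈ R1.erase rp, w ≠ rt := by
      refine Finset.exists_mem_ne ?_ rt
      have := Finset.pred_card_le_card_erase (s := R1) (a := rp)
      omega
    rw [mem_erase] at hw
    have hR1t : R1 ⊆ (X \ B).erase t := by
      intro v hv
      rw [mem_erase]
      exact ⟨fun e => htR1 (e ▸ hv), (mem_erase.1 (hR1sub hv)).2⟩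
    have hwd : (nb G ((X \ B).erase t) w).card + 1 = k := by
      rw [← hd1 w hw.2]
      congr 2
      ext v
      rw [mem_nb, mem_nb, mem_erase, mem_erase]
      have hwQ := (mem_erase.1 (hR1sub hw.2)).2
      have hwR := hno w hw.2
      constructor
      · rintro ⟨⟨_, h5⟩, h6⟩
        refine ⟨⟨?_, h5⟩, h6⟩
        intro e
        rw [e] at h6
        have h7 : w ∈ nb G (X \ B) p := mem_nb.2 ⟨hwQ, h6.symm⟩
        rw [h.xp.hN, mem_insert] at h7
        rcases h7 with h7 | h7
        · exact hw.1 h7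
        · exact hwR h7
      · rintro ⟨⟨_, h5⟩, h6⟩
        refine ⟨⟨?_, h5⟩, h6⟩
        intro e
        rw [e] at h6
        have h7 : w ∈ nb G (X \ B) t := mem_nb.2 ⟨hwQ, h6.symm⟩
        rw [h.xt.hN, mem_insert] at h7
        rcases h7 with h7 | h7
        · exact hwne h7
        · exact hwR h7
    have hTT : insert rt (insert p R) = insert p (insert rt R) := Finset.insert_comm _ _ _
    refine h.mc.lemW h'.hpX h'.hpne (by rw [h'.xp.hps]; norm_num) h'.tau (R := insert p R)
      (R' := R1) (r := rt) (w := w) (z := b) ?_ ?_ (mem_erase.2 ⟨h'.prp.symm, h'.rpQ⟩) ?_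
      (by rw [hTT]; exact h'.trT) hR1t hR1c hq (e2 ▸ hβ) ?_ hw.2 hwne hwd hbX ?_
      (hbcount rt)
    · exact ((Finset.insert_subset_insert p (Finset.subset_insert _ _)).trans h'.Tsub)
    · rw [Finset.card_insert_of_notMem h.pR]
      have := h.hRc
      omega
    · rw [mem_insert]
      rintro (e | e)
      · exact h'.trp e.symm
      · exact h'.xp.hr e
    · rw [Finset.disjoint_left]
      intro v hv hv'
      rw [mem_insert] at hv
      rcases hv with rfl | hv
      · exact hpR1 hv'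
      · exact hno v hv' hv
    · rw [mem_erase, mem_sdiff]
      exact fun e => e.2.2 h.hb
  -- the exchange
  have hβY : β ∈ Y2 := hmem.2 ⟨hβQ.2, hβQ.1, fun e => htR1 (e ▸ hβ), e1, hβR⟩
  obtain ⟨S4, hS4⟩ : ∃ S, S = (insert rt (insert r1 (cl G Y2 β))) ∩ Y2 := ⟨_, rfl⟩
  have hS4Y : S4 ⊆ Y2 := by rw [hS4]; exact Finset.inter_subset_right
  have hβp : ¬ G.Adj p β := hpY β hβY
  have hβt : ¬ G.Adj t β := fun e => e2 (htY β hβY e)
  have hβne : β ≠ b ∧ β ≠ p ∧ β ≠ t := by
    refine ⟨?_, hβQ.1, fun e => htR1 (e ▸ hβ)⟩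
    rintro rfl
    exact (mem_sdiff.1 hβQ.2).2 h.hb
  have hJi : G.IsIndepSet (({β, b, p, t} : Finset V) : Set V) := by
    refine indep_insert (indep_triple hnbp h3 h.npt) ?_
    intro x hx
    rw [mem_insert, mem_insert, mem_singleton] at hx
    rcases hx with rfl | rfl | rfl
    · exact fun e => hβb e.symm
    · exact fun e => hβp e.symm
    · exact fun e => hβt e.symm
  have hJc : ({β, b, p, t} : Finset V).card = 4 := by
    rw [Finset.card_insert_of_notMem (by simp [hβne]),
      Finset.card_insert_of_notMem (by simp [hbp, hbt]), Finset.card_pair h.hpt]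
  have hdrop : al G (Y2 \ S4) + 2 ≤ al G Y2 := by
    obtain ⟨I, hI, hi', hc⟩ := exists_al (G := G) (Y2 \ S4)
    have hIY : I ⊆ Y2 := hI.trans Finset.sdiff_subset
    have h5 := h.y2ext (I := I) (J := {β, b, p, t}) (by rw [← hY2]; exact hIY) hi' hJi ?_ ?_ ?_
    · rw [hJc, ← hY2] at h5
      omega
    · intro z hz
      rw [mem_insert, mem_insert, mem_insert, mem_singleton] at hz
      rcases hz with rfl | rfl | rfl | rfl
      · exact hY2X hβY
      · exact hbX
      · exact hpQ.1
      · exact htQ.1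
    · rw [Finset.disjoint_left]
      intro z hz hz'
      have h6 := hIY hz'
      have h7 := (mem_sdiff.1 (hI hz')).2
      rw [hmem, mem_sdiff] at h6
      rw [mem_insert, mem_insert, mem_insert, mem_singleton] at hz
      rcases hz with rfl | rfl | rfl | rfl
      · apply h7
        rw [hS4, mem_inter]
        exact ⟨mem_insert_of_mem (mem_insert_of_mem (mem_insert_self _ _)), hβY⟩
      · exact h6.1.2 h.hb
      · exact h6.2.1 rfl
      · exact h6.2.2.1 rfl
    · intro x hx y hy hxy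
      have h6 := hIY hy
      have h7 := (mem_sdiff.1 (hI hy)).2
      rw [hS4, mem_inter, mem_insert, mem_insert] at h7
      rw [mem_insert, mem_insert, mem_insert, mem_singleton] at hx
      rcases hx with rfl | rfl | rfl | rfl
      · exact h7 ⟨Or.inr (Or.inr (mem_insert_of_mem (mem_nb.2 ⟨h6, hxy⟩))), h6⟩
      · -- neighbours of `b` in `Y2`
        have h8 := hmem.1 h6
        have h9 : y ∈ T1 := by
          rw [hT1, mem_erase, mem_union]
          exact ⟨h8.2.1, Or.inr (mem_nb.2 ⟨h8.1, hxy⟩)⟩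
        by_cases e : y = r1
        · exact h7 ⟨Or.inr (Or.inl e), h6⟩
        · have h10 : y ∈ R1 := by rw [hR1]; exact mem_erase.2 ⟨e, h9⟩
          have h11 : β ≠ y := fun e' => hβb (e' ▸ hxy)
          exact h7 ⟨Or.inr (Or.inr (mem_insert_of_mem (mem_nb.2 ⟨h6, hq β hβ y h10 h11⟩))), h6⟩
      · exact hpY y h6 hxy
      · exact h7 ⟨Or.inl (htY y h6 hxy), h6⟩
  have h5 := h.mc.drop (Y := Y2) hY2X hY2ne hS4Y (j := 2) hdrop
  have h6 : S4.card ≤ k + 2 := by
    have h7 : S4.card ≤ (insert rt (insert r1 (cl G Y2 β))).card := by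
      rw [hS4]
      exact Finset.card_le_card Finset.inter_subset_left
    have h8 := Finset.card_insert_le rt (insert r1 (cl G Y2 β))
    have h9 := Finset.card_insert_le r1 (cl G Y2 β)
    have h10 := card_cl (G := G) (X := Y2) (v := β)
    have h11 : (nb G Y2 β).card ≤ (nb G ((X \ B).erase p) β).card := by
      refine Finset.card_le_card (nb_mono ?_ β)
      intro w hw
      have := hmem.1 hw
      exact mem_erase.2 ⟨this.2.1, this.1⟩
    have h12 := hd1 β hβ
    omega
  have h6' : (S4.card : ℤ) ≤ k + 2 := by exact_mod_cast h6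
  have h8 : (0 : ℤ) ≤ 4 * (k : ℤ) - 2 := by linarith
  have h9 := mul_le_mul_of_nonneg_left h6' h8
  push_cast at h5
  nlinarith

/-- Case II with one vertex missing is impossible if `a` is adjacent to `p` -/
theorem x12 (h1 : G.Adj a p) : False := by
  by_cases h2 : G.Adj a t
  · exact h.x1 h1 (Or.inl h2)
  · by_cases h3 : G.Adj b t
    · exact h.x1 h1 (Or.inr h3)
    · exact h.x2 h1 h2 h3

theorem false : False := by
  by_cases h1 : G.Adj a p
  · exact h.x12 h1
  by_cases h2 : G.Adj a t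
  · exact h.swappt.x12 h2
  by_cases h3 : G.Adj b p
  · exact h.swapab.x12 h3
  by_cases h4 : G.Adj b t
  · exact h.swapab.swappt.x12 h4
  exact h.x0 h1 h2 h3 h4

end XC

/-- no vertex outside `P` is adjacent to all vertices of `P` of degree `k` -/
theorem Fr.ns {k : ℕ} {X P : Finset V} (F : Fr G k X P) {a : V} (ha : a ∈ X \ P) :
    ∃ c ∈ P, (nb G X c).card = k ∧ ¬ G.Adj a c := by
  by_contra hcon
  push Not at hcon
  obtain ⟨b, hb⟩ := Finset.card_pos.1 (F.missP ha)
  have ha' := mem_sdiff.1 ha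
  rw [F.mem_nbc ha'.2] at hb
  by_cases h1 : ∃ v ∈ P, v ≠ b ∧ ¬ G.Adj a v
  · obtain ⟨v, hv, hvb, hav⟩ := h1
    exact F.c2a ha hcon hv hb.1 hvb hav hb.2
  · push Not at h1
    obtain ⟨p, t, R, rp, rt, h⟩ := F.c2x ha hb.1 hb.2 h1
    exact h.false

end Pool.Agent.TwoDens.TK
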